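import Pool.Agent.Y127.FftS

/-!
# The first fundamental theorem for the special orthogonal Lie algebra, explicit form

A multilinear form which is invariant under the Lie algebra of a nondegenerate symmetric form is a
combination of products of the form on pairs of variables, and of such products and the determinant
on the remaining variables.
-/

set_option linter.unusedSectionVars false

open Finset Function

namespace Pool.Agent.T2H43.HF

open Pool.Agent.TH125.Nod Pool.Agent.Y127

universe u v

variable {K : Type u} [Field K] {J : Type} [Fintype J] [DecidableEq J]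
  {M : Type v} [AddCommGroup M] [Module K M]

/-- the determinant of a map of the index set -/
def dt (K : Type u) [Field K] {J : Type} [Fintype J] [DecidableEq J] (y : J → J) : K :=
  (Matrix.of fun a b : J => if y a = b then (1 : K) else 0).det

/-- the product of the form on pairs of variables and the function `d` on the others -/
def ggen (Q : Matrix J J K) {T : Type} (d : (T → J) → K) {S : Type} {m : ℕ}
    (e : (Fin m × Fin 2) ⊕ T ≃ S) (w : M) : (S → J) → M := fun x =>
  ((∏ l, Q (x (e (Sum.inl (l, 0)))) (x (e (Sum.inl (l, 1))))) * d fun t => x (e (Sum.inr t))) • w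

/-- the span of these products -/
def GGen (Q : Matrix J J K) {T : Type} (d : (T → J) → K) (S : Type) :
    Submodule K ((S → J) → M) :=
  Submodule.span K {f | ∃ (m : ℕ) (e : (Fin m × Fin 2) ⊕ T ≃ S) (w : M), f = ggen Q d e w}

section
variable {Q : Matrix J J K} {T : Type} {d : (T → J) → K} {S : Type} [Fintype S] [DecidableEq S]

theorem GGen_perm (σ : Equiv.Perm S) {f : (S → J) → M} (hf : f ∈ GGen Q d S) :
    (fun x : S → J => f (fun j => x (σ j))) ∈ (GGen Q d S : Submodule K ((S → J) → M)) := by
  unfold GGen at hf
  induction hf using Submodule.span_induction with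
  | mem f hf =>
    obtain ⟨m, e, w, rfl⟩ := hf
    exact Submodule.subset_span ⟨m, e.trans σ, w, rfl⟩
  | zero => exact Submodule.zero_mem _
  | add f f' _ _ hf hf' => exact Submodule.add_mem _ hf hf'
  | smul c f _ hf => exact Submodule.smul_mem _ c hf

theorem GGen_mul {a b : S} (hab : a ≠ b) {f : ({x // x ≠ a ∧ x ≠ b} → J) → M}
    (hf : f ∈ GGen Q d {x // x ≠ a ∧ x ≠ b}) :
    (fun x : S → J => Q (x a) (x b) • f (fun y => x y.1)) ∈
      (GGen Q d S : Submodule K ((S → J) → M)) := by
  unfold GGen at hf
  induction hf using Submodule.span_induction with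
  | mem g hg =>
    obtain ⟨m, e, w, rfl⟩ := hg
    let F : (Fin (m + 1) × Fin 2) ⊕ T → S := Sum.elim
      (fun p => Fin.cases (motive := fun _ => S) (if p.2 = 0 then a else b)
        (fun l => (e (Sum.inl (l, p.2))).1) p.1) fun t => (e (Sum.inr t)).1
    have hF0 : F (Sum.inl (0, 0)) = a := rfl
    have hF1 : F (Sum.inl (0, 1)) = b := rfl
    have hFs : ∀ l t, F (Sum.inl (Fin.succ l, t)) = (e (Sum.inl (l, t))).1 := fun l t => rfl
    have hFr : ∀ t, F (Sum.inr t) = (e (Sum.inr t)).1 := fun t => rfl
    have hpair : ∀ p : Fin 2, F (Sum.inl (0, p)) = a ∨ F (Sum.inl (0, p)) = b := by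
      intro p
      fin_cases p
      · exact Or.inl rfl
      · exact Or.inr rfl
    have hne : ∀ (p : Fin 2) (z : {x // x ≠ a ∧ x ≠ b}), F (Sum.inl (0, p)) ≠ z.1 := by
      intro p z h
      rcases hpair p with h1 | h1
      · exact z.2.1 (by rw [← h, h1])
      · exact z.2.2 (by rw [← h, h1])
    have hbij : Function.Bijective F := by
      constructor
      · rintro (⟨l, t⟩ | t) (⟨l', t'⟩ | t') h
        · induction l using Fin.cases with
          | zero =>
            induction l' using Fin.cases with
            | zero =>
              fin_cases t <;> fin_cases t'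
              · rfl
              · exact absurd h hab
              · exact absurd h (Ne.symm hab)
              · rfl
            | succ l' => exact absurd h (by rw [hFs]; exact hne t _)
          | succ l =>
            induction l' using Fin.cases with
            | zero => exact absurd h.symm (by rw [hFs]; exact hne t' _)
            | succ l' =>
              rw [hFs, hFs] at h
              have h1 := e.injective (Subtype.ext h)
              have h2 := Sum.inl_injective h1
              rw [Prod.mk.injEq] at h2
              rw [h2.1, h2.2]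
        · induction l using Fin.cases with
          | zero => exact absurd h (by rw [hFr]; exact hne t _)
          | succ l =>
            rw [hFs, hFr] at h
            exact absurd (e.injective (Subtype.ext h)) Sum.inl_ne_inr
        · induction l' using Fin.cases with
          | zero => exact absurd h.symm (by rw [hFr]; exact hne t' _)
          | succ l' =>
            rw [hFs, hFr] at h
            exact absurd (e.injective (Subtype.ext h)) Sum.inr_ne_inl
        · rw [hFr, hFr] at h
          exact congrArg Sum.inr (Sum.inr_injective (e.injective (Subtype.ext h)))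
      · intro x
        by_cases h1 : x = a
        · exact ⟨Sum.inl (0, 0), by rw [hF0, h1]⟩
        by_cases h2 : x = b
        · exact ⟨Sum.inl (0, 1), by rw [hF1, h2]⟩
        rcases h3 : e.symm ⟨x, h1, h2⟩ with ⟨l, t⟩ | t
        · refine ⟨Sum.inl (Fin.succ l, t), ?_⟩
          rw [hFs, ← h3, Equiv.apply_symm_apply]
        · refine ⟨Sum.inr t, ?_⟩
          rw [hFr, ← h3, Equiv.apply_symm_apply]
    refine Submodule.subset_span ⟨m + 1, Equiv.ofBijective F hbij, w, ?_⟩
    funext x
    unfold ggen
    rw [smul_smul, Fin.prod_univ_succ, ← mul_assoc]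
    rfl
  | zero =>
    have h1 : (fun x : S → J => Q (x a) (x b) •
        (0 : ({x // x ≠ a ∧ x ≠ b} → J) → M) (fun y => x y.1)) = 0 := by
      funext x
      rw [Pi.zero_apply, smul_zero, Pi.zero_apply]
    rw [h1]
    exact Submodule.zero_mem _
  | add f f' _ _ hf hf' =>
    have h1 := Submodule.add_mem _ hf hf'
    have h2 : (fun x : S → J => Q (x a) (x b) • (f + f') (fun y => x y.1)) =
        (fun x : S → J => Q (x a) (x b) • f (fun y => x y.1)) +
        fun x : S → J => Q (x a) (x b) • f' (fun y => x y.1) := by
      funext x
      rw [Pi.add_apply, Pi.add_apply, smul_add]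
    rw [h2]
    exact h1
  | smul c f _ hf =>
    have h1 := Submodule.smul_mem _ c hf
    have h2 : (fun x : S → J => Q (x a) (x b) • (c • f) (fun y => x y.1)) =
        c • fun x : S → J => Q (x a) (x b) • f (fun y => x y.1) := by
      funext x
      rw [Pi.smul_apply, Pi.smul_apply, smul_comm]
    rw [h2]
    exact h1

/-- if there are fewer variables than the rank there is no determinant -/
theorem GGen_lt {Q : Matrix J J K} (h : Fintype.card S < Fintype.card J) {f : (S → J) → M}
    (hf : f ∈ GGen Q (dt K) S) : f = 0 := by
  have h0 : {f : (S → J) → M | ∃ (m : ℕ) (e : (Fin m × Fin 2) ⊕ J ≃ S) (w : M),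
      f = ggen Q (dt K) e w} = ∅ := by
    rw [Set.eq_empty_iff_forall_notMem]
    rintro f ⟨m, e, w, -⟩
    have h1 := Fintype.card_congr e
    rw [Fintype.card_sum] at h1
    omega
  rw [GGen, h0, Submodule.span_empty, Submodule.mem_bot] at hf
  exact hf

/-- alternating forms of top degree -/
theorem top_GGen {Q : Matrix J J K} {S : Type} [Fintype S] [DecidableEq S]
    (hc : Fintype.card S = Fintype.card J) {f : (S → J) → M} (h1 : ∀ x, ¬Bijective x → f x = 0)
    (h2 : ∀ x a b, a ≠ b → f (x ∘ Equiv.swap a b) = -f x) : f ∈ GGen Q (dt K) S := by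
  classical
  let e : J ≃ S := Fintype.equivOfCardEq hc.symm
  let e' : (Fin 0 × Fin 2) ⊕ J ≃ S := (Equiv.emptySum (Fin 0 × Fin 2) J).trans e
  refine Submodule.subset_span ⟨0, e', f e.symm, ?_⟩
  have hgg : ∀ x, ggen Q (dt K) e' (f e.symm) x = (dtf e x : K) • f e.symm := by
    intro x
    unfold ggen
    rw [Finset.univ_eq_empty, Finset.prod_empty, one_mul]
    rfl
  funext x
  rw [hgg]
  by_cases hx : Bijective x
  · let σ : Equiv.Perm S := (Equiv.ofBijective x hx).trans e
    have hσ : x = e.symm ∘ σ := by
      funext s
      simp [σ]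
    have h3 : ∀ σ : Equiv.Perm S, f (e.symm ∘ σ) = (dtf e (e.symm ∘ σ) : K) • f e.symm := by
      intro σ
      induction σ using Equiv.Perm.swap_induction_on' with
      | one =>
        have h4 : (dtf e (e.symm ∘ (1 : Equiv.Perm S)) : K) = 1 := by
          rw [dtf]
          have h5 : (Matrix.of fun a b : J => if (e.symm ∘ (1 : Equiv.Perm S)) (e a) = b then (1 : K)
              else 0) = 1 := by
            ext a b
            simp [Matrix.one_apply]
          rw [h5, Matrix.det_one]
        rw [h4, one_smul]
        rfl
      | mul_swap f' a b hab ih =>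
        have h4 : (e.symm ∘ (f' * Equiv.swap a b : Equiv.Perm S)) =
            (e.symm ∘ f') ∘ Equiv.swap a b := rfl
        rw [h4, h2 _ a b hab, dtf_swap e _ hab, ih, neg_smul]
    rw [hσ]
    exact h3 σ
  · rw [h1 x hx, dtf_zero e hx, zero_smul]

end

variable {Q R : Matrix J J K} (hQs : ∀ a b, Q a b = Q b a) (hQR : Q * R = 1)

include hQs hQR in
/-- **The first fundamental theorem** for the special orthogonal Lie algebra. -/
theorem fftD [CharZero K] (N : ℕ) : ∀ (S : Type) [Fintype S] [DecidableEq S]
    (f : (S → J) → M), Fintype.card S = N → Inv (fun _ : J => ()) Q (fun _ => 1) f →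
    f ∈ (GGen Q (fun _ : Fin 0 → J => (1 : K)) S ⊔ GGen Q (dt K) S :
      Submodule K ((S → J) → M)) := by
  classical
  induction N using Nat.strong_induction_on with
  | _ N ih =>
    intro S _ _ f hN hinv
    rcases isEmpty_or_nonempty S with hS | hS
    · refine Submodule.mem_sup_left (Submodule.subset_span
        ⟨0, (Equiv.equivOfIsEmpty _ _), f (fun j => (hS.false j).elim), ?_⟩)
      funext x
      unfold ggen
      rw [Finset.univ_eq_empty, Finset.prod_empty, one_mul, one_smul]
      congr 1
      funext j
      exact (hS.false j).elim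
    · have hA : opA f ∈ (GGen Q (fun _ : Fin 0 → J => (1 : K)) S ⊔ GGen Q (dt K) S :
          Submodule K ((S → J) → M)) := by
        rw [opA_con hQR hinv]
        refine Submodule.sum_mem _ fun a _ => Submodule.sum_mem _ fun b hb => ?_
        have hab : a ≠ b := Ne.symm (Finset.mem_erase.1 hb).1
        have h1 : con1 R a b f ∈ (GGen Q (fun _ : Fin 0 → J => (1 : K)) {x // x ≠ a ∧ x ≠ b} ⊔
            GGen Q (dt K) {x // x ≠ a ∧ x ≠ b} : Submodule K _) := by
          refine ih (Fintype.card {x // x ≠ a ∧ x ≠ b}) ?_ _ _ rfl ?_
          · rw [← hN]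
            exact Fintype.card_subtype_lt (x := a) (fun h => h.1 rfl)
          · have h2 := inv_con (κ := fun _ : J => ()) (Q := Q) (R := R) (s := fun _ => 1)
              (fun _ => Or.inl rfl) (fun a b h => absurd rfl h)
              (fun a b => by rw [Int.cast_one, one_mul]; exact hQs a b) hQR
              (f := f) (by simpa using hinv) (i := ()) hab
            simpa using h2
        obtain ⟨f0, hf0, f1, hf1, hff⟩ := Submodule.mem_sup.1 h1
        rw [← hff]
        refine Submodule.mem_sup.2 ⟨_, GGen_mul hab hf0, _, GGen_mul hab hf1, ?_⟩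
        funext x
        rw [Pi.add_apply, Pi.add_apply, smul_add]
      obtain ⟨f₀, h1, h2, h3⟩ := exists_dec (K := K)
        (GGen Q (fun _ : Fin 0 → J => (1 : K)) S ⊔ GGen Q (dt K) S)
        (fun g hg a b => by
          obtain ⟨f0, hf0, f1, hf1, rfl⟩ := Submodule.mem_sup.1 hg
          exact Submodule.mem_sup.2 ⟨_, GGen_perm (Equiv.swap a b) hf0, _,
            GGen_perm (Equiv.swap a b) hf1, rfl⟩) hA
      have hf0 : f₀ ∈ (GGen Q (fun _ : Fin 0 → J => (1 : K)) S ⊔ GGen Q (dt K) S :
          Submodule K ((S → J) → M)) := by
        by_cases hc : Fintype.card S = Fintype.card J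
        · obtain ⟨h4, h5⟩ := h3 hc
          exact Submodule.mem_sup_right (top_GGen hc h4 h5)
        · rw [h2 Fintype.card_pos hc]
          exact Submodule.zero_mem _
      have h4 := Submodule.add_mem _ h1 hf0
      rwa [sub_add_cancel] at h4

end Pool.Agent.T2H43.HF
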