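import Pool.Agent.T2H43.HF.Sum
import Pool.Agent.T2H43.HF.Fft
import Pool.Agent.Y127.SOTwr
import Pool.Agent.Y132.AH.Sys

/-!
# Systems of classes on products with powers of a variety of orthogonal type

The structure of the classes, including the determinant. The arguments follow the files
`TH125.Gal.Tate` and `Y127.SOTwr`.
-/

open CategoryTheory AlgebraicGeometry Finset Function

set_option linter.unusedSectionVars false

universe u v w

namespace Pool.Agent.T2H43.HF

open Pool.Agent.H914 Pool.Agent.H914.VarClass Pool.Agent.H914.VarClass.Obj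
  Pool.Agent.H914.WeilCohomology Pool.Agent.H281R3.HT Pool.Agent.W552 Pool.Agent.TH125.Gal
  Pool.Agent.Y127 Pool.Agent.Y132.AH

variable {k : Type u} [Field k] {𝒱 : VarClass k} {ops : CycleOps 𝒱}
  {W : WeilCohomology.{u, v} ops} {Γ : Type w} [Group Γ] {χ : Γ →* W.Kˣ}

section CP

variable {A Z : 𝒱.Obj} {τ : Γ →* (W.H Z ≃ₐ[W.K] W.H Z)}
  {υ : Γ →* (W.H (A.prod Z) ≃ₐ[W.K] W.H (A.prod Z))} {𝒞 : ClassSystem W} {Δ : Subgroup Γ}

/-- semi-invariant classes of degree `2 i` in the system -/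
structure CP (𝒞 : ClassSystem W) (χ : Γ →* W.Kˣ) (Δ : Subgroup Γ)
    (υ : Γ →* (W.H (A.prod Z) ≃ₐ[W.K] W.H (A.prod Z))) (i : ℕ) (m : W.H A) : Prop where
  gr : m ∈ W.gr A (2 * i)
  cls : m ∈ 𝒞.C A
  act : ∀ g ∈ Δ, υ g (W.map (fst A Z) m) = (χ g : W.K) ^ i • W.map (fst A Z) m

theorem CP.one : CP 𝒞 χ Δ υ 0 (1 : W.H A) where
  gr := W.one_mem A
  cls := 𝒞.alg_le _ algSpan_one
  act g _ := by rw [map_one, map_one, pow_zero, one_smul]

theorem CP.mul {i i' : ℕ} {m m' : W.H A} (h : CP 𝒞 χ Δ υ i m) (h' : CP 𝒞 χ Δ υ i' m') :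
    CP 𝒞 χ Δ υ (i + i') (m * m') where
  gr := by
    rw [mul_add]
    exact W.mul_mem h.gr h'.gr
  cls := 𝒞.mul_mem h.cls h'.cls
  act g hg := by
    rw [map_mul, map_mul, h.act g hg, h'.act g hg, smul_mul_smul_comm, pow_add]

theorem CP.smul {i : ℕ} {m : W.H A} (h : CP 𝒞 χ Δ υ i m) (x : W.K) : CP 𝒞 χ Δ υ i (x • m) where
  gr := Submodule.smul_mem _ _ h.gr
  cls := Submodule.smul_mem _ _ h.cls
  act g hg := by
    rw [map_smul, map_smul, h.act g hg, smul_comm]

theorem CP.list {L : List (W.H A)} (h : ∀ x ∈ L, ∃ i, CP 𝒞 χ Δ υ i x) :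
    ∃ i, CP 𝒞 χ Δ υ i L.prod := by
  induction L with
  | nil => exact ⟨0, CP.one⟩
  | cons x L ih =>
    obtain ⟨i, hi⟩ := h x List.mem_cons_self
    obtain ⟨i', hi'⟩ := ih fun y hy => h y (List.mem_cons_of_mem _ hy)
    exact ⟨i + i', hi.mul hi'⟩

/-- the external products with the classes `CP` -/
noncomputable def TgtC (𝒞 : ClassSystem W) (χ : Γ →* W.Kˣ) (Δ : Subgroup Γ)
    (υ : Γ →* (W.H (A.prod Z) ≃ₐ[W.K] W.H (A.prod Z))) : Submodule W.K (W.H (A.prod Z)) :=
  Submodule.span W.K {x | ∃ i m w, CP 𝒞 χ Δ υ i m ∧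
    x = W.map (fst A Z) m * W.map (snd A Z) w}

/-- Expansion of the elements. -/
theorem exists_expC (𝒞 : ClassSystem W) (χ : Γ →* W.Kˣ) (Δ : Subgroup Γ)
    (υ : Γ →* (W.H (A.prod Z) ≃ₐ[W.K] W.H (A.prod Z))) :
    ∃ (N : ℕ) (m : Fin N → W.H A) (i : Fin N → ℕ) (φ : Fin N → W.H A →ₗ[W.K] W.K),
      (∀ l, CP 𝒞 χ Δ υ (i l) (m l)) ∧ (∀ l l', φ l (m l') = if l' = l then 1 else 0) ∧
      ∀ c ∈ TgtC 𝒞 χ Δ υ, c = ∑ l, W.map (fst A Z) (m l) * W.map (snd A Z) (ctr (φ l) c) := by
  classical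
  obtain ⟨S, hSA, hSspan, hSli⟩ := exists_linearIndependent W.K
    {m : W.H A | ∃ i, CP 𝒞 χ Δ υ i m}
  have hfin : S.Finite := hSli.setFinite
  have := hfin.fintype
  let eS := Fintype.equivFin S
  have hinj : ∀ l : Fin (Fintype.card S), ∃ i, CP 𝒞 χ Δ υ i ((eS.symm l : S) : W.H A) :=
    fun l => hSA (eS.symm l).2
  choose i hi using hinj
  let B := Module.Basis.extend hSli
  let φ : Fin (Fintype.card S) → W.H A →ₗ[W.K] W.K := fun l =>
    B.coord ⟨(eS.symm l : S), Module.Basis.subset_extend hSli (eS.symm l).2⟩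
  have hφ : ∀ l l', φ l ((eS.symm l' : S) : W.H A) = if l' = l then 1 else 0 := by
    intro l l'
    have h1 : ((eS.symm l' : S) : W.H A) =
        B ⟨(eS.symm l' : S), Module.Basis.subset_extend hSli (eS.symm l').2⟩ :=
      (Module.Basis.extend_apply_self hSli ⟨((eS.symm l' : S) : W.H A),
        Module.Basis.subset_extend hSli (eS.symm l').2⟩).symm
    change B.coord _ _ = _
    rw [h1, Module.Basis.coord_apply, Module.Basis.repr_self, Finsupp.single_apply]
    congr 1
    apply propext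
    rw [Subtype.mk.injEq, Subtype.ext_iff.symm, EmbeddingLike.apply_eq_iff_eq]
  refine ⟨Fintype.card S, fun l => (eS.symm l : S), i, φ, hi, hφ, ?_⟩
  intro c hc
  induction hc using Submodule.span_induction with
  | mem c hc =>
    obtain ⟨i', m, w, hm, rfl⟩ := hc
    have h1 : m ∈ Submodule.span W.K (Set.range fun l : Fin (Fintype.card S) =>
        ((eS.symm l : S) : W.H A)) := by
      have h2 : (Set.range fun l : Fin (Fintype.card S) =>
          ((eS.symm l : S) : W.H A)) = S := by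
        ext x
        constructor
        · rintro ⟨l, rfl⟩
          exact (eS.symm l).2
        · intro hx
          exact ⟨eS ⟨x, hx⟩, by simp⟩
      rw [h2, hSspan]
      exact Submodule.subset_span ⟨i', hm⟩
    obtain ⟨a, ha⟩ := (Submodule.mem_span_range_iff_exists_fun W.K).1 h1
    have h3 : ∀ l, φ l m = a l := by
      intro l
      rw [← ha, map_sum, Finset.sum_eq_single l]
      · rw [map_smul, hφ, if_pos rfl, smul_eq_mul, mul_one]
      · intro l' _ hl
        rw [map_smul, hφ, if_neg hl, smul_zero]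
      · intro h
        exact absurd (Finset.mem_univ _) h
    have h4 : ∀ l, W.map (fst A Z) ((eS.symm l : S) : W.H A) *
        W.map (snd A Z) (ctr (φ l) (W.map (fst A Z) m * W.map (snd A Z) w)) =
        W.map (fst A Z) (a l • ((eS.symm l : S) : W.H A)) * W.map (snd A Z) w := by
      intro l
      rw [ctr_apply, h3, map_smul, map_smul, mul_smul_comm, smul_mul_assoc]
    rw [Finset.sum_congr rfl fun l _ => h4 l, ← Finset.sum_mul, ← map_sum, ha]
  | zero =>
    simp only [map_zero, mul_zero, Finset.sum_const_zero]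
  | add x y _ _ hx hy =>
    conv_lhs => rw [hx, hy]
    rw [← Finset.sum_add_distrib]
    refine Finset.sum_congr rfl fun l _ => ?_
    rw [map_add, map_add, mul_add]
  | smul r x _ hx =>
    conv_lhs => rw [hx]
    rw [Finset.smul_sum]
    refine Finset.sum_congr rfl fun l _ => ?_
    rw [map_smul, map_smul, mul_smul_comm]

/-- **The induction step**, from the structure of the class. -/
theorem step_of_TgtC (hP : ∀ g b, υ g (W.map (snd A Z) b) = W.map (snd A Z) (τ g b))
    {j : ℕ} {c : W.H (A.prod Z)}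
    (hcj : c ∈ W.gr _ (2 * j)) (hc : ∀ g ∈ Δ, υ g c = (χ g : W.K) ^ j • c)
    (h1 : c ∈ TgtC 𝒞 χ Δ υ)
    (hT : ∀ j, ∀ x ∈ W.gr Z (2 * j), (∀ g ∈ Δ, τ g x = (χ g : W.K) ^ j • x) → x ∈ 𝒞.C Z) :
    c ∈ 𝒞.C (A.prod Z) := by
  obtain ⟨N, m, i, φ, hm, hφ, hexp⟩ := exists_expC 𝒞 χ Δ υ
  have h2 := hexp c h1
  have huni : ∀ (x : Fin N → W.H Z) (l : Fin N),
      ctr (φ l) (∑ l', W.map (fst A Z) (m l') * W.map (snd A Z) (x l')) = x l := by
    intro x l
    rw [map_sum, Finset.sum_eq_single l]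
    · rw [ctr_apply, hφ, if_pos rfl, one_smul]
    · intro l' _ hl
      rw [ctr_apply, hφ, if_neg hl, zero_smul]
    · intro h
      exact absurd (Finset.mem_univ _) h
  set x : Fin N → W.H Z := fun l => ctr (φ l) c with hx
  have hdeg : ∀ l, x l = if 2 * i l ≤ 2 * j then
      proj (W.isInternal Z) (2 * j - 2 * i l) (x l) else 0 := by
    intro l
    have h3 : c = ∑ l', W.map (fst A Z) (m l') * W.map (snd A Z)
        (if 2 * i l' ≤ 2 * j then proj (W.isInternal Z) (2 * j - 2 * i l') (x l') else 0) := by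
      conv_lhs => rw [← proj_same (W.isInternal _) hcj, h2]
      rw [map_sum]
      refine Finset.sum_congr rfl fun l' _ => ?_
      rw [proj_ext (hm l').gr]
      by_cases h : 2 * i l' ≤ 2 * j
      · rw [if_pos h, if_pos h]
      · rw [if_neg h, if_neg h, map_zero, mul_zero]
    conv_lhs => rw [hx]
    beta_reduce
    rw [h3]
    exact huni _ l
  have hact : ∀ g ∈ Δ, ∀ l,
      (χ g : W.K) ^ i l • τ g (x l) = (χ g : W.K) ^ j • x l := by
    intro g hg l
    have h3 : υ g c = ∑ l', W.map (fst A Z) (m l') * W.map (snd A Z)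
        ((χ g : W.K) ^ i l' • τ g (x l')) := by
      conv_lhs => rw [h2]
      rw [map_sum]
      refine Finset.sum_congr rfl fun l' _ => ?_
      rw [map_mul, (hm l').act g hg, hP, map_smul, smul_mul_assoc, mul_smul_comm]
    have h4 := huni (fun l' => (χ g : W.K) ^ i l' • τ g (x l')) l
    rw [← h3, hc g hg, map_smul] at h4
    exact h4.symm
  have halg : ∀ l, x l ∈ 𝒞.C Z := by
    intro l
    by_cases h : 2 * i l ≤ 2 * j
    · have h3 := hdeg l
      rw [if_pos h] at h3
      have h4 : x l ∈ W.gr Z (2 * (j - i l)) := by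
        rw [h3, show 2 * (j - i l) = 2 * j - 2 * i l by omega]
        exact proj_mem _ _ _
      refine hT (j - i l) (x l) h4 fun g hg => ?_
      have h6 := hact g hg l
      have h7 : (χ g : W.K) ^ j = (χ g : W.K) ^ i l * (χ g : W.K) ^ (j - i l) := by
        rw [← pow_add]
        congr 1
        omega
      rw [h7, mul_smul] at h6
      exact smul_right_injective _ (pow_ne_zero _ (Units.ne_zero (χ g))) h6
    · have h3 := hdeg l
      rw [if_neg h] at h3
      rw [h3]
      exact Submodule.zero_mem _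
  rw [h2]
  refine Submodule.sum_mem _ fun l _ => ?_
  exact 𝒞.mul_mem (𝒞.map_mem _ (hm l).cls) (𝒞.map_mem _ (halg l))

end CP

section det

variable {X Y : 𝒱.Obj}

/-- the determinant class -/
noncomputable def detC (s : SB W X) (π : Fin s.NT → (Y ⟶ X)) : W.H Y :=
  ∑ y : Fin s.NT → Fin s.NT, dt W.K y • mono π fun t => s.e (Sum.inr (y t))

theorem map_detC {Y' : 𝒱.Obj} (f : Y' ⟶ Y) (s : SB W X) (π : Fin s.NT → (Y ⟶ X)) :
    W.map f (detC s π) = detC s fun t => f ≫ π t := by
  rw [detC, map_sum, detC]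
  refine Finset.sum_congr rfl fun y _ => ?_
  rw [map_smul, map_mono]

theorem detC_gr (hmid : transcendental W X ≤ W.gr X X.dim) (heven : Even X.dim) (s : SB W X)
    (π : Fin s.NT → (Y ⟶ X)) : detC s π ∈ W.gr Y (2 * (s.NT * (X.dim / 2))) := by
  refine Submodule.sum_mem _ fun y _ => Submodule.smul_mem _ _ ?_
  have h1 := mono_gr (W := W) π (fun t => s.e (Sum.inr (y t))) (fun _ => X.dim) fun t => by
    rw [s.e_inr]
    exact hmid (s.bT _).2
  rw [Finset.sum_const, Finset.card_univ, Fintype.card_fin, smul_eq_mul] at h1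
  have h2 : 2 * (s.NT * (X.dim / 2)) = s.NT * X.dim := by
    rw [← mul_assoc, mul_comm 2, mul_assoc, Nat.two_mul_div_two_of_even heven]
  rw [h2]
  exact h1

theorem GA_dt {J : Type} [Fintype J] [DecidableEq J] {K : Type*} [Field K] (g : Matrix J J K)
    (x : J → J) : ∑ y : J → J, (∏ j, g (y j) (x j)) * dt K y = g.det * dt K x := by
  have h1 : GA g (dtf (Equiv.refl J) : (J → J) → K) =
      ((g.det) ^ 1 * (1 : K) ^ Fintype.card J) • (dtf (Equiv.refl J) : (J → J) → K) := by
    refine dtf_Em (Q := 0) (Equiv.refl J) g 1 g.det ⟨?_, ?_⟩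
    · rw [mul_zero, zero_mul, smul_zero]
    · rw [one_pow, mul_one]
  have h2 := congrFun h1 x
  rw [pow_one, one_pow, mul_one, Pi.smul_apply, smul_eq_mul] at h2
  rw [GA] at h2
  simp only [smul_eq_mul] at h2
  exact h2

theorem detC_act {ρ : Γ →* (W.H X ≃ₐ[W.K] W.H X)} (hG : IsGalois W χ X ρ) (s : SB W X) (g : Γ)
    {F : W.H Y →ₐ[W.K] W.H Y} {π : Fin s.NT → (Y ⟶ X)}
    (hF : ∀ t a, F (W.map (π t) a) = W.map (π t) (ρ g a)) :
    F (detC s π) = LinearMap.det (rhoT hG g) • detC s π := by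
  set M := LinearMap.toMatrix s.bT s.bT (rhoT hG g) with hM
  have h1 : ∀ j, ρ g (s.e (Sum.inr j)) = ∑ i, M i j • s.e (Sum.inr i) := by
    intro j
    have h2 := s.bT.sum_repr (rhoT hG g (s.bT j))
    have h3 := congrArg Subtype.val h2
    rw [rhoT_apply, Submodule.coe_sum] at h3
    rw [s.e_inr, ← h3]
    refine Finset.sum_congr rfl fun i _ => ?_
    rw [hM, LinearMap.toMatrix_apply, s.e_inr]
    rfl
  have h2 : ∀ y : Fin s.NT → Fin s.NT, F (mono π fun t => s.e (Sum.inr (y t))) =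
      ∑ z : Fin s.NT → Fin s.NT, (∏ t, M (z t) (y t)) • mono π fun t => s.e (Sum.inr (z t)) := by
    intro y
    have h3 : F (mono π fun t => s.e (Sum.inr (y t))) =
        mono π fun t => ρ g (s.e (Sum.inr (y t))) := by
      rw [mono, mono, map_list_prod, List.map_ofFn]
      congr 2
      funext t
      exact hF t _
    rw [h3]
    simp only [h1]
    rw [← monoML_apply, MultilinearMap.map_sum]
    refine Finset.sum_congr rfl fun z _ => ?_
    rw [MultilinearMap.map_smul_univ, monoML_apply]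
  rw [detC, map_sum]
  simp only [map_smul, h2, Finset.smul_sum, smul_smul]
  rw [Finset.sum_comm]
  refine Finset.sum_congr rfl fun z _ => ?_
  rw [← Finset.sum_smul]
  congr 1
  have h3 := GA_dt M.transpose z
  rw [Matrix.det_transpose, hM, LinearMap.det_toMatrix] at h3
  rw [← h3]
  refine Finset.sum_congr rfl fun y _ => ?_
  rw [mul_comm]
  rfl

end det

/-- morphisms to a power -/
theorem exists_liftN {Y : 𝒱.Obj} {P : Polarized 𝒱} : ∀ (n : ℕ) (π : Fin (n + 1) → (Y ⟶ P.X)),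
    ∃ f : Y ⟶ (nest ops n fun _ => P).X, ∀ p, f ≫ prj ops n (fun _ => P) p = π p := by
  intro n
  induction n with
  | zero =>
    intro π
    refine ⟨π 0, fun p => ?_⟩
    obtain rfl : p = 0 := Fin.ext (by omega)
    exact Category.comp_id _
  | succ n ih =>
    intro π
    obtain ⟨f, hf⟩ := ih fun p => π p.succ
    refine ⟨Obj.lift (π 0) f, fun p => ?_⟩
    refine Fin.cases ?_ (fun p => ?_) p
    · exact Obj.lift_fst _ _
    · rw [← hf p]
      change Obj.lift (π 0) f ≫ (snd _ _ ≫ prj ops n (fun _ => P) p) = _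
      rw [← Category.assoc, Obj.lift_snd]

section pow

variable {P : Polarized 𝒱} {n : ℕ} {Z : 𝒱.Obj} {s : SB W P.X}
  {b : Module.Basis (Fin (n + 1) → Fin s.NC ⊕ Fin s.NT) W.K (W.H (nest ops n fun _ => P).X)}
  (hb : ∀ r, b r = mono (prj ops n fun _ => P) fun p => s.e (r p))
  {ρ : Γ →* (W.H P.X ≃ₐ[W.K] W.H P.X)}
  {τ : Γ →* (W.H Z ≃ₐ[W.K] W.H Z)}
  {υ : Γ →* (W.H ((nest ops n fun _ => P).X.prod Z) ≃ₐ[W.K]
    W.H ((nest ops n fun _ => P).X.prod Z))}
  {𝒞 : ClassSystem W} {Δ : Subgroup Γ}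

theorem e_comm (hmid : transcendental W P.X ≤ W.gr P.X P.X.dim) (heven : Even P.X.dim)
    {Y : 𝒱.Obj} {N : ℕ} (π : Fin N → (Y ⟶ P.X)) (p q : Fin N) (i j : Fin s.NC ⊕ Fin s.NT) :
    W.map (π p) (s.e i) * W.map (π q) (s.e j) = W.map (π q) (s.e j) * W.map (π p) (s.e i) := by
  have h1 := W.comm (W.map_mem (π p) (s.e_gr hmid i)) (W.map_mem (π q) (s.e_gr hmid j))
  have h2 : Even (s.dg i * s.dg j) := by
    rcases i with i | i
    · exact (even_two_mul (s.jC i)).mul_right _
    · exact Even.mul_right heven _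
  rw [h2.neg_one_pow, one_smul] at h1
  exact h1

include hb in
/-- the sum over the free positions -/
theorem sum_TgtC (hDX : HomEqNum W P.X) (hmid : transcendental W P.X ≤ W.gr P.X P.X.dim)
    (heven : Even P.X.dim) (hG : IsGalois W χ P.X ρ) (hP : IsPowAct W P n Z ρ τ υ)
    (hfix : ∀ g ∈ Δ, ∀ i, ρ g (s.bC i) = (χ g : W.K) ^ s.jC i • (s.bC i : W.H P.X))
    {c₀ : Fin (n + 1) → Option (Fin s.NC)} {t : ℕ} {d : (Fin t → Fin s.NT) → W.K}
    (hd : ∀ σ : Fin t → Fin (n + 1), ∃ i, CP 𝒞 χ Δ υ i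
      (∑ y : Fin t → Fin s.NT, d y • mono (fun x => prj ops n (fun _ => P) (σ x))
        fun x => s.e (Sum.inr (y x))))
    {F : (Free c₀ → Fin s.NT) → W.H Z} (hF : F ∈ GGen (gram s) d (Free c₀)) :
    ∑ r : Free c₀ → Fin s.NT, W.map (fst _ Z) (b (comb c₀ r)) * W.map (snd _ Z) (F r) ∈
      TgtC 𝒞 χ Δ υ := by
  unfold GGen at hF
  induction hF using Submodule.span_induction with
  | mem F hF =>
    obtain ⟨m, e, w, rfl⟩ := hF
    have h3 := sum_free (K := W.K) (E := fun p i => W.map (prj ops n (fun _ => P) p) (s.e i))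
      (fun p q i j => e_comm hmid heven (prj ops n fun _ => P) p q i j) e
      (fun a b => gram s a b) d
    have h4 : ∑ r : Free c₀ → Fin s.NT, W.map (fst _ Z) (b (comb c₀ r)) *
        W.map (snd _ Z) (ggen (gram s) d e w r) =
        W.map (fst _ Z) (∑ r : Free c₀ → Fin s.NT,
          ((∏ l, gram s (r (e (Sum.inl (l, 0)))) (r (e (Sum.inl (l, 1))))) *
            d fun t => r (e (Sum.inr t))) •
          (List.ofFn fun p => W.map (prj ops n (fun _ => P) p) (s.e (comb c₀ r p))).prod) *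
        W.map (snd _ Z) w := by
      rw [map_sum, Finset.sum_mul]
      refine Finset.sum_congr rfl fun r _ => ?_
      rw [ggen, map_smul, map_smul, mul_smul_comm, smul_mul_assoc, hb]
      rfl
    rw [h4, h3]
    -- the pairs
    obtain ⟨i1, h5⟩ : ∃ i, CP 𝒞 χ Δ υ i (List.ofFn fun l : Fin m =>
        ∑ a : Fin 2 → Fin s.NT, gram s (a 0) (a 1) •
        (W.map (prj ops n (fun _ => P) (e (Sum.inl (l, 0))).1) (s.e (Sum.inr (a 0))) *
          W.map (prj ops n (fun _ => P) (e (Sum.inl (l, 1))).1) (s.e (Sum.inr (a 1))))).prod := by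
      refine CP.list fun x hx => ?_
      obtain ⟨l, rfl⟩ := (List.mem_ofFn' _ _).1 hx
      have h6 : ∑ a : Fin 2 → Fin s.NT, gram s (a 0) (a 1) •
          (W.map (prj ops n (fun _ => P) (e (Sum.inl (l, 0))).1) (s.e (Sum.inr (a 0))) *
            W.map (prj ops n (fun _ => P) (e (Sum.inl (l, 1))).1) (s.e (Sum.inr (a 1)))) =
          W.map (Obj.lift (prj ops n (fun _ => P) (e (Sum.inl (l, 0))).1)
            (prj ops n (fun _ => P) (e (Sum.inl (l, 1))).1)) (dQ s) := by
        rw [dQ, map_sum]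
        refine Finset.sum_congr rfl fun a _ => ?_
        rw [map_smul, map_mul, ← W.map_comp, ← W.map_comp, Obj.lift_fst, Obj.lift_snd, s.e_inr,
          s.e_inr]
        rfl
      have hne : (e (Sum.inl (l, 0))).1 ≠ (e (Sum.inl (l, 1))).1 := by
        intro h
        have h7 := Sum.inl_injective (e.injective (Subtype.ext h))
        exact absurd (Prod.mk.inj h7).2 (by decide)
      refine ⟨P.X.dim, ?_⟩
      beta_reduce
      rw [h6]
      refine ⟨W.map_mem _ (dQ_gr hmid s), 𝒞.map_mem _ (𝒞.alg_le _ (dQ_alg hDX hmid s)),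
        fun g hg => ?_⟩
      have h7 := mq_act hmid hG hP (hfix g hg)
        (Mq.pair (s := s) (π := prj ops n fun _ => P) Mq.one (Finset.notMem_empty _)
          (Finset.notMem_empty _) hne)
      rw [mul_one, add_zero] at h7
      exact h7
    -- the fixed positions
    obtain ⟨i2, h6⟩ : ∃ i, CP 𝒞 χ Δ υ i ((fixList c₀).map fun p => (c₀ p).elim 1 fun i =>
        W.map (prj ops n (fun _ => P) p) (s.e (Sum.inl i))).prod := by
      refine CP.list fun x hx => ?_
      obtain ⟨p, -, rfl⟩ := List.mem_map.1 hx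
      cases c₀ p with
      | none => exact ⟨0, CP.one⟩
      | some l =>
        refine ⟨s.jC l, ?_⟩
        change CP 𝒞 χ Δ υ (s.jC l) (W.map (prj ops n (fun _ => P) p) (s.e (Sum.inl l)))
        rw [s.e_inl]
        refine ⟨W.map_mem _ (alg_gr (s.alg l)), 𝒞.map_mem _ (𝒞.alg_le _ (s.bC l).2),
          fun g hg => ?_⟩
        rw [(hP g).1, hfix g hg, map_smul, map_smul]
    -- the rest
    obtain ⟨i3, h7⟩ := hd fun x => (e (Sum.inr x)).1
    exact Submodule.subset_span ⟨_, _, w, h5.mul (h7.mul h6), rfl⟩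
  | zero =>
    simp only [Pi.zero_apply, map_zero, mul_zero, Finset.sum_const_zero]
    exact Submodule.zero_mem _
  | add F F' _ _ hF hF' =>
    simp only [Pi.add_apply, map_add, mul_add, Finset.sum_add_distrib]
    exact Submodule.add_mem _ hF hF'
  | smul x F _ hF =>
    simp only [Pi.smul_apply, map_smul, mul_smul_comm]
    rw [← Finset.smul_sum]
    exact Submodule.smul_mem _ _ hF

include hb in
/-- **The structure of the classes.** -/
theorem mem_TgtC (hDX : HomEqNum W P.X) (hmid : transcendental W P.X ≤ W.gr P.X P.X.dim)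
    (heven : Even P.X.dim) (hG : IsGalois W χ P.X ρ) (hP : IsPowAct W P n Z ρ τ υ)
    (hfix : ∀ g ∈ Δ, ∀ i, ρ g (s.bC i) = (χ g : W.K) ^ s.jC i • (s.bC i : W.H P.X))
    {R : Matrix (Fin s.NT) (Fin s.NT) W.K} (hR : gram s * R = 1)
    {c : W.H ((nest ops n fun _ => P).X.prod Z)}
    (hinv : ∀ c₀ : Fin (n + 1) → Option (Fin s.NC),
      TH125.Nod.Inv (fun _ : Fin s.NT => ()) (gram s) (fun _ => 1)
        (fun r : Free c₀ → Fin s.NT => hS s b c c₀ fun l => s.uT (r l)))
    (hd : s.NT ≤ n + 1 → ∀ σ : Fin s.NT → Fin (n + 1), ∃ i, CP 𝒞 χ Δ υ i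
      (detC s fun x => prj ops n (fun _ => P) (σ x))) : c ∈ TgtC 𝒞 χ Δ υ := by
  rw [expand b c, sum_patterns]
  refine Submodule.sum_mem _ fun c₀ _ => ?_
  have h1 := fftD (gram_symm hmid heven) hR (Fintype.card (Free c₀)) (Free c₀) _ rfl (hinv c₀)
  obtain ⟨F0, hF0, F1, hF1, hFF⟩ := Submodule.mem_sup.1 h1
  have h2 : ∀ r : Free c₀ → Fin s.NT, ctr (b.coord (comb c₀ r)) c = F0 r + F1 r := by
    intro r
    rw [coord_eq hb, ← hS_comb]
    exact (congrFun hFF r).symm
  simp only [h2, map_add, mul_add]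
  rw [Finset.sum_add_distrib]
  refine Submodule.add_mem _ (sum_TgtC hb hDX hmid heven hG hP hfix (fun σ => ⟨0, ?_⟩) hF0) ?_
  · have h3 : ∑ y : Fin 0 → Fin s.NT, (1 : W.K) • mono (fun x => prj ops n (fun _ => P) (σ x))
        (fun x => s.e (Sum.inr (y x))) = (1 : W.H (nest ops n fun _ => P).X) := by
      rw [Fintype.sum_unique, one_smul, mono, List.ofFn_zero, List.prod_nil]
    rw [h3]
    exact CP.one
  · by_cases hn : s.NT ≤ n + 1
    · exact sum_TgtC hb hDX hmid heven hG hP hfix (fun σ => hd hn σ) hF1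
    · have h3 : F1 = 0 := by
        refine GGen_lt ?_ hF1
        refine lt_of_le_of_lt (Fintype.card_subtype_le _) ?_
        rw [Fintype.card_fin, Fintype.card_fin]
        omega
      simp only [h3, Pi.zero_apply, map_zero, mul_zero, Finset.sum_const_zero]
      exact Submodule.zero_mem _

/-- the determinant classes -/
theorem detC_CP (hmid : transcendental W P.X ≤ W.gr P.X P.X.dim) (heven : Even P.X.dim)
    (hG : IsGalois W χ P.X ρ) (hP : IsPowAct W P n Z ρ τ υ)
    (hdsc : ∀ g ∈ Δ, dsc χ hG g = 1) {n' : ℕ} (hn' : n' + 1 = s.NT)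
    (hcls : detC s (fun t => prj ops n' (fun _ => P) (Fin.cast hn'.symm t)) ∈ 𝒞.C _)
    (σ : Fin s.NT → Fin (n + 1)) :
    CP 𝒞 χ Δ υ (s.NT * (P.X.dim / 2)) (detC s fun x => prj ops n (fun _ => P) (σ x)) where
  gr := detC_gr hmid heven s _
  cls := by
    obtain ⟨f, hf⟩ := exists_liftN (ops := ops) (P := P) (Y := (nest ops n fun _ => P).X) n'
      fun p => prj ops n (fun _ => P) (σ (Fin.cast hn' p))
    have h1 : detC s (fun x => prj ops n (fun _ => P) (σ x)) =
        W.map f (detC s (fun t => prj ops n' (fun _ => P) (Fin.cast hn'.symm t))) := by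
      rw [map_detC]
      congr 1
      funext t
      rw [hf]
      rfl
    rw [h1]
    exact 𝒞.map_mem f hcls
  act g hg := by
    have h1 := detC_act hG s g (F := (υ g).toAlgHom)
      (π := fun t => fst (nest ops n fun _ => P).X Z ≫ prj ops n (fun _ => P) (σ t))
      (fun t a => by
        rw [W.map_comp, W.map_comp]
        exact (hP g).1 (σ t) a)
    rw [← map_detC] at h1
    have h2 : LinearMap.det (rhoT hG g) = (χ g : W.K) ^ (s.NT * (P.X.dim / 2)) := by
      have h3 := hdsc g hg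
      rw [dsc, Module.finrank_eq_card_basis s.uT, Fintype.card_fin] at h3
      have h4 : (((χ g : W.K) ^ (P.X.dim / 2)) ^ s.NT) ≠ 0 :=
        pow_ne_zero _ (pow_ne_zero _ (Units.ne_zero _))
      have h5 := (mul_inv_eq_one₀ h4).1 h3
      rw [h5, ← pow_mul, mul_comm]
    rw [h2] at h1
    exact h1

end pow

end Pool.Agent.T2H43.HF
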