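import Pool.Agent.T2H43.HF.PDefs
import Pool.Agent.TH125.Gal.Pub

/-!
# The top exterior power of the transcendental cohomology: definitions
-/

open CategoryTheory AlgebraicGeometry

universe u

namespace Pool.Agent.T2H43.HF

open Pool.Agent.H914 Pool.Agent.H914.VarClass Pool.Agent.H914.VarClass.Obj
  Pool.Agent.H914.WeilCohomology Pool.Agent.H281R3.HT Pool.Agent.W552 Pool.Agent.TH125.Gal
  Pool.Agent.Y132.AH

variable {k : Type u} [Field k] {𝒱 : VarClass k} {ops : CycleOps 𝒱}

/-- The alternating sum of the products of the pull-backs of the classes `x 0, …, x n` in all orders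
to the product of `n + 1` copies of `X`. -/
noncomputable def altClass (W : WeilCohomology.{u, 0} ops) (X : 𝒱.Obj) (n : ℕ)
    (x : Fin (n + 1) → W.H X) : W.H (power ops X n) :=
  ∑ σ : Equiv.Perm (Fin (n + 1)), (Equiv.Perm.sign σ : ℤ) •
    (List.ofFn fun t => W.map (powerPrj ops X n t) (x (σ t))).prod

/-- The exterior power of the transcendental cohomology of `X` of degree `n + 1`, in the cohomology
of the product of `n + 1` copies of `X`. -/
noncomputable def altSpace (W : WeilCohomology.{u, 0} ops) (X : 𝒱.Obj) (n : ℕ) :
    Submodule W.K (W.H (power ops X n)) :=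
  Submodule.span W.K {c | ∃ x : Fin (n + 1) → W.H X, (∀ t, x t ∈ transcendental W X) ∧
    c = altClass W X n x}

/-- The Hodge classes in the highest exterior power of the transcendental cohomology of `X`, which is
one-dimensional, are absolute Hodge classes. -/
def DetAbsolute {W : WeilCohomology.{u, 0} ops} (Ψ : HodgeData W) (E : Embeddings W)
    (X : 𝒱.Obj) : Prop :=
  ∀ n, n + 1 = trDim W X → ∀ j, ∀ c ∈ altSpace W X n, IsHodge Ψ (power ops X n) j c →
    IsAbsHodge Ψ E (power ops X n) j c

/-- The varieties isomorphic to a product of a variety in the class `𝒵` and powers of the `X i`; the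
exponents for the `i` outside `I` are smaller than half of the dimension of the transcendental
cohomology of `X i`, the exponents for the `i` in `I` are arbitrary. -/
def productsOff {ι : Type} [DecidableEq ι] (W : WeilCohomology.{u, 0} ops) (𝒵 : Set 𝒱.Obj)
    (X : ι → 𝒱.Obj) (I : Set ι) : Set 𝒱.Obj :=
  {Y | ∃ Z ∈ 𝒵, ∃ L : List ι, (∀ i, i ∉ I → 2 * L.count i < trDim W (X i)) ∧
    Nonempty (Y ≅ prodList X Z L)}

end Pool.Agent.T2H43.HF
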