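import Pool.Agent.T2H43.HF.HSm

/-!
# Systems of classes and full faithfulness on products
-/

open CategoryTheory AlgebraicGeometry Finset Function

set_option linter.unusedSectionVars false

universe u

namespace Pool.Agent.T2H43.HF

open Pool.Agent.H914 Pool.Agent.H914.VarClass Pool.Agent.H914.VarClass.Obj
  Pool.Agent.H914.WeilCohomology Pool.Agent.H281R3.HT Pool.Agent.W552 Pool.Agent.TH125.Gal
  Pool.Agent.Y127 Pool.Agent.Y127.G Pool.Agent.Y132.AH Pool.Agent.Y95.ZT Pool.Agent.Y132.AF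
  Pool.Agent.TH118.SG

variable {k : Type u} [Field k] {𝒱 : VarClass k} {ops : CycleOps 𝒱}
  {W : WeilCohomology.{u, 0} ops} (Ψ : HodgeData W)

theorem hodgeIn_iso {𝒞 : ClassSystem W} {A B : 𝒱.Obj} (e : A ≅ B) (h : HodgeIn Ψ 𝒞 A) :
    HodgeIn Ψ 𝒞 B := by
  intro j c hc
  have h1 := 𝒞.map_mem e.inv (h j _ (isHodge_map Ψ e.hom hc))
  rwa [← W.map_comp, e.inv_hom_id, W.map_id] at h1

section point

theorem coeff_prj (X : 𝒱.Obj) (m : ℕ) (σ : RingAut W.K) (a : W.H X) :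
    Ψ.coeff X σ (prj (W.isInternal X) m a) = prj (W.isInternal X) m (Ψ.coeff X σ a) := by
  refine int_ind (p := fun a => Ψ.coeff X σ (prj (W.isInternal X) m a) =
    prj (W.isInternal X) m (Ψ.coeff X σ a)) (W.isInternal X) a (fun j a ha => ?_) (by simp)
    fun x y hx hy => by rw [map_add, map_add, map_add, map_add, hx, hy]
  have h1 := (Ψ.isCoeffAct X).gr_mem σ j a ha
  by_cases hj : j = m
  · subst hj
    rw [prj_same _ ha, prj_same _ h1]
  · rw [prj_ne _ hj ha, prj_ne _ hj h1, map_zero]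

theorem tr_prj_top (X : 𝒱.Obj) (a : W.H X) :
    W.tr X (prj (W.isInternal X) (2 * X.dim) a) = W.tr X a := by
  refine int_ind (p := fun a => W.tr X (prj (W.isInternal X) (2 * X.dim) a) = W.tr X a)
    (W.isInternal X) a (fun j a ha => ?_) (by simp)
    fun x y hx hy => by rw [map_add, map_add, map_add, hx, hy]
  by_cases hj : j = 2 * X.dim
  · subst hj
    rw [prj_same _ ha]
  · rw [prj_ne _ hj ha, map_zero, W.tr_eq_zero ha hj]

/-- a Hodge class with nonzero trace -/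
theorem exists_hodge_pt {Z : 𝒱.Obj} (h1 : (1 : W.H Z) ≠ 0) :
    ∃ η, IsHodge Ψ Z Z.dim η ∧ W.tr Z η ≠ 0 := by
  obtain ⟨a, ha, ha0⟩ : ∃ a, (∀ σ, Ψ.coeff Z σ a = a) ∧ W.tr Z a ≠ 0 := by
    by_contra hcon
    push Not at hcon
    apply h1
    apply W.nondeg
    intro b
    have hb : b ∈ Submodule.span W.K {a | ∀ σ, Ψ.coeff Z σ a = a} := by
      have h2 := (Ψ.isCoeffAct Z).span
      rw [h2]
      exact Submodule.mem_top
    rw [one_mul]
    induction hb using Submodule.span_induction with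
    | mem b hb => exact hcon b hb
    | zero => exact map_zero _
    | add x y _ _ hx hy => rw [map_add, hx, hy, add_zero]
    | smul r x _ hx => rw [map_smul, hx, smul_zero]
  refine ⟨prj (W.isInternal Z) (2 * Z.dim) a, ⟨mem_of_prj (Ψ.isHodgeDec Z).isInternal
    fun i hi => ?_, fun σ => ?_⟩, by rw [tr_prj_top]; exact ha0⟩
  · by_contra hcon
    have h2 := type_sum Ψ (prj_mem (W.isInternal Z) (2 * Z.dim) a) hcon
    have h3 := type_le Ψ hcon
    apply hi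
    refine Prod.ext ?_ ?_
    · change i.1 = Z.dim
      omega
    · change i.2 = Z.dim
      omega
  · change Ψ.coeff Z σ _ = _
    rw [coeff_prj, ha]

/-- from a product to the first factor -/
theorem hodgeIn_drop {𝒞 : ClassSystem W} {A Z : 𝒱.Obj} (h1 : (1 : W.H Z) ≠ 0)
    (hZ : HodgeIn Ψ 𝒞 Z) (h : HodgeIn Ψ 𝒞 (A.prod Z)) : HodgeIn Ψ 𝒞 A := by
  intro j c hc
  obtain ⟨η, hη, hη0⟩ := exists_hodge_pt Ψ h1
  have h2 := h j _ (isHodge_map Ψ (fst A Z) hc)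
  have h3 : W.push (fst A Z) (W.map (snd A Z) η * W.map (fst A Z) c) ∈ 𝒞.C A :=
    𝒞.push_mem _ (𝒞.mul_mem (𝒞.map_mem _ (hZ _ _ hη)) h2)
  have h4 : W.push (fst A Z) (W.map (snd A Z) η * W.map (fst A Z) c) = W.tr Z η • c := by
    rw [← sub_eq_zero]
    apply W.nondeg
    intro b
    rw [sub_mul, map_sub, W.tr_push, mul_assoc, ← map_mul]
    have h5 : W.tr (A.prod Z) (W.map (snd A Z) η * W.map (fst A Z) (c * b)) =
        W.tr A (c * b) * W.tr Z η := by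
      have h6 : W.map (snd A Z) η * W.map (fst A Z) (c * b) =
          W.map (fst A Z) (c * b) * W.map (snd A Z) η := by
        refine int_ind (p := fun x => W.map (snd A Z) η * W.map (fst A Z) x =
          W.map (fst A Z) x * W.map (snd A Z) η) (W.isInternal A) (c * b) (fun i x hx => ?_)
          (by simp) fun x y hx hy => by rw [map_add, mul_add, add_mul, hx, hy]
        have h7 := W.comm (W.map_mem (snd A Z) (hodge_gr Ψ hη)) (W.map_mem (fst A Z) hx)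
        rw [(even_two_mul Z.dim).mul_right i |>.neg_one_pow, one_smul] at h7
        exact h7
      rw [h6, W.tr_prod]
    rw [h5, smul_mul_assoc, map_smul, smul_eq_mul]
    ring
  rw [h4] at h3
  have h5 := Submodule.smul_mem _ (W.tr Z η)⁻¹ h3
  rwa [smul_smul, inv_mul_cancel₀ hη0, one_smul] at h5

end point

variable [IsAlgClosed W.K] {ι : Type} [DecidableEq ι] {X : ι → 𝒱.Obj}

/-- **Systems of classes on products.** -/
theorem hodgeIn_tower {Z : 𝒱.Obj}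
    (F : OFam (hop W.K) (hchar W.K) (fun i => actv Ψ (X i)) (actv Ψ Z)) {𝒞 : ClassSystem W}
    (hZ : HodgeIn Ψ 𝒞 Z) (L : List ι)
    (hd : ∀ i ∈ L, trDim W (X i) ≤ L.count i → HodgeIn Ψ 𝒞 (powN (X i) (trDim W (X i) - 1))) :
    HodgeIn Ψ 𝒞 (prodList X Z L) := by
  obtain ⟨S, T, Y, hY, hS, hT, ⟨e⟩⟩ := exists_tower Ψ X Z L.length L le_rfl
  refine hodgeIn_iso Ψ e ?_
  rw [← classConj_iff]
  refine F.class ((classConj_iff Ψ 𝒞 Z).2 hZ) hY fun i hi => ?_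
  obtain ⟨hiL, hle⟩ := hT i hi
  have hpos : 0 < transRank W (X i) := (F.var i).pos
  obtain ⟨e'⟩ := iso_powN (ops := ops) (X i) (trDim W (X i) - 1)
  have h1 : HodgeIn Ψ 𝒞 (power ops (X i) (trDim W (X i) - 1)) :=
    hodgeIn_iso Ψ e'.symm (hd i hiL hle)
  refine detIn_of_class (X := actv Ψ (X i)) (F.var i) (n := trDim W (X i) - 1) ?_
    (υ := ract Ψ (power ops (X i) (trDim W (X i) - 1))) (fun p g a => hact_map Ψ _ g a)
    ((classConj_iff Ψ 𝒞 _).2 h1)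
  change transRank W (X i) - 1 + 1 = transRank W (X i)
  omega

variable (E : Embeddings W)

/-- **Absolute Hodge classes on products.** -/
theorem abs_tower {Z : 𝒱.Obj}
    (F : OFam (hop W.K) (hchar W.K) (fun i => actv Ψ (X i)) (actv Ψ Z))
    (hZ : AllAbsolute Ψ E Z) (L : List ι)
    (hd : ∀ i ∈ L, trDim W (X i) ≤ L.count i →
      AllAbsolute Ψ E (powN (X i) (trDim W (X i) - 1))) :
    AllAbsolute Ψ E (prodList X Z L) := by
  rw [← hodgeIn_abs]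
  exact hodgeIn_tower Ψ F ((hodgeIn_abs Ψ E Z).2 hZ) L fun i hi h =>
    (hodgeIn_abs Ψ E _).2 (hd i hi h)

theorem abs_pow {Z : 𝒱.Obj} (h1 : (1 : W.H Z) ≠ 0) (hZ : AllAbsolute Ψ E Z) {i : ι} {n : ℕ}
    (h : AllAbsolute Ψ E (prodList X Z (List.replicate (n + 1) i))) :
    AllAbsolute Ψ E (powN (X i) n) := by
  obtain ⟨e⟩ := iso_replicate (ops := ops) X Z i [] n
  obtain ⟨e'⟩ := iso_powN (ops := ops) (X i) n
  rw [List.append_nil] at e
  refine abs_iso Ψ E e' ?_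
  rw [← hodgeIn_abs]
  refine hodgeIn_drop Ψ h1 ((hodgeIn_abs Ψ E Z).2 hZ) ?_
  rw [hodgeIn_abs]
  exact abs_iso Ψ E e h

variable {𝒵 : Set 𝒱.Obj}

theorem full_half (h𝒵 : ∀ Z ∈ 𝒵, ∀ Z' ∈ 𝒵, Z.prod Z' ∈ 𝒵)
    (hF : ∀ Z ∈ 𝒵, Nonempty (OFam (hop W.K) (hchar W.K) (fun i => actv Ψ (X i)) (actv Ψ Z)))
    (hpos : ∀ i, 0 < trDim W (X i)) :
    FullyFaithfulOn Ψ E (halfProducts W 𝒵 X) ↔ FullyFaithfulOn Ψ E 𝒵 := by
  constructor
  · intro h A hA B hB
    exact h A ⟨_, hA, [], fun i => by simpa using hpos i, ⟨Iso.refl _⟩⟩ B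
      ⟨_, hB, [], fun i => by simpa using hpos i, ⟨Iso.refl _⟩⟩
  · intro h
    rintro A ⟨Z, hZ, L, hL, ⟨e⟩⟩ B ⟨Z', hZ', L', hL', ⟨e'⟩⟩ m n p q hp hq f
    refine ⟨fun hf => motivic_of_hodge ?_ hf, hodge_of_motivic hp hq⟩
    obtain ⟨e''⟩ := iso_append X Z Z' L L'
    refine abs_iso Ψ E (prodIso e e' ≪≫ e'').symm ?_
    obtain ⟨F⟩ := hF _ (h𝒵 Z hZ Z' hZ')
    refine abs_tower Ψ E F (abs_of_full Ψ E h (h𝒵 Z hZ Z' hZ')) _ fun i _ hle => ?_
    have h1 := hL i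
    have h2 := hL' i
    rw [List.count_append] at hle
    omega

theorem full_all (h𝒵 : ∀ Z ∈ 𝒵, ∀ Z' ∈ 𝒵, Z.prod Z' ∈ 𝒵) (hne : ∃ Z ∈ 𝒵, (1 : W.H Z) ≠ 0)
    (hF : ∀ Z ∈ 𝒵, Nonempty (OFam (hop W.K) (hchar W.K) (fun i => actv Ψ (X i)) (actv Ψ Z)))
    (hpos : ∀ i, 0 < trDim W (X i)) :
    FullyFaithfulOn Ψ E (productsWith 𝒵 X) ↔ FullyFaithfulOn Ψ E 𝒵 ∧
      ∀ i, AllAbsolute Ψ E (powN (X i) (trDim W (X i) - 1)) := by
  constructor
  · intro h
    have h0 : FullyFaithfulOn Ψ E 𝒵 := fun A hA B hB =>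
      h A ⟨_, hA, [], ⟨Iso.refl _⟩⟩ B ⟨_, hB, [], ⟨Iso.refl _⟩⟩
    refine ⟨h0, fun i => ?_⟩
    obtain ⟨Z, hZ, h1⟩ := hne
    have h2 := hpos i
    exact abs_pow Ψ E h1 (abs_of_full Ψ E h0 hZ) (abs_of_full Ψ E h
      ⟨Z, hZ, List.replicate (trDim W (X i) - 1 + 1) i, ⟨Iso.refl _⟩⟩)
  · rintro ⟨h, h'⟩
    refine full_of_abs Ψ E h𝒵 fun Z hZ L => ?_
    obtain ⟨F⟩ := hF Z hZ
    exact abs_tower Ψ E F (abs_of_full Ψ E h hZ) L fun i _ _ => h' i

/-- **All Hodge classes on products with small exponents.** -/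
theorem abs_small {Z : 𝒱.Obj}
    (hF : Nonempty (OFam (hop W.K) (hchar W.K) (fun i => actv Ψ (X i)) (actv Ψ Z)))
    (hZ : AllAbsolute Ψ E Z) (L : List ι) (hL : ∀ i, L.count i < trDim W (X i)) :
    AllAbsolute Ψ E (prodList X Z L) := by
  obtain ⟨F⟩ := hF
  exact abs_tower Ψ E F hZ L fun i _ hle => absurd (hL i) (not_lt.2 hle)

end Pool.Agent.T2H43.HF
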