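import Pool.Agent.T2H43.HF.HBig
import Pool.Agent.T2H43.HF.Main

/-!
# Varieties whose cohomology is generated in small degrees
-/

open CategoryTheory AlgebraicGeometry Finset Function

set_option linter.unusedSectionVars false

universe u

namespace Pool.Agent.T2H43.HF

open Pool.Agent.H914 Pool.Agent.H914.VarClass Pool.Agent.H914.VarClass.Obj
  Pool.Agent.H914.WeilCohomology Pool.Agent.H281R3.HT Pool.Agent.W552 Pool.Agent.TH125.Gal
  Pool.Agent.Y127 Pool.Agent.Y127.G Pool.Agent.Y132.AH Pool.Agent.Y95.ZT Pool.Agent.Y132.AF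
  Pool.Agent.TH118.SG

section Alg

variable {K : Type} [Field K] {A : Type} [Ring A] [Algebra K A] {gr : ℕ → Submodule K A} {n : ℕ}
  {tr : A →ₗ[K] K} {C : ℕ → Set A}

theorem gapDim_eq_zero (Ψ : HodgeAlg gr n tr C) (U : Submodule K A) {m c : ℕ} (h : m < c) :
    gapDim Ψ U m c = 0 := by
  rw [gapDim]
  refine Finset.sum_eq_zero fun a ha => Finset.sum_eq_zero fun b _ => if_neg ?_
  rw [Finset.mem_range] at ha
  omega

theorem skewDim_lv (Ψ : HodgeAlg gr n tr C) {T : Submodule K A} {p q h : ℕ} (hn : n = 2 * h + 2)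
    (hd : ∀ a b, a + b = n → typeDim Ψ T a b = lvDim p q h a) :
    skewDim Ψ T n 2 = (p * p - p) / 2 := by
  subst hn
  have h1 : ∀ a ∈ Finset.range (2 * h + 2 + 1), typeDim Ψ T a (2 * h + 2 - a) = lvDim p q h a :=
    fun a ha => by
      rw [Finset.mem_range] at ha
      exact hd a _ (by omega)
  have e1 : lvDim p q h (h + 2) = p := by simp [lvDim]
  have h2 : (∑ a ∈ Finset.range (2 * h + 2 + 1), ∑ b ∈ Finset.range (2 * h + 2 + 1),
      if a + b = 2 * h + 2 + 2 then typeDim Ψ T a (2 * h + 2 - a) *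
        typeDim Ψ T b (2 * h + 2 - b) else 0) = p * p := by
    rw [Finset.sum_eq_single (h + 2)]
    · rw [Finset.sum_eq_single (h + 2)]
      · rw [if_pos (by omega), h1 _ (by rw [Finset.mem_range]; omega), e1]
      · intro b _ hb
        rw [if_neg (by omega)]
      · intro hb
        rw [Finset.mem_range] at hb
        omega
    · intro a ha hne
      refine Finset.sum_eq_zero fun b hb => ?_
      split_ifs with hab
      · rw [h1 _ ha, h1 _ hb, lvDim, lvDim]
        rw [Finset.mem_range] at ha hb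
        by_cases ha1 : a = h ∨ a = h + 1
        · rw [if_neg (c := b = h ∨ b = h + 2) (by omega), if_neg (c := b = h + 1) (by omega),
            mul_zero]
        · rw [if_neg (c := a = h ∨ a = h + 2) (by omega), if_neg (c := a = h + 1) (by omega),
            zero_mul]
      · rfl
    · intro hb
      rw [Finset.mem_range] at hb
      omega
  have h3 : (∑ a ∈ Finset.range (2 * h + 2 + 1),
      if 2 * a = 2 * h + 2 + 2 then typeDim Ψ T a (2 * h + 2 - a) else 0) = p := by
    rw [Finset.sum_eq_single (h + 2)]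
    · rw [if_pos (by omega), h1 _ (by rw [Finset.mem_range]; omega), e1]
    · intro b _ hb
      rw [if_neg (by omega)]
    · intro hb
      rw [Finset.mem_range] at hb
      omega
  rw [skewDim, h2, h3]

end Alg

variable {k : Type u} [Field k] {𝒱 : VarClass k} {ops : CycleOps 𝒱}
  {W : WeilCohomology.{u, 0} ops} (Ψ : HodgeData W)

theorem smallBase_deg {X Z : 𝒱.Obj} {c : ℕ} {S : Set ℕ} (hS : ∀ m ∈ S, m < c)
    (hc : 0 < skewDim (Ψ.on X) (transcendental W X) X.dim c) (hZ : GeneratedIn W Z S) :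
    SmallBase Ψ X Z := by
  refine ⟨{U | ∃ m ∈ S, U = W.gr Z m}, ⟨?_, ?_⟩, ?_⟩
  · rintro U ⟨m, -, rfl⟩ g x hx
    rw [← conj_eq]
    exact (galoisType Ψ Z).gr_mem _ _ _ hx
  · have h1 : (⋃ U ∈ {U | ∃ m ∈ S, U = W.gr Z m}, (U : Set (W.H Z))) =
        ⋃ m ∈ S, (W.gr Z m : Set (W.H Z)) := by
      ext x
      simp only [Set.mem_iUnion, Set.mem_ofPred_eq]
      constructor
      · rintro ⟨U, ⟨m, hm, rfl⟩, hx⟩
        exact ⟨m, hm, hx⟩
      · rintro ⟨m, hm, hx⟩
        exact ⟨_, ⟨m, hm, rfl⟩, hx⟩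
    rw [h1]
    exact hZ
  · rintro U ⟨m, hm, rfl⟩
    refine Or.inl ⟨m, c, le_rfl, ?_⟩
    rw [gapDim_eq_zero _ _ (hS m hm)]
    exact hc

theorem smallBase_one {X Z : 𝒱.Obj} {p q : ℕ} (hp : 2 ≤ p)
    (hX : LevelTwo (Ψ.on X) (transcendental W X) p q) (hZ : GeneratedIn W Z {1}) :
    SmallBase Ψ X Z := by
  obtain ⟨h, hn, hd⟩ := hX.types
  refine smallBase_deg Ψ (c := 2) (fun m hm => ?_) ?_ hZ
  · rw [Set.mem_singleton_iff] at hm
    omega
  · rw [skewDim_lv (Ψ.on X) hn hd]
    have h1 : 2 * p ≤ p * p := Nat.mul_le_mul_right p hp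
    omega

end Pool.Agent.T2H43.HF
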