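import Pool.Agent.T2H43.HF.Main
import Pool.Agent.T2H43.HF.DDefs

/-!
# The determinant classes
-/

open CategoryTheory AlgebraicGeometry Finset Function

set_option linter.unusedSectionVars false

universe u

namespace Pool.Agent.T2H43.HF

open Pool.Agent.H914 Pool.Agent.H914.VarClass Pool.Agent.H914.VarClass.Obj
  Pool.Agent.H914.WeilCohomology Pool.Agent.H281R3.HT Pool.Agent.W552 Pool.Agent.TH125.Gal
  Pool.Agent.Y127 Pool.Agent.Y127.G Pool.Agent.Y132.AH Pool.Agent.Y95.ZT Pool.Agent.Y132.AF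
  Pool.Agent.TH118.SG

theorem dt_eq {K : Type} [Field K] {N : ℕ} (y : Fin N → Fin N) :
    dt K y = ∑ σ : Equiv.Perm (Fin N), if y = ⇑σ then (((Equiv.Perm.sign σ : ℤ)) : K) else 0 := by
  classical
  rw [dt, Matrix.det_apply']
  rw [← Equiv.sum_comp (Equiv.inv (Equiv.Perm (Fin N)))]
  refine Finset.sum_congr rfl fun σ _ => ?_
  have h1 : (Equiv.inv (Equiv.Perm (Fin N))) σ = σ⁻¹ := rfl
  rw [h1, Equiv.Perm.sign_inv]
  split_ifs with h
  · subst h
    have h2 : ∀ i, (Matrix.of fun a b : Fin N => if σ a = b then (1 : K) else 0) (σ⁻¹ i) i = 1 :=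
      fun i => by simp
    rw [Finset.prod_congr rfl fun i _ => h2 i, Finset.prod_const_one, mul_one]
  · obtain ⟨i, hi⟩ : ∃ i, y i ≠ σ i := by
      by_contra hcon
      push Not at hcon
      exact h (funext hcon)
    rw [Finset.prod_eq_zero (Finset.mem_univ (σ i)), mul_zero]
    rw [Matrix.of_apply]
    refine if_neg ?_
    have h2 : σ⁻¹ (σ i) = i := Equiv.symm_apply_apply σ i
    rw [h2]
    exact hi

variable {k : Type u} [Field k] {𝒱 : VarClass k} {ops : CycleOps 𝒱}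
  {W : WeilCohomology.{u, 0} ops} (Ψ : HodgeData W)

theorem sum_dt {Y X : 𝒱.Obj} {N : ℕ} (π : Fin N → (Y ⟶ X)) (e : Fin N → W.H X) :
    ∑ y : Fin N → Fin N, dt W.K y • mono π (fun t => e (y t)) =
      ∑ σ : Equiv.Perm (Fin N), (Equiv.Perm.sign σ : ℤ) • mono π (fun t => e (σ t)) := by
  classical
  simp only [dt_eq, Finset.sum_smul]
  rw [Finset.sum_comm]
  refine Finset.sum_congr rfl fun σ _ => ?_
  rw [Finset.sum_eq_single (⇑σ)]
  · rw [if_pos rfl, Int.cast_smul_eq_zsmul]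
  · intro y _ hy
    rw [if_neg hy, zero_smul]
  · intro h
    exact absurd (Finset.mem_univ _) h

theorem sum_cast {X : 𝒱.Obj} {N n : ℕ} (hn : n + 1 = N) (e : Fin N → W.H X) :
    ∑ σ : Equiv.Perm (Fin N), (Equiv.Perm.sign σ : ℤ) •
      mono (fun t => powerPrj ops X n (Fin.cast hn.symm t)) (fun t => e (σ t)) =
      altClass W X n fun t => e (Fin.cast hn t) := by
  subst hn
  rfl

theorem detC_alt {X : 𝒱.Obj} (s : SB W X) {n : ℕ} (hn : n + 1 = s.NT) :
    detC s (fun t => powerPrj ops X n (Fin.cast hn.symm t)) ∈ altSpace W X n := by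
  rw [detC, sum_dt _ fun t => s.e (Sum.inr t), sum_cast hn fun t => s.e (Sum.inr t)]
  refine Submodule.subset_span ⟨_, fun t => ?_, rfl⟩
  rw [s.e_inr]
  exact (s.bT _).2

theorem coeff_trans {X : 𝒱.Obj} (σ : RingAut W.K) {x : W.H X} (hx : x ∈ transcendental W X) :
    Ψ.coeff X σ x ∈ transcendental W X := by
  simp only [transcendental, orthCompl, Submodule.mem_iInf] at hx ⊢
  intro c hc
  have h1 := hx c hc
  rw [LinearMap.mem_ker] at h1 ⊢
  obtain ⟨j, hj⟩ := Set.mem_iUnion.1 hc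
  have h2 := (Ψ.isCoeffAct X).cl_act σ j c hj
  have h3 : (W.tr X ∘ₗ LinearMap.mulRight W.K c) (Ψ.coeff X σ x) = W.tr X (Ψ.coeff X σ x * c) := rfl
  have h4 : W.tr X (x * c) = 0 := h1
  have h5 := (Ψ.isCoeffAct X).tr_act σ (x * c)
  rw [h4, map_zero, map_mul, h2] at h5
  rw [h3]
  exact h5

theorem coeff_alt {X : 𝒱.Obj} {n : ℕ} (σ : RingAut W.K) {c : W.H (power ops X n)}
    (hc : c ∈ altSpace W X n) : Ψ.coeff (power ops X n) σ c ∈ altSpace W X n := by
  unfold altSpace at hc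
  induction hc using Submodule.span_induction with
  | mem c hc =>
    obtain ⟨x, hx, rfl⟩ := hc
    refine Submodule.subset_span ⟨fun t => Ψ.coeff X σ (x t), fun t => coeff_trans Ψ σ (hx t), ?_⟩
    rw [altClass, altClass, map_sum]
    refine Finset.sum_congr rfl fun p _ => ?_
    rw [map_zsmul, map_list_prod, List.map_ofFn]
    congr 3
    funext t
    exact (Ψ.map (powerPrj ops X n t)).coeff σ _
  | zero =>
    rw [map_zero]
    exact Submodule.zero_mem _
  | add x y _ _ hx hy =>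
    rw [map_add]
    exact Submodule.add_mem _ hx hy
  | smul r x _ hx =>
    have h1 := (Ψ.isCoeffAct (power ops X n)).smul σ r x
    change Ψ.coeff (power ops X n) σ (r • x) = _ at h1
    rw [h1]
    exact Submodule.smul_mem _ _ hx

/-- The invariants in a rational subspace are spanned by the Hodge classes in it. -/
theorem mem_span_hodge_sub [IsAlgClosed W.K] {X : 𝒱.Obj} {V : Submodule W.K (W.H X)}
    (hV : ∀ σ, ∀ a ∈ V, Ψ.coeff X σ a ∈ V) {j : ℕ} {c : W.H X} (hcV : c ∈ V)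
    (hcg : c ∈ W.gr X (2 * j))
    {Δ : Subgroup (FreeGroup (RingAut W.K × W.Kˣ))} (hΔ : Δ.FiniteIndex)
    (hc : ∀ g ∈ Δ, ract Ψ X g c = ((hchar W.K g : W.Kˣ) : W.K) ^ j • c) :
    c ∈ Submodule.span W.K {c | c ∈ V ∧ IsHodge Ψ X j c} := by
  have hγ := Ψ.isCoeffAct X
  let U : Submodule W.K (W.H X) :=
    { carrier := {a | a ∈ W.gr X (2 * j) ∧ ∀ g : RingAut W.K × W.Kˣ,
        ctor (Ψ.isHodgeDec X) (Ψ.isCoeffAct X) g a = g.1 (g.2 : W.K) ^ j • a}
      zero_mem' := ⟨Submodule.zero_mem _, fun g => by rw [map_zero, smul_zero]⟩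
      add_mem' := fun ha hb => ⟨Submodule.add_mem _ ha.1 hb.1, fun g => by
        rw [map_add, ha.2, hb.2, smul_add]⟩
      smul_mem' := fun r a ha => ⟨Submodule.smul_mem _ _ ha.1, fun g => by
        rw [map_smul, ha.2, smul_comm]⟩ }
  have hcU : c ∈ U := ⟨hcg, fun g => ctor_of_index Ψ hΔ hc g.1 g.2⟩
  have h1 := span_fixed_of_stable (γ := fun σ a => Ψ.coeff X σ a) (fun σ a b => map_add _ a b)
    hγ.smul hγ.span (U := U ⊓ V) (fun τ a ha' => ?_) (Submodule.mem_inf.2 ⟨hcU, hcV⟩)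
  · refine Submodule.span_mono ?_ h1
    rintro a ⟨⟨⟨hag, haU⟩, haV⟩, hfix⟩
    refine ⟨haV, mem_of_prj (Ψ.isHodgeDec X).isInternal fun i hi => ?_, hfix⟩
    by_contra hcon
    have h2 := haU (1, Units.mk0 2 two_ne_zero)
    rw [ctor_apply] at h2
    have h3 : tor (Ψ.isHodgeDec X) 2 a = (2 : W.K) ^ j • a := by simpa using h2
    have h4 := tor_eigen (Ψ.isHodgeDec X) h3 hcon
    have h5 : j = i.1 := by
      by_contra h6
      exact two_pow_ne h6 h4
    have h6 := type_sum Ψ hag hcon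
    exact hi (Prod.ext h5.symm (by change i.2 = j; omega))
  · obtain ⟨ha, haV⟩ := Submodule.mem_inf.1 ha'
    refine Submodule.mem_inf.2 ⟨⟨hγ.gr_mem τ _ a ha.1, fun g => ?_⟩, hV τ a haV⟩
    obtain ⟨σ, z⟩ := g
    have h2 := ha.2 (τ⁻¹ * σ, z)
    rw [ctor_apply] at h2 ⊢
    have h3 : Ψ.coeff X σ⁻¹ (Ψ.coeff X τ a) = Ψ.coeff X (τ⁻¹ * σ)⁻¹ a := by
      rw [← RingAut.mul_apply, ← map_mul, mul_inv_rev, inv_inv]
    have h4 : ∀ x, Ψ.coeff X σ x = Ψ.coeff X τ (Ψ.coeff X (τ⁻¹ * σ) x) := fun x => by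
      rw [← RingAut.mul_apply, ← map_mul, mul_inv_cancel_left]
    change Ψ.coeff X σ (tor (Ψ.isHodgeDec X) (z : W.K) (Ψ.coeff X σ⁻¹ (Ψ.coeff X τ a))) = _
    rw [h3, h4]
    rw [h2, hγ.smul, map_pow]
    have h5 : τ ((τ⁻¹ * σ) (z : W.K)) = σ (z : W.K) := by
      rw [← RingAut.mul_apply, mul_inv_cancel_left]
    rw [h5]

variable [IsAlgClosed W.K]

/-- **The determinant classes**, from the Hodge classes in the top exterior power. -/
theorem detIn_of_alt {X : 𝒱.Obj} (hX : OVar (hchar W.K) (actv Ψ X)) {𝒞 : ClassSystem W}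
    (h : ∀ n, n + 1 = trDim W X → ∀ j, ∀ c ∈ altSpace W X n, IsHodge Ψ (power ops X n) j c →
      c ∈ 𝒞.C (power ops X n)) : DetIn 𝒞 X := by
  intro s m hm
  have hNT : s.NT = transRank W X := by
    unfold transRank
    rw [Module.finrank_eq_card_basis s.uT, Fintype.card_fin]
  have hG := isGalois hX.galois
  obtain ⟨R, hR⟩ := exists_inv_gram (s := (1 : W.K))
    (B := rform W X (transcendental W X))
    (fun x y => by
      rw [one_mul, rform_apply, rform_apply, trans_symm hX.middle x.2 y.2, hX.even.neg_one_pow,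
        one_mul]) (trans_nondeg hX.homEqNum) s.uT
  obtain ⟨-, Δ, hΔ, hdsc⟩ := dsc_pot (P := (⟨X, 0⟩ : Polarized 𝒱)) (s := s) hG hX.even hR
  have h0 := mem_span_hodge_sub Ψ (V := altSpace W X m) (fun σ a ha => coeff_alt Ψ σ ha)
    (detC_alt s hm) (detC_gr hX.middle hX.even s _) hΔ fun g hg => ?_
  · refine Submodule.span_le.2 ?_ h0
    rintro c ⟨hcV, hc⟩
    exact h m (hm.trans hNT) _ c hcV hc
  · have h1 := detC_act hG s g (F := (ract Ψ (power ops X m) g).toAlgHom)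
      (π := fun t => powerPrj ops X m (Fin.cast hm.symm t))
      (fun t a => hact_map Ψ _ g a)
    have h2 : LinearMap.det (rhoT hG g) = (hchar W.K g : W.K) ^ (s.NT * (X.dim / 2)) := by
      have h3 := hdsc g hg
      rw [dsc, Module.finrank_eq_card_basis s.uT, Fintype.card_fin] at h3
      have h4 : (((hchar W.K g : W.K) ^ (X.dim / 2)) ^ s.NT) ≠ 0 :=
        pow_ne_zero _ (pow_ne_zero _ (Units.ne_zero _))
      have h5 := (mul_inv_eq_one₀ h4).1 h3
      rw [h5, ← pow_mul, mul_comm]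
    rw [h2] at h1
    exact h1

end Pool.Agent.T2H43.HF
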