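import Pool.Agent.T2H43.HF.Cls
import Pool.Agent.Y127.G.Twr

/-!
# Systems of classes on towers
-/

open CategoryTheory AlgebraicGeometry Finset Function

set_option linter.unusedSectionVars false

universe u

namespace Pool.Agent.T2H43.HF

open Pool.Agent.H914 Pool.Agent.H914.VarClass Pool.Agent.H914.VarClass.Obj
  Pool.Agent.H914.WeilCohomology Pool.Agent.H281R3.HT Pool.Agent.W552 Pool.Agent.TH125.Gal
  Pool.Agent.Y127 Pool.Agent.Y127.G Pool.Agent.Y132.AH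

variable {k : Type u} [Field k] {𝒱 : VarClass k} {ops : CycleOps 𝒱}
  {W : WeilCohomology.{u, 0} ops} {Γ : Type} [Group Γ] {χ : Γ →* W.Kˣ}

/-- The classes of a power `Y` of `X` are invariant under the Lie algebra of the form. -/
def InvStep (χ : Γ →* W.Kˣ) (X Y : GVar W Γ) : Prop :=
  ∀ {n : ℕ} {υ : Γ →* (W.H ((power ops X.X n).prod Y.X) ≃ₐ[W.K] W.H ((power ops X.X n).prod Y.X))},
    IsPowAct W (⟨X.X, 0⟩ : Polarized 𝒱) n Y.X X.act Y.act υ →
    ∀ {s : SB W X.X} {b : Module.Basis (Fin (n + 1) → Fin s.NC ⊕ Fin s.NT) W.K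
      (W.H (nest ops n fun _ => (⟨X.X, 0⟩ : Polarized 𝒱)).X)},
    (∀ r, b r = mono (prj ops n fun _ => (⟨X.X, 0⟩ : Polarized 𝒱)) fun p => s.e (r p)) →
    ∀ {z : W.H ((power ops X.X n).prod Y.X)} {j : ℕ} {Δ : Subgroup Γ}, Δ.FiniteIndex →
    (∀ g ∈ Δ, υ g z = (χ g : W.K) ^ j • z) → ∀ c₀ : Fin (n + 1) → Option (Fin s.NC),
    TH125.Nod.Inv (fun _ : Fin s.NT => ()) (gram (P := (⟨X.X, 0⟩ : Polarized 𝒱)) s)
      (fun _ => 1) (fun r : Free c₀ → Fin s.NT =>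
        hS (P := (⟨X.X, 0⟩ : Polarized 𝒱)) s b z c₀ fun l => s.uT (r l))

/-- A variety of orthogonal type. -/
structure OVar (χ : Γ →* W.Kˣ) (X : GVar W Γ) : Prop where
  galois : GaloisType χ X
  homEqNum : HomEqNum W X.X
  even : Even X.X.dim
  middle : transcendental W X.X ≤ W.gr X.X X.X.dim
  pos : 0 < Module.finrank W.K (transcendental W X.X)

/-- The determinant classes of `X` belong to the system. -/
def DetIn (𝒞 : ClassSystem W) (X : 𝒱.Obj) : Prop :=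
  ∀ (s : SB W X) (n : ℕ) (hn : n + 1 = s.NT),
    detC s (fun t => powerPrj ops X n (Fin.cast hn.symm t)) ∈ 𝒞.C (power ops X n)

/-- **The step.** -/
theorem class_step {X Y Y' : GVar W Γ} (hX : OVar χ X) (hI : InvStep χ X Y)
    {𝒞 : ClassSystem W} {n : ℕ} (hP : IsPowProd X n Y Y') (hY : ClassConj χ 𝒞 Y)
    (hd : transRank W X.X ≤ n + 1 → DetIn 𝒞 X.X) : ClassConj χ 𝒞 Y' := by
  obtain ⟨υ, h1, h2⟩ := hP
  intro j c hcj ⟨Δ, hΔ, hc⟩
  obtain ⟨s, o, R, -, hR⟩ := exists_adapted_SB (P := (⟨X.X, 0⟩ : Polarized 𝒱)) hX.homEqNum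
    hX.middle hX.even hX.pos
  obtain ⟨b, hb⟩ := exists_monoBasis (ops := ops) (⟨X.X, 0⟩ : Polarized 𝒱) s.e n
  have hG := isGalois hX.galois
  obtain ⟨Δ₁, hΔ₁, hfix⟩ := exists_fix hG s
  obtain ⟨-, Δ₂, hΔ₂, hdsc⟩ := dsc_pot (P := (⟨X.X, 0⟩ : Polarized 𝒱)) hG hX.even hR
  have hfi : (Δ ⊓ (Δ₁ ⊓ Δ₂)).FiniteIndex := inferInstance
  have hpow := isPowAct h1 h2
  have hc' : ∀ g ∈ Δ ⊓ (Δ₁ ⊓ Δ₂), υ g c = (χ g : W.K) ^ j • c := fun g hg => hc g hg.1
  have hfix' : ∀ g ∈ Δ ⊓ (Δ₁ ⊓ Δ₂), ∀ i, X.act g (s.bC i) =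
      (χ g : W.K) ^ s.jC i • (s.bC i : W.H X.X) := fun g hg => hfix g hg.2.1
  have hmem : c ∈ TgtC 𝒞 χ (Δ ⊓ (Δ₁ ⊓ Δ₂)) υ := by
    refine mem_TgtC (P := (⟨X.X, 0⟩ : Polarized 𝒱)) hb hX.homEqNum hX.middle hX.even hG hpow hfix'
      hR (fun c₀ => hI hpow hb hfi hc' c₀) fun hn σ => ?_
    have hNT : s.NT = transRank W X.X := by
      unfold transRank
      rw [Module.finrank_eq_card_basis s.uT, Fintype.card_fin]
    have hpos : 0 < s.NT := by
      rw [hNT]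
      exact hX.pos
    refine ⟨_, detC_CP (P := (⟨X.X, 0⟩ : Polarized 𝒱)) (Δ := Δ ⊓ (Δ₁ ⊓ Δ₂)) hX.middle hX.even hG
      hpow (fun g hg => hdsc g hg.2.2) (n' := s.NT - 1) (by omega) ?_ σ⟩
    exact hd (hNT ▸ hn) s (s.NT - 1) (by omega)
  exact step_of_TgtC (fun g x => (hpow g).2 x) hcj hc' hmem fun j' x hx hxa =>
    hY j' x hx ⟨_, hfi, hxa⟩

section tower

variable {ι : Type} {X : ι → GVar W Γ} {Z : GVar W Γ} {S L : Set ι} {Y : GVar W Γ}

/-- **Systems of classes on towers.** -/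
theorem class_tower {𝒞 : ClassSystem W} (hX : ∀ i, OVar χ (X i))
    (hI : ∀ {S L : Set ι} {Y : GVar W Γ}, LTower X Z S L Y → ∀ i, i ∉ S → InvStep χ (X i) Y)
    (hZ : ClassConj χ 𝒞 Z) (hY : LTower X Z S L Y) :
    (∀ i ∈ L, DetIn 𝒞 (X i).X) → ClassConj χ 𝒞 Y := by
  induction hY with
  | base => exact fun _ => hZ
  | @small S L Y Y' i n hT hi hn hP ih =>
    intro hd
    exact class_step (hX i) (hI hT i hi) hP (ih hd) fun h =>
      absurd (hn (hX i).even) (not_lt.2 h)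
  | @large S L Y Y' i n hT hi hP ih =>
    intro hd
    exact class_step (hX i) (hI hT i hi) hP (ih fun a ha => hd a (Set.mem_insert_of_mem _ ha))
      fun _ => hd i (Set.mem_insert _ _)

/-- The determinant classes of the members of the tower. -/
theorem detIn_of_class {X : GVar W Γ} (hX : OVar χ X) {𝒞 : ClassSystem W} {n : ℕ}
    (hn : n + 1 = transRank W X.X)
    {υ : Γ →* (W.H (power ops X.X n) ≃ₐ[W.K] W.H (power ops X.X n))}
    (hυ : ∀ p, Intertwines (W.map (powerPrj ops X.X n p)) X.act υ)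
    (hc : ClassConj χ 𝒞 ⟨power ops X.X n, υ⟩) : DetIn 𝒞 X.X := by
  intro s m hm
  have hNT : s.NT = transRank W X.X := by
    unfold transRank
    rw [Module.finrank_eq_card_basis s.uT, Fintype.card_fin]
  obtain rfl : m = n := by omega
  have hG := isGalois hX.galois
  obtain ⟨R, hR⟩ := exists_inv_gram (s := (1 : W.K))
    (B := rform W X.X (transcendental W X.X))
    (fun x y => by
      rw [one_mul, rform_apply, rform_apply, trans_symm hX.middle x.2 y.2, hX.even.neg_one_pow,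
        one_mul]) (trans_nondeg hX.homEqNum) s.uT
  obtain ⟨-, Δ, hΔ, hdsc⟩ := dsc_pot (P := (⟨X.X, 0⟩ : Polarized 𝒱)) (s := s) hG hX.even hR
  refine hc (s.NT * (X.X.dim / 2)) _ (detC_gr hX.middle hX.even s _) ⟨Δ, hΔ, fun g hg => ?_⟩
  have h1 := detC_act hG s g (F := (υ g).toAlgHom)
    (π := fun t => powerPrj ops X.X m (Fin.cast hm.symm t))
    (fun t a => hυ _ g a)
  have h2 : LinearMap.det (rhoT hG g) = (χ g : W.K) ^ (s.NT * (X.X.dim / 2)) := by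
    have h3 := hdsc g hg
    rw [dsc, Module.finrank_eq_card_basis s.uT, Fintype.card_fin] at h3
    have h4 : (((χ g : W.K) ^ (X.X.dim / 2)) ^ s.NT) ≠ 0 :=
      pow_ne_zero _ (pow_ne_zero _ (Units.ne_zero _))
    have h5 := (mul_inv_eq_one₀ h4).1 h3
    rw [h5, ← pow_mul, mul_comm]
  rw [h2] at h1
  exact h1

end tower

end Pool.Agent.T2H43.HF
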