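import Pool.Agent.T2H43.HF.Rep
import Pool.Agent.T2H43.HF.Twr
import Pool.Agent.Y95.ZT.Twr

/-!
# Families of varieties of orthogonal type
-/

open CategoryTheory AlgebraicGeometry Finset Function

set_option linter.unusedSectionVars false

universe u

namespace Pool.Agent.T2H43.HF

open Pool.Agent.H914 Pool.Agent.H914.VarClass Pool.Agent.H914.VarClass.Obj
  Pool.Agent.H914.WeilCohomology Pool.Agent.H281R3.HT Pool.Agent.W552 Pool.Agent.TH125.Gal
  Pool.Agent.Y127 Pool.Agent.Y127.G Pool.Agent.Y132.AH Pool.Agent.Y95.ZT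

variable {k : Type u} [Field k] {𝒱 : VarClass k} {ops : CycleOps 𝒱}
  {W : WeilCohomology.{u, 0} ops} {Γ : Type} [Group Γ] {D : WeightOp W.K Γ} {χ : Γ →* W.Kˣ}
  {ι : Type} {X : ι → GVar W Γ} {Z : GVar W Γ} {S L : Set ι} {Y : GVar W Γ}

/-- A family of varieties of orthogonal type over a base. -/
structure OFam (D : WeightOp W.K Γ) (χ : Γ →* W.Kˣ) (X : ι → GVar W Γ) (Z : GVar W Γ) where
  var : ∀ i, OVar χ (X i)
  rep : ∀ i, ORep D (trRep (var i).galois)
  repB : ∀ i, (rep i).B = rform W (X i).X (transcendental W (X i).X)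
  apart : ∀ i j, i ≠ j → Apart D (trRep (var i).galois) (trRep (var j).galois) (rep i).B (rep j).B
  small : ∀ i, ∃ (m : ℕ) (M : Fin m → FRep W.K Γ) (f : ∀ a, (M a).V →ₗ[W.K] W.H Z.X),
    (∀ a, SmallO D (M a) (trRep (var i).galois) (rep i).B) ∧
    (∀ a g x, f a ((M a).ρ g x) = Z.act g (f a x)) ∧
    Algebra.adjoin W.K (⋃ a, Set.range (f a)) = ⊤

variable [IsAlgClosed W.K]

/-- **The Lie algebra kills the coordinates.** -/
theorem OFam.inv_step (hX : OFam D χ X Z) (hY : LTower X Z S L Y) {i : ι} (hi : i ∉ S) :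
    InvStep χ (X i) Y := by
  intro n υ hP s b hb z j Δ hΔ hz c₀
  obtain ⟨m, M, f, hM, hf, hgen⟩ := hX.small i
  have hgal := fun i => (hX.var i).galois
  have hgb := genBy_tower hgal (fun i => (hX.var i).homEqNum) hf hgen hY
  have hG : IsGalois W χ (X i).X (X i).act := isGalois (hgal i)
  have h1 := hS_eqv (P := (⟨(X i).X, 0⟩ : Polarized 𝒱)) hb hG hP hΔ hz c₀
  have h2 := fun x y => kill_gen (A := W.H Y.X) (T := fun j => trRep (hgal j)) (M := M)
    (χ := χ) (τ := Y.act) (LTower.finite hY) hgb (Dw := D)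
    hX.rep hX.apart hi (fun a => hM a) (lamb (P := (⟨(X i).X, 0⟩ : Polarized 𝒱)) χ s c₀ j)
    (h := hS (P := (⟨(X i).X, 0⟩ : Polarized 𝒱)) s b z c₀) h1 x y
  rw [hX.repB i] at h2
  exact inv_of_kill (s := (1 : W.K)) (B := rform W (X i).X (transcendental W (X i).X))
    (fun u w => h2 u w) s.uT

/-- **Systems of classes on towers over a family of orthogonal type.** -/
theorem OFam.class (hX : OFam D χ X Z) {𝒞 : ClassSystem W} (hZ : ClassConj χ 𝒞 Z)
    (hY : LTower X Z S L Y) (hd : ∀ i ∈ L, DetIn 𝒞 (X i).X) : ClassConj χ 𝒞 Y :=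
  class_tower hX.var (fun hT _ hi => hX.inv_step hT hi) hZ hY hd

end Pool.Agent.T2H43.HF
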