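import Pool.Agent.T2H43.HF.Det
import Pool.Agent.T2H43.HF.Deg1

/-!
# Full faithfulness and the determinant classes
-/

open CategoryTheory AlgebraicGeometry Finset Function

set_option linter.unusedSectionVars false

universe u

namespace Pool.Agent.T2H43.HF

open Pool.Agent.H914 Pool.Agent.H914.VarClass Pool.Agent.H914.VarClass.Obj
  Pool.Agent.H914.WeilCohomology Pool.Agent.H281R3.HT Pool.Agent.W552 Pool.Agent.TH125.Gal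
  Pool.Agent.Y127 Pool.Agent.Y127.G Pool.Agent.Y132.AH Pool.Agent.Y95.ZT Pool.Agent.Y132.AF
  Pool.Agent.TH118.SG

variable {k : Type u} [Field k] {𝒱 : VarClass k} {ops : CycleOps 𝒱}
  {W : WeilCohomology.{u, 0} ops} (Ψ : HodgeData W)

variable [IsAlgClosed W.K] {ι : Type} [DecidableEq ι] {X : ι → 𝒱.Obj}

/-- **Systems of classes on products.** -/
theorem hodgeIn_tower_det {Z : 𝒱.Obj}
    (F : OFam (hop W.K) (hchar W.K) (fun i => actv Ψ (X i)) (actv Ψ Z)) {𝒞 : ClassSystem W}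
    (hZ : HodgeIn Ψ 𝒞 Z) (L : List ι)
    (hd : ∀ i ∈ L, trDim W (X i) ≤ L.count i → ∀ n, n + 1 = trDim W (X i) → ∀ j,
      ∀ c ∈ altSpace W (X i) n, IsHodge Ψ (power ops (X i) n) j c →
      c ∈ 𝒞.C (power ops (X i) n)) :
    HodgeIn Ψ 𝒞 (prodList X Z L) := by
  obtain ⟨S, T, Y, hY, hS, hT, ⟨e⟩⟩ := exists_tower Ψ X Z L.length L le_rfl
  refine hodgeIn_iso Ψ e ?_
  rw [← classConj_iff]
  refine F.class ((classConj_iff Ψ 𝒞 Z).2 hZ) hY fun i hi => ?_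
  obtain ⟨hiL, hle⟩ := hT i hi
  exact detIn_of_alt Ψ (F.var i) (hd i hiL hle)

variable (E : Embeddings W)

/-- **Absolute Hodge classes on products.** -/
theorem abs_tower_det {Z : 𝒱.Obj}
    (hF : Nonempty (OFam (hop W.K) (hchar W.K) (fun i => actv Ψ (X i)) (actv Ψ Z)))
    (hZ : AllAbsolute Ψ E Z) (L : List ι)
    (hd : ∀ i ∈ L, trDim W (X i) ≤ L.count i → DetAbsolute Ψ E (X i)) :
    AllAbsolute Ψ E (prodList X Z L) := by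
  obtain ⟨F⟩ := hF
  rw [← hodgeIn_abs]
  exact hodgeIn_tower_det Ψ F ((hodgeIn_abs Ψ E Z).2 hZ) L fun i hi h n hn j c hc hcH =>
    Submodule.subset_span ⟨j, hd i hi h n hn j c hc hcH⟩

theorem det_of_all {i : ι} (hpos : 0 < trDim W (X i))
    (h : AllAbsolute Ψ E (powN (X i) (trDim W (X i) - 1))) : DetAbsolute Ψ E (X i) := by
  intro n hn j c _ hc
  obtain rfl : n = trDim W (X i) - 1 := by omega
  obtain ⟨e'⟩ := iso_powN (ops := ops) (X i) (trDim W (X i) - 1)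
  exact abs_iso Ψ E e'.symm h j c hc

variable {𝒵 : Set 𝒱.Obj}

theorem full_off (h𝒵 : ∀ Z ∈ 𝒵, ∀ Z' ∈ 𝒵, Z.prod Z' ∈ 𝒵)
    (hne : ∃ Z ∈ 𝒵, (1 : W.H Z) ≠ 0)
    (hF : ∀ Z ∈ 𝒵, Nonempty (OFam (hop W.K) (hchar W.K) (fun i => actv Ψ (X i)) (actv Ψ Z)))
    (hpos : ∀ i, 0 < trDim W (X i)) (I : Set ι) :
    FullyFaithfulOn Ψ E (productsOff W 𝒵 X I) ↔ FullyFaithfulOn Ψ E 𝒵 ∧
      ∀ i ∈ I, DetAbsolute Ψ E (X i) := by
  constructor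
  · intro h
    have h0 : FullyFaithfulOn Ψ E 𝒵 := fun A hA B hB =>
      h A ⟨_, hA, [], fun i _ => by simpa using hpos i, ⟨Iso.refl _⟩⟩ B
        ⟨_, hB, [], fun i _ => by simpa using hpos i, ⟨Iso.refl _⟩⟩
    refine ⟨h0, fun i hi => ?_⟩
    obtain ⟨Z, hZ, h1⟩ := hne
    have h2 := hpos i
    refine det_of_all Ψ E h2 (abs_pow Ψ E h1 (abs_of_full Ψ E h0 hZ) (abs_of_full Ψ E h
      ⟨Z, hZ, List.replicate (trDim W (X i) - 1 + 1) i, fun j hj => ?_, ⟨Iso.refl _⟩⟩))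
    have hne : i ≠ j := by
      rintro rfl
      exact hj hi
    rw [List.count_replicate, if_neg (by simpa using hne), mul_zero]
    exact hpos j
  · rintro ⟨h, h'⟩
    rintro A ⟨Z, hZ, L, hL, ⟨e⟩⟩ B ⟨Z', hZ', L', hL', ⟨e'⟩⟩ m n p q hp hq f
    refine ⟨fun hf => motivic_of_hodge ?_ hf, hodge_of_motivic hp hq⟩
    obtain ⟨e''⟩ := iso_append X Z Z' L L'
    refine abs_iso Ψ E (prodIso e e' ≪≫ e'').symm ?_
    refine abs_tower_det Ψ E (hF _ (h𝒵 Z hZ Z' hZ')) (abs_of_full Ψ E h (h𝒵 Z hZ Z' hZ')) _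
      fun i _ hle => ?_
    by_cases hi : i ∈ I
    · exact h' i hi
    · have h1 := hL i hi
      have h2 := hL' i hi
      rw [List.count_append] at hle
      omega

/-- **The theorem for families of orthogonal type.** -/
theorem full_main (h𝒵 : ∀ Z ∈ 𝒵, ∀ Z' ∈ 𝒵, Z.prod Z' ∈ 𝒵) (hne : ∃ Z ∈ 𝒵, (1 : W.H Z) ≠ 0)
    (hF : ∀ Z ∈ 𝒵, Nonempty (OFam (hop W.K) (hchar W.K) (fun i => actv Ψ (X i)) (actv Ψ Z)))
    (hpos : ∀ i, 0 < trDim W (X i)) :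
    (∀ Z ∈ 𝒵, AllAbsolute Ψ E Z → ∀ L : List ι,
      (∀ i, trDim W (X i) ≤ L.count i → DetAbsolute Ψ E (X i)) →
      AllAbsolute Ψ E (prodList X Z L)) ∧
    ∀ I : Set ι, FullyFaithfulOn Ψ E (productsOff W 𝒵 X I) ↔ FullyFaithfulOn Ψ E 𝒵 ∧
      ∀ i ∈ I, DetAbsolute Ψ E (X i) :=
  ⟨fun Z hZ h L hd => abs_tower_det Ψ E (hF Z hZ) h L fun i _ hi => hd i hi,
    full_off Ψ E h𝒵 hne hF hpos⟩

/-- **Level two.** -/
theorem full_lv (e : W.K ≃+* ℂ) (h𝒵 : ∀ Z ∈ 𝒵, ∀ Z' ∈ 𝒵, Z.prod Z' ∈ 𝒵)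
    (hne : ∃ Z ∈ 𝒵, (1 : W.H Z) ≠ 0) {p q : ι → ℕ} (hX : LevelTwoFamily Ψ p q X)
    (hsm : ∀ Z ∈ 𝒵, ∀ i, SmallBase Ψ (X i) Z ∨ (2 ≤ p i ∧ GeneratedIn W Z {1})) :
    (∀ Z ∈ 𝒵, AllAbsolute Ψ E Z → ∀ L : List ι,
      (∀ i, trDim W (X i) ≤ L.count i → DetAbsolute Ψ E (X i)) →
      AllAbsolute Ψ E (prodList X Z L)) ∧
    ∀ I : Set ι, FullyFaithfulOn Ψ E (productsOff W 𝒵 X I) ↔ FullyFaithfulOn Ψ E 𝒵 ∧
      ∀ i ∈ I, DetAbsolute Ψ E (X i) := by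
  refine full_main Ψ E h𝒵 hne (fun Z hZ => exists_oFam_lv Ψ e hX fun i => ?_) fun i => ?_
  · rcases hsm Z hZ i with h | h
    · exact h
    · exact smallBase_one Ψ h.1 (hX.lv i) h.2
  · have h1 := (lvType Ψ (hX.middle i) (hX.lv i)).pos
    exact lt_of_lt_of_le (by norm_num) h1

/-- **Orthogonal type.** -/
theorem full_orth (h𝒵 : ∀ Z ∈ 𝒵, ∀ Z' ∈ 𝒵, Z.prod Z' ∈ 𝒵)
    (hne : ∃ Z ∈ 𝒵, (1 : W.H Z) ≠ 0) (hX : OrthogonalFamily Ψ X)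
    (hsm : ∀ Z ∈ 𝒵, ∀ i, SmallBase Ψ (X i) Z ∨ ∃ (c : ℕ) (S : Set ℕ), (∀ m ∈ S, m < c) ∧
      GeneratedIn W Z S ∧ 0 < skewDim (Ψ.on (X i)) (transcendental W (X i)) (X i).dim c) :
    (∀ Z ∈ 𝒵, AllAbsolute Ψ E Z → ∀ L : List ι,
      (∀ i, trDim W (X i) ≤ L.count i → DetAbsolute Ψ E (X i)) →
      AllAbsolute Ψ E (prodList X Z L)) ∧
    ∀ I : Set ι, FullyFaithfulOn Ψ E (productsOff W 𝒵 X I) ↔ FullyFaithfulOn Ψ E 𝒵 ∧
      ∀ i ∈ I, DetAbsolute Ψ E (X i) := by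
  refine full_main Ψ E h𝒵 hne (fun Z hZ => exists_oFam_big hX fun i => ?_) fun i => ?_
  · rcases hsm Z hZ i with h | ⟨c, S, hS, hZS, hc⟩
    · exact h
    · exact smallBase_deg Ψ hS hc hZS
  · have h1 := (hX.big i).dim.1
    exact lt_of_lt_of_le (by norm_num) h1

end Pool.Agent.T2H43.HF
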