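import Pool.Agent.T2H43.HF.HBigP

/-!
# Full faithfulness: the theorems
-/

open CategoryTheory AlgebraicGeometry Finset Function

set_option linter.unusedSectionVars false

universe u

namespace Pool.Agent.T2H43.HF

open Pool.Agent.H914 Pool.Agent.H914.VarClass Pool.Agent.H914.VarClass.Obj
  Pool.Agent.H914.WeilCohomology Pool.Agent.H281R3.HT Pool.Agent.W552 Pool.Agent.TH125.Gal
  Pool.Agent.Y127 Pool.Agent.Y127.G Pool.Agent.Y132.AH Pool.Agent.Y95.ZT Pool.Agent.Y132.AF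
  Pool.Agent.TH118.SG

variable {k : Type u} [Field k] {𝒱 : VarClass k} {ops : CycleOps 𝒱}
  {W : WeilCohomology.{u, 0} ops} (Ψ : HodgeData W) [IsAlgClosed W.K] {ι : Type} [DecidableEq ι]
  {X : ι → 𝒱.Obj} (E : Embeddings W) {𝒵 : Set 𝒱.Obj}

theorem one_ne_of {Z : 𝒱.Obj} (h : Nontrivial (W.H Z)) : (1 : W.H Z) ≠ 0 := by
  intro h0
  obtain ⟨x, y, hxy⟩ := h
  apply hxy
  rw [← one_mul x, ← one_mul y, h0, zero_mul, zero_mul]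

/-- **The theorem for families of orthogonal type.** -/
theorem main_P (h𝒵 : ∀ Z ∈ 𝒵, ∀ Z' ∈ 𝒵, Z.prod Z' ∈ 𝒵) (hne' : ∃ Z ∈ 𝒵, Nontrivial (W.H Z))
    (hF : ∀ Z ∈ 𝒵, Nonempty (OFam (hop W.K) (hchar W.K) (fun i => actv Ψ (X i)) (actv Ψ Z)))
    (hpos : ∀ i, 0 < trDim W (X i)) :
    (∀ Z ∈ 𝒵, AllAbsolute Ψ E Z → ∀ L : List ι,
      (∀ i, P.dimT W (X i) ≤ L.count i → P.DetAbsolute Ψ E (X i)) →
      AllAbsolute Ψ E (prodList X Z L)) ∧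
    ∀ I : Set ι, FullyFaithfulOn Ψ E (P.productsOff W 𝒵 X I) ↔ FullyFaithfulOn Ψ E 𝒵 ∧
      ∀ i ∈ I, P.DetAbsolute Ψ E (X i) := by
  have hne : ∃ Z ∈ 𝒵, (1 : W.H Z) ≠ 0 := hne'.imp fun _ h => ⟨h.1, one_ne_of h.2⟩
  obtain ⟨h1, h2⟩ := full_main Ψ E h𝒵 hne hF hpos
  refine ⟨fun Z hZ h L hd => h1 Z hZ h L fun i hi => detAbs_of Ψ E (hd i hi), fun I => ?_⟩
  constructor
  · intro h
    have h0 : FullyFaithfulOn Ψ E 𝒵 := ((h2 I).1 h).1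
    refine ⟨h0, fun i hi => ?_⟩
    obtain ⟨Z, hZ, h1⟩ := hne
    have h3 := hpos i
    refine detAbs_mk Ψ E h3 (abs_pow Ψ E h1 (abs_of_full Ψ E h0 hZ) (abs_of_full Ψ E h
      ⟨Z, hZ, List.replicate (trDim W (X i) - 1 + 1) i, fun j hj => ?_, ⟨Iso.refl _⟩⟩))
    have hne : i ≠ j := by
      rintro rfl
      exact hj hi
    rw [List.count_replicate, if_neg (by simpa using hne), mul_zero]
    exact hpos j
  · rintro ⟨h, h'⟩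
    exact (h2 I).2 ⟨h, fun i hi => detAbs_of Ψ E (h' i hi)⟩

/-- **Level two.** -/
theorem lv_P (e : W.K ≃+* ℂ) (h𝒵 : ∀ Z ∈ 𝒵, ∀ Z' ∈ 𝒵, Z.prod Z' ∈ 𝒵)
    (hne' : ∃ Z ∈ 𝒵, Nontrivial (W.H Z)) {p q : ι → ℕ} (hX : P.LevelTwoFamily Ψ p q X)
    (hsm : ∀ Z ∈ 𝒵, ∀ i, P.SmallBase Ψ (X i) Z ∨ (2 ≤ p i ∧ GeneratedIn W Z {1})) :
    (∀ Z ∈ 𝒵, AllAbsolute Ψ E Z → ∀ L : List ι,
      (∀ i, P.dimT W (X i) ≤ L.count i → P.DetAbsolute Ψ E (X i)) →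
      AllAbsolute Ψ E (prodList X Z L)) ∧
    ∀ I : Set ι, FullyFaithfulOn Ψ E (P.productsOff W 𝒵 X I) ↔ FullyFaithfulOn Ψ E 𝒵 ∧
      ∀ i ∈ I, P.DetAbsolute Ψ E (X i) := by
  have hX' := lvFamily_of hX
  refine main_P Ψ E h𝒵 hne' (fun Z hZ => exists_oFam_lv Ψ e hX' fun i => ?_) fun i => ?_
  · rcases hsm Z hZ i with h | h
    · exact smallBase_of h
    · exact smallBase_one Ψ h.1 (hX'.lv i) h.2
  · have h1 := (lvType Ψ (hX'.middle i) (hX'.lv i)).pos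
    exact lt_of_lt_of_le (by norm_num) h1

/-- **Orthogonal type.** -/
theorem orth_P (h𝒵 : ∀ Z ∈ 𝒵, ∀ Z' ∈ 𝒵, Z.prod Z' ∈ 𝒵)
    (hne' : ∃ Z ∈ 𝒵, Nontrivial (W.H Z)) (hX : P.OrthogonalFamily Ψ X)
    (hsm : ∀ Z ∈ 𝒵, ∀ i, P.SmallBase Ψ (X i) Z ∨ P.LowBase Ψ (X i) Z) :
    (∀ Z ∈ 𝒵, AllAbsolute Ψ E Z → ∀ L : List ι,
      (∀ i, P.dimT W (X i) ≤ L.count i → P.DetAbsolute Ψ E (X i)) →
      AllAbsolute Ψ E (prodList X Z L)) ∧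
    ∀ I : Set ι, FullyFaithfulOn Ψ E (P.productsOff W 𝒵 X I) ↔ FullyFaithfulOn Ψ E 𝒵 ∧
      ∀ i ∈ I, P.DetAbsolute Ψ E (X i) := by
  refine main_P Ψ E h𝒵 hne' (fun Z hZ => exists_oFam_bigP hX fun i => ?_) fun i => ?_
  · rcases hsm Z hZ i with h | ⟨c, S, hS, hZS, hc⟩
    · exact smallBase_of h
    · exact smallBase_deg Ψ hS hc hZS
  · have h1 := (hX.big i).2.1.1
    exact lt_of_lt_of_le (by norm_num) h1

end Pool.Agent.T2H43.HF
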