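import Pool.Agent.T2H43.HF.PubA

/-!
# Motives of varieties with big Mumford-Tate group: definitions
-/

open CategoryTheory AlgebraicGeometry

universe u

namespace Pool.Agent.T2H43.HF.P

section Rel

variable (K : Type) [Field K] {E : Type} [AddCommMonoid E] [Module K E] {E' : Type}
  [AddCommMonoid E'] [Module K E'] {G : Type}

/-- Every subspace of the space of the vectors with the property `S` which is stable under the
relations `C g` is zero or contains all vectors with the property `S`. -/
def IrrOn (S : E → Prop) (C : G → E → E → Prop) : Prop :=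
  ∀ U : Submodule K E, (∀ N ∈ U, S N) → (∀ g N M, C g N M → N ∈ U → M ∈ U) →
    U = ⊥ ∨ ∀ N, S N → N ∈ U

/-- Some linear map is an isomorphism of the spaces of the vectors with the properties `S` and `S'`
and compatible with the relations `C g`, `C' g`. -/
def IsoOn (S : E → Prop) (C : G → E → E → Prop) (S' : E' → Prop) (C' : G → E' → E' → Prop) : Prop :=
  ∃ Φ : E →ₗ[K] E', (∀ N, S N → S' (Φ N) ∧ (Φ N = 0 → N = 0)) ∧ (∀ N', S' N' → ∃ N, S N ∧ Φ N = N') ∧
    ∀ g N M, S N → C g N M → C' g (Φ N) (Φ M)

end Rel

section Alg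

variable {K : Type} [Field K] {A : Type} [Ring A] [Algebra K A] {B : Type} [Ring B] [Algebra K B]
  {G : Type}

/-- The operator `N` on the subspace `T` is skew with respect to the form `tr (x * y)`. -/
def SkewOn (tr : A →ₗ[K] K) (T : Submodule K A) (N : T →ₗ[K] T) : Prop :=
  ∀ x y : T, tr ((N x : A) * y) + tr (x * (N y : A)) = 0

/-- `M` is the conjugate of the operator `N` on `T` by the operator `R g`. -/
def ConjOn (R : G → A → A) (T : Submodule K A) (g : G) (N M : T →ₗ[K] T) : Prop :=
  ∀ t t' : T, (t' : A) = R g t → (M t' : A) = R g (N t)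

/-- The spaces of the skew operators on `T` and `T'` are isomorphic, compatible with the conjugation
by the operators `R g`, `R' g`. -/
def SameSkew (tr : A →ₗ[K] K) (T : Submodule K A) (R : G → A → A) (tr' : B →ₗ[K] K)
    (T' : Submodule K B) (R' : G → B → B) : Prop :=
  IsoOn K (SkewOn tr T) (ConjOn R T) (SkewOn tr' T') (ConjOn R' T')

/-- The operators `R g` act irreducibly on the skew operators on `T`, which has dimension `3` or at
least `5` and nonzero elements in `H (a, b)` and `H (a', b')` for some `a ≠ a'`. -/
def BigOn (tr : A →ₗ[K] K) (T : Submodule K A) (R : G → A → A)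
    (H : ℕ × ℕ → Submodule K A) : Prop :=
  IrrOn K (SkewOn tr T) (ConjOn R T) ∧ (3 ≤ Module.finrank K T ∧ Module.finrank K T ≠ 4) ∧
    ∃ a b a' b', (∃ x ∈ T, x ∈ H (a, b) ∧ x ≠ 0) ∧ (∃ x ∈ T, x ∈ H (a', b') ∧ x ≠ 0) ∧ a ≠ a'

end Alg

open Pool.Agent.H914 Pool.Agent.H914.VarClass Pool.Agent.H914.VarClass.Obj
  Pool.Agent.H914.WeilCohomology Pool.Agent.Y132.AH

variable {k : Type u} [Field k] {𝒱 : VarClass k} {ops : CycleOps 𝒱}
  {W : WeilCohomology.{u, 0} ops}

/-- The transcendental cohomology of the even-dimensional variety `X i` is in the middle degree,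
homological and numerical equivalence coincide on `X i`, and the Mumford-Tate group acts irreducibly
on the skew operators on the transcendental cohomology, for all `i`; for different `i` and `j` these
representations are not isomorphic, or the transcendental cohomology of `X j` does not have dimension
`8` and is not isomorphic to that of `X i` up to scalars. -/
structure OrthogonalFamily (Ψ : HodgeData W) {ι : Type} (X : ι → 𝒱.Obj) : Prop where
  homEqNum : ∀ i, HomEqNum W (X i)
  middle : ∀ i, EvenMiddle (W.gr (X i)) (X i).dim (transcendental W (X i))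
  big : ∀ i, BigOn (W.tr (X i)) (transcendental W (X i)) (conjTorus (Ψ.on (X i)))
    (Ψ.on (X i)).hodge
  notIso : ∀ i j, i ≠ j → ¬SameSkew (W.tr (X i)) (transcendental W (X i))
      (conjTorus (Ψ.on (X i))) (W.tr (X j)) (transcendental W (X j)) (conjTorus (Ψ.on (X j))) ∨
    (dimT W (X j) ≠ 8 ∧ ¬SameUpTo (conjTorus (Ψ.on (X i))) (transcendental W (X i))
      (conjTorus (Ψ.on (X j))) (transcendental W (X j)))

/-- For some `c` the cohomology of `Z` is generated in degrees smaller than `c`, and there is a
nonzero skew operator of type `(c, -c)` on the transcendental cohomology of `X`. -/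
def LowBase (Ψ : HodgeData W) (X Z : 𝒱.Obj) : Prop :=
  ∃ (c : ℕ) (S : Set ℕ), (∀ m ∈ S, m < c) ∧ GeneratedIn W Z S ∧
    0 < skewNum (fun a => typeDim (Ψ.on X).hodge (transcendental W X) a (X.dim - a)) X.dim c

end Pool.Agent.T2H43.HF.P
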