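import Pool.Agent.T2H43.HF.PubG
import Pool.Agent.T2H43.HF.PubO

/-!
# Families with big Mumford-Tate groups and Galois groups: definitions
-/

open CategoryTheory AlgebraicGeometry

universe u

namespace Pool.Agent.T2H43.HF.P

section Alg

variable {K : Type} [Field K] {A : Type} [Ring A] [Algebra K A] {Γ : Type} [Group Γ]

/-- `T` has nonzero elements in `H (a, b)` and `H (a', b')` for some `a ≠ a'`. -/
def TwoTypes (H : ℕ × ℕ → Submodule K A) (T : Submodule K A) : Prop :=
  ∃ a b a' b', (∃ x ∈ T, x ∈ H (a, b) ∧ x ≠ 0) ∧ (∃ x ∈ T, x ∈ H (a', b') ∧ x ≠ 0) ∧ a ≠ a'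

/-- The dimension of `T`. -/
noncomputable def dimOf (T : Submodule K A) : ℕ := Module.finrank K T

/-- The operators `R g` act irreducibly on the skew operators on `T`. -/
def AdIrr {G : Type} (tr : A →ₗ[K] K) (R : G → A → A) (T : Submodule K A) : Prop :=
  IrrOn K (SkewOn tr T) (ConjOn R T)

/-- `T` has at least two weights. -/
def TwoWeights (D : WeightOps K Γ) (R : Γ → A → A) (T : Submodule K A) : Prop :=
  ∃ s, WeightsOn D R T s ∧ ∃ a ∈ s, ∃ b ∈ s, a ≠ b

end Alg

open Pool.Agent.H914 Pool.Agent.H914.VarClass Pool.Agent.H914.VarClass.Obj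
  Pool.Agent.H914.WeilCohomology Pool.Agent.Y132.AH

variable {k : Type u} [Field k] {𝒱 : VarClass k} {ops : CycleOps 𝒱}
  {W : WeilCohomology.{u, 0} ops} {Γ : Type} [Group Γ]

/-- The operators of the Mumford-Tate group on the cohomology of `X`. -/
noncomputable def hodgeOp (Ψ : HodgeData W) (X : 𝒱.Obj) : RingAut W.K × W.Kˣ → W.H X → W.H X :=
  conjTorus (Ψ.on X)

/-- The varieties `X i` are even-dimensional, homological and numerical equivalence coincide on them,
the transcendental cohomology is in the middle degree and has dimension `3` or at least `5`. -/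
structure EvenFamily (W : WeilCohomology.{u, 0} ops) {ι : Type} (X : ι → 𝒱.Obj) : Prop where
  homEqNum : ∀ i, HomEqNum W (X i)
  middle : ∀ i, EvenMiddle (W.gr (X i)) (X i).dim (transcendental W (X i))
  dim : ∀ i, 3 ≤ dimOf (transcendental W (X i)) ∧ dimOf (transcendental W (X i)) ≠ 4

section R

variable {G : Type} (R : ∀ X : 𝒱.Obj, G → W.H X → W.H X)

/-- The spaces of the skew operators on the transcendental cohomologies of `X` and `Y` are
isomorphic, compatible with the operators. -/
def SameSkewBy (X Y : 𝒱.Obj) : Prop :=
  SameSkew (W.tr X) (transcendental W X) (R X) (W.tr Y) (transcendental W Y) (R Y)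

/-- The transcendental cohomologies of `X` and `Y` are isomorphic, compatible with the operators up
to scalars. -/
def SameBy (X Y : 𝒱.Obj) : Prop :=
  SameUpTo (R X) (transcendental W X) (R Y) (transcendental W Y)

/-- For all `i` the operators act irreducibly on the skew operators on the transcendental cohomology
of `X i`; for different `i` and `j` these representations on the skew operators are not isomorphic,
or the transcendental cohomology of `X j` does not have dimension `8` and is not isomorphic to that
of `X i` up to scalars. -/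
structure BigFor {ι : Type} (X : ι → 𝒱.Obj) : Prop where
  irreducible : ∀ i, AdIrr (W.tr (X i)) (R (X i)) (transcendental W (X i))
  notIso : ∀ i j, i ≠ j → ¬SameSkewBy R (X i) (X j) ∨
    (dimOf (transcendental W (X j)) ≠ 8 ∧ ¬SameBy R (X i) (X j))

end R

/-- The transcendental cohomology of every `X i` has at least two Hodge types and at least two
weights. -/
structure TwoFor (Ψ : HodgeData W) (D : WeightOps W.K Γ) (G : GaloisData W Γ) {ι : Type}
    (X : ι → 𝒱.Obj) : Prop where
  types : ∀ i, TwoTypes (Ψ.on (X i)).hodge (transcendental W (X i))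
  weights : ∀ i, TwoWeights D (galOp G (X i)) (transcendental W (X i))

end Pool.Agent.T2H43.HF.P
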