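import Pool.Agent.T2H43.HF.GLv
import Pool.Agent.T2H43.HF.PubGO

/-!
# Families of Galois representations with big image
-/

open CategoryTheory AlgebraicGeometry Finset Function

set_option linter.unusedSectionVars false

universe u

namespace Pool.Agent.T2H43.HF

open Pool.Agent.H914 Pool.Agent.H914.VarClass Pool.Agent.H914.VarClass.Obj
  Pool.Agent.H914.WeilCohomology Pool.Agent.H281R3.HT Pool.Agent.W552 Pool.Agent.TH125.Gal
  Pool.Agent.Y127 Pool.Agent.Y127.G Pool.Agent.Y132.AH Pool.Agent.Y95.ZT Pool.Agent.Y132.AF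
  Pool.Agent.TH118.SG

variable {k : Type u} [Field k] {𝒱 : VarClass k} {ops : CycleOps 𝒱}
  {W : WeilCohomology.{u, 0} ops} {Γ : Type} [Group Γ] {D : P.WeightOps W.K Γ}
  (G : GaloisData W Γ)

/-- an operator on the transcendental cohomology -/
def oprG {X : 𝒱.Obj} (N : transcendental W X →ₗ[W.K] transcendental W X) :
    Module.End W.K (trRep (galType G X)).V := N

/-- conjugates of operators -/
theorem conjOnG_iff {X : 𝒱.Obj} (g : Γ)
    (N N' : transcendental W X →ₗ[W.K] transcendental W X) :
    P.ConjOn (P.galOp G X) (transcendental W X) g N N' ↔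
      oprG G N' = (trRep (galType G X)).ρ g * oprG G N * (trRep (galType G X)).ρ g⁻¹ := by
  constructor
  · intro h
    apply LinearMap.ext
    intro t''
    let t' : transcendental W X := t''
    change oprG G N' t' = _
    apply Subtype.ext
    set t : transcendental W X := (trRep (galType G X)).ρ g⁻¹ t' with ht
    have h1 : (t' : W.H X) = P.galOp G X g t := by
      have h2 : (trRep (galType G X)).ρ g t = t' := by
        rw [ht]
        exact FRep.inv_right (trRep (galType G X)) g t'
      exact (congrArg Subtype.val h2).symm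
    exact h t t' h1
  · intro h t t' ht
    have h2 : (trRep (galType G X)).ρ g t = t' := Subtype.ext ht.symm
    have h3 : (trRep (galType G X)).ρ g⁻¹ t' = t := by
      rw [← h2]
      exact FRep.inv_left (trRep (galType G X)) g t
    have h4 := LinearMap.congr_fun h t'
    have h5 : ((trRep (galType G X)).ρ g * oprG G N * (trRep (galType G X)).ρ g⁻¹ :
          Module.End W.K (trRep (galType G X)).V) t' =
        (trRep (galType G X)).ρ g (oprG G N t) :=
      congrArg (fun s => (trRep (galType G X)).ρ g (oprG G N s)) h3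
    exact congrArg Subtype.val (h4.trans h5)

variable {G}

/-- **Irreducible adjoint representation.** -/
theorem irrG {X : 𝒱.Obj} (h : P.IrrOn W.K (P.SkewOn (W.tr X) (transcendental W X))
      (P.ConjOn (P.galOp G X) (transcendental W X)))
    (L : Submodule W.K (Module.End W.K (trRep (galType G X)).V))
    (hsk : ∀ A ∈ L, Skew (rform W X (transcendental W X)) A)
    (hconj : ∀ g : Γ, ∀ A ∈ L, ((trRep (galType G X)).ρ g * A *
      (trRep (galType G X)).ρ g⁻¹ : Module.End W.K (trRep (galType G X)).V) ∈ L) :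
    L = ⊥ ∨ ∀ A : Module.End W.K (trRep (galType G X)).V,
      Skew (rform W X (transcendental W X)) A → A ∈ L := by
  refine h L hsk fun g N N' hN hNL => ?_
  have h2 := (conjOnG_iff G g N N').1 hN
  have h3 : oprG G N' ∈ L := by
    rw [h2]
    exact hconj g (oprG G N) hNL
  exact h3

/-- The weight operator is not a scalar. -/
theorem not_scalarG {X : 𝒱.Obj} (h : ∃ s, P.WeightsOn D (P.galOp G X) (transcendental W X) s ∧
      ∃ a ∈ s, ∃ b ∈ s, a ≠ b) (c : W.K) :
    (toWP D).Θ (trRep (galType G X)) ≠
      c • (1 : Module.End W.K (trRep (galType G X)).V) := by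
  obtain ⟨s, hs, a, ha, b, hb, hab⟩ := h
  obtain ⟨κ, hκ, v, w, hv, rfl⟩ := trWeights_of hs
  obtain ⟨i, -, rfl⟩ := Multiset.mem_map.1 ha
  obtain ⟨j, -, rfl⟩ := Multiset.mem_map.1 hb
  intro hc
  have h1 := eig_scalar hc (hv i) (v.ne_zero i)
  have h2 := eig_scalar hc (hv j) (v.ne_zero j)
  rw [← h2] at h1
  exact hab (Int.cast_injective h1)

variable [IsAlgClosed W.K]

/-- The orthogonal representation. -/
noncomputable def repG {X : 𝒱.Obj} (hn : HomEqNum W X) (he : Even X.dim)
    (hmid : transcendental W X ≤ W.gr X X.dim)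
    (hdim : 3 ≤ Module.finrank W.K (transcendental W X) ∧
      Module.finrank W.K (transcendental W X) ≠ 4)
    (h : P.IrrOn W.K (P.SkewOn (W.tr X) (transcendental W X))
      (P.ConjOn (P.galOp G X) (transcendental W X)))
    (hw : ∃ s, P.WeightsOn D (P.galOp G X) (transcendental W X) s ∧
      ∃ a ∈ s, ∃ b ∈ s, a ≠ b) :
    ORep (toWP D) (trRep (galType G X)) :=
  orep_of_irr (rform W X (transcendental W X)) (G.χ ^ X.dim)
    (fun g x y => tr_eqv (galType G X) g x y)
    (fun x y => tr_sy (X := G.var X) hmid he x y) (trans_nondeg hn)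
    (si_of_irr (toWP D) (M := trRep (galType G X)) (B := rform W X (transcendental W X))
      (μ := G.χ ^ X.dim)
      (fun g x y => tr_eqv (galType G X) g x y)
      (fun x y => tr_sy (X := G.var X) hmid he x y) (trans_nondeg hn) hdim.1 (irrG h)
      (not_scalarG hw))
    (by
      have h1 := hdim.1
      have h2 := hdim.2
      change Module.finrank W.K (transcendental W X) = 3 ∨
        5 ≤ Module.finrank W.K (transcendental W X)
      omega)
    (irrG h) (not_scalarG hw)

theorem not_adIG {X Y : 𝒱.Obj} (h : ¬P.SameSkew (W.tr X) (transcendental W X)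
      (P.galOp G X) (W.tr Y) (transcendental W Y) (P.galOp G Y)) :
    ¬AdI (M := trRep (galType G Y)) (M' := trRep (galType G X))
      (rform W Y (transcendental W Y)) (rform W X (transcendental W X)) := by
  rintro ⟨Φ, h1, h2, h3, h4⟩
  refine h ⟨Φ, fun N hN => ⟨h1 N hN, h2 N hN⟩, h3, fun g N M hN hNM => ?_⟩
  have h5 := (conjOnG_iff G g N M).1 hNM
  refine (conjOnG_iff G g _ _).2 ?_
  exact (congrArg Φ h5).trans (h4 g (oprG G N) hN)

theorem exists_oFam_gbig {ι : Type} {X : ι → 𝒱.Obj} {Z : 𝒱.Obj}
    (hn : ∀ i, HomEqNum W (X i)) (he : ∀ i, Even (X i).dim)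
    (hmid : ∀ i, transcendental W (X i) ≤ W.gr (X i) (X i).dim)
    (hdim : ∀ i, 3 ≤ Module.finrank W.K (transcendental W (X i)) ∧
      Module.finrank W.K (transcendental W (X i)) ≠ 4)
    (hX : P.BigFor (P.galOp G) X)
    (hw : ∀ i, P.TwoWeights D (P.galOp G (X i)) (transcendental W (X i))) (hZ : ∀ i, P.SmallGal D G (X i) Z) :
    Nonempty (OFam (toWP D) G.χ (fun i => G.var (X i)) (G.var Z)) := by
  have hpos : ∀ i, 0 < Module.finrank W.K (transcendental W (X i)) := by
    intro i
    have h1 := (hdim i).1
    omega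
  refine ⟨{ var := fun i => oVarG (hn i) (he i) (hmid i) (hpos i)
            rep := fun i => repG (hn i) (he i) (hmid i) (hdim i) (hX.irreducible i) (hw i)
            repB := fun i => rfl
            apart := fun i j hij => ?_
            small := fun i => baseG (hn i) (he i) (hmid i) (hpos i) (hZ i) }⟩
  rcases hX.notIso j i hij.symm with h1 | ⟨h1, h2⟩
  · exact Or.inl (not_adIG h1)
  · exact Or.inr ⟨not_isoUpTo (not_twistIso G h2), Or.inl h1⟩

end Pool.Agent.T2H43.HF
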