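import Pool.Agent.T2H43.HF.PubA

/-!
# Motives of varieties of level two: definitions
-/

open CategoryTheory AlgebraicGeometry

universe u

namespace Pool.Agent.T2H43.HF.P

/-- The numbers `p`, `q`, `p`. -/
def lvDim (p q h a : ℕ) : ℕ := if a = h ∨ a = h + 2 then p else if a = h + 1 then q else 0

/-- Either `p = 1`, `q > 0` and `q` is not `2`, or `p > 1`, `p` and `q` are coprime and
`2 p ^ 2 (p ^ 2 + 1) < (q - 2 p) (q + p)`. -/
def LvNum (p q : ℕ) : Prop :=
  (p = 1 ∧ 0 < q ∧ q ≠ 2) ∨
    (2 ≤ p ∧ Nat.Coprime p q ∧ 2 * p ^ 2 * (p ^ 2 + 1) < (q - 2 * p) * (q + p))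

section Alg

variable {K : Type} [Field K] {A : Type} [Ring A] [Algebra K A] {G : Type}

/-- No nonzero proper subspace of `T` is stable under the operators `R g`, and the space `T` in
degree `n` has the Hodge numbers `p`, `q`, `p`, which satisfy `LvNum`. -/
def LevelTwo (n : ℕ) (R : G → A → A) (H : ℕ × ℕ → Submodule K A) (T : Submodule K A)
    (p q : ℕ) : Prop :=
  (∀ U ≤ T, (∀ g, ∀ x ∈ U, R g x ∈ U) → U = ⊥ ∨ U = T) ∧
  (∃ h, n = 2 * h + 2 ∧ ∀ a b, a + b = n → typeDim H T a b = lvDim p q h a) ∧ LvNum p q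

end Alg

open Pool.Agent.H914 Pool.Agent.H914.VarClass Pool.Agent.H914.VarClass.Obj
  Pool.Agent.H914.WeilCohomology Pool.Agent.Y132.AH

variable {k : Type u} [Field k] {𝒱 : VarClass k} {ops : CycleOps 𝒱}
  {W : WeilCohomology.{u, 0} ops}

/-- The transcendental cohomology of the even-dimensional variety `X i` is in the middle degree and
an irreducible Hodge structure of level two with the Hodge numbers `p i`, `q i`, `p i`, homological
and numerical equivalence coincide on `X i`, for all `i`, and these Hodge structures are pairwise not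
isomorphic up to scalars. -/
structure LevelTwoFamily (Ψ : HodgeData W) {ι : Type} (p q : ι → ℕ) (X : ι → 𝒱.Obj) : Prop where
  homEqNum : ∀ i, HomEqNum W (X i)
  middle : ∀ i, EvenMiddle (W.gr (X i)) (X i).dim (transcendental W (X i))
  lv : ∀ i, LevelTwo (X i).dim (conjTorus (Ψ.on (X i))) (Ψ.on (X i)).hodge
    (transcendental W (X i)) (p i) (q i)
  notIso : ∀ i j, i ≠ j → ¬SameUpTo (conjTorus (Ψ.on (X i))) (transcendental W (X i))
    (conjTorus (Ψ.on (X j))) (transcendental W (X j))

end Pool.Agent.T2H43.HF.P
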