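import Pool.Agent.T2H43.HF.Full
import Pool.Agent.T2H43.HF.PubL
import Pool.Agent.T2H43.HF.PubO
import Pool.Agent.Y132.AH.MT

/-!
# Families of varieties with large Mumford-Tate group
-/

open CategoryTheory AlgebraicGeometry Finset Function

set_option linter.unusedSectionVars false

universe u

namespace Pool.Agent.T2H43.HF

open Pool.Agent.H914 Pool.Agent.H914.VarClass Pool.Agent.H914.VarClass.Obj
  Pool.Agent.H914.WeilCohomology Pool.Agent.H281R3.HT Pool.Agent.W552 Pool.Agent.TH125.Gal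
  Pool.Agent.Y127 Pool.Agent.Y127.G Pool.Agent.Y132.AH Pool.Agent.Y95.ZT Pool.Agent.Y132.AF
  Pool.Agent.TH118.SG

variable {k : Type u} [Field k] {𝒱 : VarClass k} {ops : CycleOps 𝒱}
  {W : WeilCohomology.{u, 0} ops} (Ψ : HodgeData W)

/-- conjugates of operators -/
theorem conjOn_iff {X : 𝒱.Obj} (g : RingAut W.K × W.Kˣ)
    (N N' : transcendental W X →ₗ[W.K] transcendental W X) :
    P.ConjOn (conjTorus (Ψ.on X)) (transcendental W X) g N N' ↔
      opr Ψ N' = (trRep (galoisType Ψ X)).ρ (FreeGroup.of g) * opr Ψ N *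
        (trRep (galoisType Ψ X)).ρ (FreeGroup.of g)⁻¹ := by
  constructor
  · intro h
    apply LinearMap.ext
    intro t''
    let t' : transcendental W X := t''
    change opr Ψ N' t' = _
    apply Subtype.ext
    set t : transcendental W X := (trRep (galoisType Ψ X)).ρ (FreeGroup.of g)⁻¹ t' with ht
    have h1 : (t' : W.H X) = conjTorus (Ψ.on X) g t := by
      rw [← conj_eq]
      have h2 : (trRep (galoisType Ψ X)).ρ (FreeGroup.of g) t = t' := by
        rw [ht]
        exact FRep.inv_right (trRep (galoisType Ψ X)) (FreeGroup.of g) t'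
      exact (congrArg Subtype.val h2).symm
    have h3 := h t t' h1
    rw [← conj_eq] at h3
    exact h3
  · intro h t t' ht
    have h2 : (trRep (galoisType Ψ X)).ρ (FreeGroup.of g) t = t' := Subtype.ext (by
      rw [ht, ← conj_eq]
      rfl)
    have h3 : (trRep (galoisType Ψ X)).ρ (FreeGroup.of g)⁻¹ t' = t := by
      rw [← h2]
      exact FRep.inv_left (trRep (galoisType Ψ X)) (FreeGroup.of g) t
    have h4 := LinearMap.congr_fun h t'
    have h5 : ((trRep (galoisType Ψ X)).ρ (FreeGroup.of g) * opr Ψ N *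
        (trRep (galoisType Ψ X)).ρ (FreeGroup.of g)⁻¹ :
          Module.End W.K (trRep (galoisType Ψ X)).V) t' =
        (trRep (galoisType Ψ X)).ρ (FreeGroup.of g) (opr Ψ N t) :=
      congrArg (fun s => (trRep (galoisType Ψ X)).ρ (FreeGroup.of g) (opr Ψ N s)) h3
    rw [← conj_eq]
    exact congrArg Subtype.val (h4.trans h5)

variable {Ψ}

/-- the conditions of the theorem, for one variety -/
abbrev Big (Ψ : HodgeData W) (X : 𝒱.Obj) : Prop :=
  P.BigOn (W.tr X) (transcendental W X) (conjTorus (Ψ.on X)) (Ψ.on X).hodge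

/-- **Irreducible adjoint representation.** -/
theorem Big.irr {X : 𝒱.Obj} (h : Big Ψ X)
    (L : Submodule W.K (Module.End W.K (trRep (galoisType Ψ X)).V))
    (hsk : ∀ A ∈ L, Skew (rform W X (transcendental W X)) A)
    (hconj : ∀ g : RingAut W.K × W.Kˣ, ∀ A ∈ L, ((trRep (galoisType Ψ X)).ρ (FreeGroup.of g) * A *
      (trRep (galoisType Ψ X)).ρ (FreeGroup.of g)⁻¹ :
        Module.End W.K (trRep (galoisType Ψ X)).V) ∈ L) :
    L = ⊥ ∨ ∀ A : Module.End W.K (trRep (galoisType Ψ X)).V,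
      Skew (rform W X (transcendental W X)) A → A ∈ L := by
  refine h.1 L hsk fun g N N' hN hNL => ?_
  have h2 := (conjOn_iff Ψ g N N').1 hN
  have h3 : opr Ψ N' ∈ L := by
    rw [h2]
    exact hconj g (opr Ψ N) hNL
  exact h3

/-- The transcendental cohomology is irreducible. -/
theorem Big.mtIrreducible {X : 𝒱.Obj} (he : EvenMiddle W X) (h : Big Ψ X) :
    MTIrreducible (Ψ.on X) (transcendental W X) := by
  intro U hUT hU
  let V : Submodule W.K (transcendental W X) := U.comap (transcendental W X).subtype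
  have h0 : V = ⊥ ∨ V = ⊤ := stable_of_irr (fun g : RingAut W.K × W.Kˣ => FreeGroup.of g)
    (M := trRep (galoisType Ψ X)) (B := rform W X (transcendental W X)) (V := V)
    (fun g x y => tr_eqv (galoisType Ψ X) g x y)
    (fun x y => tr_sy (X := actv Ψ X) he.middle he.even x y) (trans_nondeg he.homEqNum)
    h.2.1.1 (Big.irr h) (fun g x hx => stable_all Ψ hU g (x : transcendental W X).1 hx)
  rcases h0 with h0 | h0
  · left
    rw [eq_bot_iff]
    intro x hx
    have h1 : (⟨x, hUT hx⟩ : transcendental W X) ∈ V := hx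
    rw [h0, Submodule.mem_bot] at h1
    exact congrArg Subtype.val h1
  · right
    refine le_antisymm hUT fun x hx => ?_
    have h1 : (⟨x, hx⟩ : transcendental W X) ∈ V := by
      rw [h0]
      exact Submodule.mem_top
    exact h1

variable [IsAlgClosed W.K]

/-- The weight operator is not a scalar. -/
theorem Big.not_scalar {X : 𝒱.Obj} (h : Big Ψ X) (c : W.K) :
    (hop W.K).Θ (trRep (galoisType Ψ X)) ≠
      c • (1 : Module.End W.K (trRep (galoisType Ψ X)).V) := by
  obtain ⟨a, b, a', b', ⟨x, hxT, hxH, hx0⟩, ⟨y, hyT, hyH, hy0⟩, hne⟩ := h.2.2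
  intro hc
  have key : ∀ {a b : ℕ} {x : W.H X} (hxT : x ∈ transcendental W X),
      x ∈ Ψ.hodge X (a, b) → x ≠ 0 → (a : W.K) = c := by
    intro a b x hxT hxH hx0
    exact eig_scalar hc (x := (⟨x, hxT⟩ : transcendental W X))
      (hop_sub Ψ (trans_stable Ψ X) hxT hxH) fun h0 => hx0 (congrArg Subtype.val h0)
  have h1 := key hxT hxH hx0
  have h2 := key hyT hyH hy0
  rw [← h2] at h1
  exact hne (Nat.cast_injective h1)

/-- The orthogonal representation. -/
noncomputable def Big.rep {X : 𝒱.Obj} (he : EvenMiddle W X) (h : Big Ψ X) :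
    ORep (hop W.K) (trRep (galoisType Ψ X)) :=
  orep_of_irr (rform W X (transcendental W X)) (hchar W.K ^ X.dim)
    (fun g x y => tr_eqv (galoisType Ψ X) g x y)
    (fun x y => tr_sy (X := actv Ψ X) he.middle he.even x y) (trans_nondeg he.homEqNum)
    (SI_rhoT (P := (⟨X, 0⟩ : Polarized 𝒱)) (isGalois (galoisType Ψ X))
      (irredAct_of Ψ (Big.mtIrreducible he h)))
    (by
      have h1 := h.2.1.1
      have h2 := h.2.1.2
      change Module.finrank W.K (transcendental W X) = 3 ∨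
        5 ≤ Module.finrank W.K (transcendental W X)
      omega)
    (fun L hsk hconj => Big.irr h L hsk fun g A hA => hconj (FreeGroup.of g) A hA)
    (Big.not_scalar h)

theorem not_adI' {X Y : 𝒱.Obj} (h : ¬P.SameSkew (W.tr X) (transcendental W X)
      (conjTorus (Ψ.on X)) (W.tr Y) (transcendental W Y) (conjTorus (Ψ.on Y))) :
    ¬AdI (M := trRep (galoisType Ψ Y)) (M' := trRep (galoisType Ψ X))
      (rform W Y (transcendental W Y)) (rform W X (transcendental W X)) := by
  rintro ⟨Φ, h1, h2, h3, h4⟩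
  refine h ⟨Φ, fun N hN => ⟨h1 N hN, h2 N hN⟩, h3, fun g N M hN hNM => ?_⟩
  have h5 := (conjOn_iff Ψ g N M).1 hNM
  refine (conjOn_iff Ψ g _ _).2 ?_
  exact (congrArg Φ h5).trans (h4 (FreeGroup.of g) (opr Ψ N) hN)

theorem evenMiddle_of {X : 𝒱.Obj} (h : HomEqNum W X)
    (h' : P.EvenMiddle (W.gr X) X.dim (transcendental W X)) : EvenMiddle W X :=
  ⟨h'.1, h, h'.2⟩

theorem smallBase_of {X Z : 𝒱.Obj} (h : P.SmallBase Ψ X Z) : SmallBase Ψ X Z := by
  obtain ⟨𝒰, h1, h2⟩ := h
  exact ⟨𝒰, ⟨fun U hU => (h1 U hU).1, h2⟩, fun U hU => (h1 U hU).2⟩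

theorem exists_oFam_bigP {ι : Type} {X : ι → 𝒱.Obj} {Z : 𝒱.Obj}
    (hX : P.OrthogonalFamily Ψ X) (hZ : ∀ i, SmallBase Ψ (X i) Z) :
    Nonempty (OFam (hop W.K) (hchar W.K) (fun i => actv Ψ (X i)) (actv Ψ Z)) := by
  have hmid := fun i => evenMiddle_of (hX.homEqNum i) (hX.middle i)
  refine ⟨{ var := fun i => oVar Ψ (hmid i) ?_
            rep := fun i => Big.rep (hmid i) (hX.big i)
            repB := fun i => rfl
            apart := fun i j hij => ?_
            small := fun i => base_of Ψ (hmid i).middle (hZ i) }⟩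
  · have h1 := (hX.big i).2.1.1
    omega
  · rcases hX.notIso j i hij.symm with h1 | ⟨h1, h2⟩
    · exact Or.inl (not_adI' h1)
    · exact Or.inr ⟨not_iso Ψ h2, Or.inl h1⟩

theorem lvFamily_of {ι : Type} {p q : ι → ℕ} {X : ι → 𝒱.Obj} (hX : P.LevelTwoFamily Ψ p q X) :
    LevelTwoFamily Ψ p q X where
  middle i := evenMiddle_of (hX.homEqNum i) (hX.middle i)
  lv i := ⟨(hX.lv i).1, (hX.lv i).2.1, (hX.lv i).2.2⟩
  notIso i j hij := hX.notIso i j hij

section det

variable (Ψ) (E : Embeddings W)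

theorem map_altProd {X Y V : 𝒱.Obj} {n : ℕ} (f : V ⟶ Y) (π : Fin n → (Y ⟶ X))
    (x : Fin n → W.H X) : W.map f (P.altProd (fun t => W.map (π t)) x) =
      P.altProd (fun t => W.map (f ≫ π t)) x := by
  rw [P.altProd, P.altProd, map_sum]
  refine Finset.sum_congr rfl fun σ _ => ?_
  rw [map_zsmul, map_list_prod, List.map_ofFn]
  congr 3
  funext t
  exact (W.map_comp f (π t) _).symm

theorem map_altSpan {X Y V : 𝒱.Obj} {n : ℕ} (f : V ⟶ Y) (π : Fin n → (Y ⟶ X))
    {T : Submodule W.K (W.H X)} {c : W.H Y} (hc : c ∈ P.altSpan (fun t => W.map (π t)) T) :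
    W.map f c ∈ P.altSpan (fun t => W.map (f ≫ π t)) T := by
  unfold P.altSpan at hc
  induction hc using Submodule.span_induction with
  | mem c hc =>
    obtain ⟨x, hx, rfl⟩ := hc
    exact Submodule.subset_span ⟨x, hx, map_altProd f π x⟩
  | zero => rw [map_zero]; exact Submodule.zero_mem _
  | add x y _ _ hx hy => rw [map_add]; exact Submodule.add_mem _ hx hy
  | smul r x _ hx => rw [map_smul]; exact Submodule.smul_mem _ _ hx

theorem eq_of_altSpan {X Y : 𝒱.Obj} {n : ℕ} (f : Y ⟶ Y) (π : Fin n → (Y ⟶ X))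
    (hf : ∀ t, f ≫ π t = π t)
    {T : Submodule W.K (W.H X)} {c : W.H Y} (hc : c ∈ P.altSpan (fun t => W.map (π t)) T) :
    W.map f c = c := by
  unfold P.altSpan at hc
  induction hc using Submodule.span_induction with
  | mem c hc =>
    obtain ⟨x, hx, rfl⟩ := hc
    rw [map_altProd]
    simp only [hf]
  | zero => rw [map_zero]
  | add x y _ _ hx hy => rw [map_add, hx, hy]
  | smul r x _ hx => rw [map_smul, hx]

theorem detAbs_of {X : 𝒱.Obj} (h : P.DetAbsolute Ψ E X) : DetAbsolute Ψ E X := by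
  intro n hn j c hc hcH
  have key : ∀ (N : ℕ) (hN : n + 1 = N), (∀ (Y : 𝒱.Obj) (π : Fin N → (Y ⟶ X)), P.IsPower π → ∀ j,
      ∀ c ∈ P.altSpan (fun t => W.map (π t)) (transcendental W X), IsHodge Ψ Y j c →
        IsAbsHodge Ψ E Y j c) → IsAbsHodge Ψ E (power ops X n) j c := by
    intro N hN h
    subst hN
    refine h (power ops X n) (powerPrj ops X n) (fun V ρ => ?_) j c hc hcH
    exact exists_liftN (ops := ops) (P := (⟨X, 0⟩ : Polarized 𝒱)) n ρ
  exact key _ hn h

theorem detAbs_mk {X : 𝒱.Obj} (hpos : 0 < trDim W X)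
    (h : AllAbsolute Ψ E (powN X (trDim W X - 1))) : P.DetAbsolute Ψ E X := by
  obtain ⟨n, hn⟩ : ∃ n, n + 1 = trDim W X := ⟨trDim W X - 1, by omega⟩
  have h0 : trDim W X - 1 = n := by omega
  rw [h0] at h
  obtain ⟨e'⟩ := iso_powN (ops := ops) X n
  have h1 := abs_iso Ψ E e'.symm h
  have key : ∀ (N : ℕ) (hN : n + 1 = N), ∀ (Y : 𝒱.Obj) (π : Fin N → (Y ⟶ X)), P.IsPower π → ∀ j,
      ∀ c ∈ P.altSpan (fun t => W.map (π t)) (transcendental W X), IsHodge Ψ Y j c →
        IsAbsHodge Ψ E Y j c := by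
    intro N hN Y π hπ j c hc hcH
    subst hN
    obtain ⟨f, hf⟩ : ∃ f : Y ⟶ power ops X n, ∀ p, f ≫ powerPrj ops X n p = π p :=
      exists_liftN (ops := ops) (P := (⟨X, 0⟩ : Polarized 𝒱)) (Y := Y) n π
    obtain ⟨g, hg⟩ := hπ (power ops X n) (powerPrj ops X n)
    have h2 := isAbs_map Ψ E f (h1 j _ (isHodge_map Ψ g hcH))
    have h3 : W.map f (W.map g c) = c := by
      rw [← W.map_comp]
      refine eq_of_altSpan (f ≫ g) π (fun t => ?_) hc
      rw [Category.assoc, hg]
      exact hf t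
    rwa [h3] at h2
  exact key _ hn

end det

end Pool.Agent.T2H43.HF
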