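import Pool.Agent.T2H43.HF.Gal

/-!
# Products of bases, and the Mumford-Tate conjecture
-/

open CategoryTheory AlgebraicGeometry Finset Function

set_option linter.unusedSectionVars false

universe u

namespace Pool.Agent.T2H43.HF

open Pool.Agent.H914 Pool.Agent.H914.VarClass Pool.Agent.H914.VarClass.Obj
  Pool.Agent.H914.WeilCohomology Pool.Agent.H281R3.HT Pool.Agent.W552 Pool.Agent.TH125.Gal
  Pool.Agent.Y127 Pool.Agent.Y127.G Pool.Agent.Y132.AH Pool.Agent.Y95.ZT

variable {k : Type u} [Field k] {𝒱 : VarClass k} {ops : CycleOps 𝒱}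
  {W : WeilCohomology.{u, 0} ops} {Γ : Type} [Group Γ]

/-- The cohomology of `Z` is generated by images of representations with the property `P`. -/
def BaseGen (P : FRep W.K Γ → Prop) (Z : GVar W Γ) : Prop :=
  ∃ (m : ℕ) (M : Fin m → FRep W.K Γ) (f : ∀ a, (M a).V →ₗ[W.K] W.H Z.X), (∀ a, P (M a)) ∧
    (∀ a g x, f a ((M a).ρ g x) = Z.act g (f a x)) ∧
    Algebra.adjoin W.K (⋃ a, Set.range (f a)) = ⊤

theorem baseGen_of_fintype {P : FRep W.K Γ → Prop} {Z : GVar W Γ} {κ : Type} [Fintype κ]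
    (M : κ → FRep W.K Γ) (f : ∀ a, (M a).V →ₗ[W.K] W.H Z.X) (hM : ∀ a, P (M a))
    (hf : ∀ a g x, f a ((M a).ρ g x) = Z.act g (f a x))
    (hgen : Algebra.adjoin W.K (⋃ a, Set.range (f a)) = ⊤) : BaseGen P Z := by
  classical
  let e := Fintype.equivFin κ
  refine ⟨Fintype.card κ, fun a => M (e.symm a), fun a => f (e.symm a), fun a => hM _,
    fun a g x => hf _ g x, ?_⟩
  rw [← hgen]
  congr 1
  exact e.symm.surjective.iUnion_comp fun a => Set.range (f a)

/-- the cohomology of a product -/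
theorem baseGen_mk {P : FRep W.K Γ → Prop} {A B : 𝒱.Obj} {α : Γ →* (W.H A ≃ₐ[W.K] W.H A)}
    {β : Γ →* (W.H B ≃ₐ[W.K] W.H B)}
    {υ : Γ →* (W.H (A.prod B) ≃ₐ[W.K] W.H (A.prod B))}
    (h1 : ∀ g a, υ g (W.map (fst A B) a) = W.map (fst A B) (α g a))
    (h2 : ∀ g b, υ g (W.map (snd A B) b) = W.map (snd A B) (β g b))
    (hA : BaseGen P (⟨A, α⟩ : GVar W Γ)) (hB : BaseGen P (⟨B, β⟩ : GVar W Γ)) :
    BaseGen P (⟨A.prod B, υ⟩ : GVar W Γ) := by
  obtain ⟨m, M, f, hM, hf, hgen⟩ := hA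
  obtain ⟨m', M', f', hM', hf', hgen'⟩ := hB
  let F : ∀ a : Fin m ⊕ Fin m', (Sum.elim M M' a).V →ₗ[W.K] W.H (A.prod B) := fun a =>
    match a with
    | Sum.inl a => (W.map (fst A B)).toLinearMap ∘ₗ f a
    | Sum.inr a => (W.map (snd A B)).toLinearMap ∘ₗ f' a
  refine baseGen_of_fintype (κ := Fin m ⊕ Fin m') (Sum.elim M M') F ?_ ?_ ?_
  · rintro (a | a)
    · exact hM a
    · exact hM' a
  · rintro (a | a) g x
    · change W.map (fst A B) (f a ((M a).ρ g x)) = υ g (W.map (fst A B) (f a x))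
      rw [hf, h1]
    · change W.map (snd A B) (f' a ((M' a).ρ g x)) = υ g (W.map (snd A B) (f' a x))
      rw [hf', h2]
  · have h3 := prodFam_gen (A := A) (B := B) (𝒰 := Set.range fun a => LinearMap.range (f a))
      (𝒰' := Set.range fun a => LinearMap.range (f' a)) (by
        rw [← hgen]
        congr 1
        ext y
        simp only [Set.mem_iUnion, Set.mem_range]
        constructor
        · rintro ⟨_, ⟨a, rfl⟩, hy⟩
          exact ⟨a, LinearMap.mem_range.1 hy⟩
        · rintro ⟨a, hy⟩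
          exact ⟨_, ⟨a, rfl⟩, LinearMap.mem_range.2 hy⟩) (by
        rw [← hgen']
        congr 1
        ext y
        simp only [Set.mem_iUnion, Set.mem_range]
        constructor
        · rintro ⟨_, ⟨a, rfl⟩, hy⟩
          exact ⟨a, LinearMap.mem_range.1 hy⟩
        · rintro ⟨a, hy⟩
          exact ⟨_, ⟨a, rfl⟩, LinearMap.mem_range.2 hy⟩)
    rw [eq_top_iff, ← h3]
    refine Algebra.adjoin_mono ?_
    intro y hy
    obtain ⟨U, hU, hy⟩ := Set.mem_iUnion₂.1 hy
    rcases hU with ⟨_, ⟨a, rfl⟩, rfl⟩ | ⟨_, ⟨a, rfl⟩, rfl⟩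
    · obtain ⟨_, ⟨x, rfl⟩, rfl⟩ := hy
      exact Set.mem_iUnion.2 ⟨Sum.inl a, x, rfl⟩
    · obtain ⟨_, ⟨x, rfl⟩, rfl⟩ := hy
      exact Set.mem_iUnion.2 ⟨Sum.inr a, x, rfl⟩

section fam

variable {D : WeightOp W.K Γ} {χ : Γ →* W.Kˣ} {ι : Type} {X : ι → GVar W Γ} {Z : GVar W Γ}

/-- a family over another base -/
def OFam.rebase (F : OFam D χ X Z) {Z' : GVar W Γ}
    (h : ∀ i, BaseGen (fun M => SmallO D M (trRep (F.var i).galois) (F.rep i).B) Z') :
    OFam D χ X Z' where
  var := F.var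
  rep := F.rep
  repB := F.repB
  apart := F.apart
  small := h

end fam

section pow

variable (G : GaloisData W Γ) (Ψ : HodgeData W)

theorem baseGen_powG {P : FRep W.K Γ → Prop} {Z : 𝒱.Obj} (h : BaseGen P (G.var Z)) (n : ℕ) :
    BaseGen P (G.var (powN Z n)) := by
  induction n with
  | zero => exact h
  | succ n ih =>
    exact baseGen_mk (A := Z) (B := powN Z n) (α := G.act Z) (β := G.act (powN Z n))
      (υ := G.act (Z.prod (powN Z n))) (fun g a => G.map _ g a)
      (fun g b => G.map _ g b) h ih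

theorem baseGen_powH {P : FRep W.K (FreeGroup (RingAut W.K × W.Kˣ)) → Prop} {Z : 𝒱.Obj}
    (h : BaseGen P (actv Ψ Z)) (n : ℕ) : BaseGen P (actv Ψ (powN Z n)) := by
  induction n with
  | zero => exact h
  | succ n ih =>
    exact baseGen_mk (A := Z) (B := powN Z n) (α := ract Ψ Z) (β := ract Ψ (powN Z n))
      (υ := ract Ψ (Z.prod (powN Z n))) (fun g a => hact_map Ψ _ g a)
      (fun g b => hact_map Ψ _ g b) h ih

end pow

section drop

variable {A Z : 𝒱.Obj}

/-- from a product to the second factor -/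
theorem drop_snd {𝒞 : ClassSystem W} {c : W.H Z} {η : W.H A} (hη : η ∈ 𝒞.C A)
    (hη0 : W.tr A η ≠ 0) (h : W.map (snd A Z) c ∈ 𝒞.C (A.prod Z)) : c ∈ 𝒞.C Z := by
  have h3 : W.push (snd A Z) (W.map (fst A Z) η * W.map (snd A Z) c) ∈ 𝒞.C Z :=
    𝒞.push_mem _ (𝒞.mul_mem (𝒞.map_mem _ hη) h)
  have h4 : W.push (snd A Z) (W.map (fst A Z) η * W.map (snd A Z) c) = W.tr A η • c := by
    rw [← sub_eq_zero]
    apply W.nondeg
    intro b
    rw [sub_mul, map_sub, W.tr_push, mul_assoc, ← map_mul, W.tr_prod, smul_mul_assoc, map_smul,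
      smul_eq_mul]
    ring
  rw [h4] at h3
  have h5 := Submodule.smul_mem _ (W.tr A η)⁻¹ h3
  rwa [smul_smul, inv_mul_cancel₀ hη0, one_smul] at h5

/-- an algebraic class with nonzero trace -/
theorem exists_alg_pt (hA : HomEqNum W A) (h1 : (1 : W.H A) ≠ 0) :
    ∃ η ∈ algSpan W A, W.tr A η ≠ 0 := by
  by_contra hcon
  push Not at hcon
  apply h1
  have h2 := alg_nondeg hA ⟨1, algSpan_one⟩ fun b => by
    rw [rform_apply, bil_apply, one_mul]
    exact hcon b b.2
  exact congrArg Subtype.val h2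

theorem one_ne_zero_of_trans (hpos : 0 < trDim W A) : (1 : W.H A) ≠ 0 := by
  intro h0
  have h1 : ∀ x : transcendental W A, x = 0 := fun x => Subtype.ext (by
    rw [← one_mul (x : W.H A), h0, zero_mul]
    rfl)
  have h2 : Module.finrank W.K (transcendental W A) = 0 := by
    have : Subsingleton (transcendental W A) := ⟨fun x y => (h1 x).trans (h1 y).symm⟩
    exact Module.finrank_zero_of_subsingleton
  have h3 : Module.finrank W.K (transcendental W A) = trDim W A := rfl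
  omega

end drop

section main

variable [IsAlgClosed W.K] {D : WeightOp W.K Γ} (Ψ : HodgeData W) (G : GaloisData W Γ)
  {ι : Type} {X : ι → 𝒱.Obj} {Z : 𝒱.Obj}

/-- the determinant classes are combinations of Hodge classes -/
theorem detIn_hodge {A : 𝒱.Obj} (h : OVar (hchar W.K) (actv Ψ A)) : DetIn (hodgeSys Ψ) A := by
  have hpos : 0 < transRank W A := h.pos
  refine detIn_of_class (X := actv Ψ A) h (n := transRank W A - 1) ?_
    (υ := ract Ψ (power ops A (transRank W A - 1))) (fun p g a => hact_map Ψ _ g a)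
    ((classConj_iff Ψ _ _).2 fun j c hc => Submodule.subset_span ⟨j, hc⟩)
  change transRank W A - 1 + 1 = transRank W A
  omega

/-- the determinant classes are Tate classes -/
theorem detIn_tate {A : 𝒱.Obj} (h : OVar G.χ (G.var A)) : DetIn (tateSys G) A := by
  have hpos : 0 < transRank W A := h.pos
  refine detIn_of_class (X := G.var A) h (n := transRank W A - 1) ?_
    (υ := G.act (power ops A (transRank W A - 1))) (fun p g a => G.map _ g a)
    ((classConj_tate G _ _).2 fun j c hc => Submodule.subset_span ⟨j, hc⟩)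
  change transRank W A - 1 + 1 = transRank W A
  omega

theorem hodgeIn_tower_all [DecidableEq ι]
    (F : OFam (hop W.K) (hchar W.K) (fun i => actv Ψ (X i)) (actv Ψ Z)) {𝒞 : ClassSystem W}
    (hZ : HodgeIn Ψ 𝒞 Z) (L : List ι) (hd : ∀ i, DetIn 𝒞 (X i)) :
    HodgeIn Ψ 𝒞 (prodList X Z L) := by
  obtain ⟨S, T, Y, hY, hS, hT, ⟨e⟩⟩ := exists_tower Ψ X Z L.length L le_rfl
  refine hodgeIn_iso Ψ e ?_
  rw [← classConj_iff]
  exact F.class ((classConj_iff Ψ 𝒞 Z).2 hZ) hY fun i _ => hd i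

/-- **The Mumford-Tate conjecture for products.** -/
theorem mt_tower (FH : OFam (hop W.K) (hchar W.K) (fun i => actv Ψ (X i)) (actv Ψ Z))
    (FG : OFam D G.χ (fun i => G.var (X i)) (G.var Z)) (L : List ι)
    (h : MumfordTate Ψ G Z) : MumfordTate Ψ G (prodList X Z L) := by
  classical
  rw [mumfordTate_iff, ← tateIn_hodge, ← hodgeIn_tate] at h ⊢
  exact ⟨tateIn_tower G FG h.1 L fun i _ _ => detIn_hodge Ψ (FH.var i),
    hodgeIn_tower_all Ψ FH h.2 L fun i => detIn_tate G (FG.var i)⟩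

theorem mt_drop {A : 𝒱.Obj} (hA : HomEqNum W A) (h1 : (1 : W.H A) ≠ 0)
    (h : MumfordTate Ψ G (A.prod Z)) : MumfordTate Ψ G Z := by
  obtain ⟨η, hη, hη0⟩ := exists_alg_pt hA h1
  rw [mumfordTate_iff, ← tateIn_hodge, ← hodgeIn_tate] at h ⊢
  refine ⟨fun j c hc => ?_, fun j c hc => ?_⟩
  · exact drop_snd ((hodgeSys Ψ).alg_le _ hη) hη0 (h.1 j _ (isTate_map G (snd A Z) hc))
  · exact drop_snd ((tateSys G).alg_le _ hη) hη0 (h.2 j _ (isHodge_map Ψ (snd A Z) hc))

/-- **The Mumford-Tate conjecture for products**, both directions. -/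
theorem mt_tower_iff (FH : OFam (hop W.K) (hchar W.K) (fun i => actv Ψ (X i)) (actv Ψ Z))
    (FG : OFam D G.χ (fun i => G.var (X i)) (G.var Z)) (hpos : ∀ i, 0 < trDim W (X i))
    (L : List ι) : MumfordTate Ψ G (prodList X Z L) ↔ MumfordTate Ψ G Z := by
  refine ⟨fun h => ?_, mt_tower Ψ G FH FG L⟩
  induction L with
  | nil => exact h
  | cons i L ih =>
    exact ih (mt_drop Ψ G (FH.var i).homEqNum (one_ne_zero_of_trans (hpos i)) h)

/-- **The Mumford-Tate conjecture for all powers of products.** -/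
theorem mt_tower_all (FH : OFam (hop W.K) (hchar W.K) (fun i => actv Ψ (X i)) (actv Ψ Z))
    (FG : OFam D G.χ (fun i => G.var (X i)) (G.var Z)) (hpos : ∀ i, 0 < trDim W (X i))
    (L : List ι) : MumfordTateAll Ψ G (prodList X Z L) ↔ MumfordTateAll Ψ G Z := by
  refine forall_congr' fun n => ?_
  obtain ⟨L', ⟨e⟩⟩ := iso_pow X Z L n
  have h1 : ∀ i, BaseGen (fun M => SmallO (hop W.K) M (trRep (FH.var i).galois) (FH.rep i).B)
      (actv Ψ (powN Z n)) := fun i => baseGen_powH Ψ (Z := Z)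
    (P := fun M => SmallO (hop W.K) M (trRep (FH.var i).galois) (FH.rep i).B) (FH.small i) n
  have h2 : ∀ i, BaseGen (fun M => SmallO D M (trRep (FG.var i).galois) (FG.rep i).B)
      (G.var (powN Z n)) := fun i => baseGen_powG G (Z := Z)
    (P := fun M => SmallO D M (trRep (FG.var i).galois) (FG.rep i).B) (FG.small i) n
  have h3 := mt_tower_iff Ψ G (FH.rebase h1) (FG.rebase h2) hpos L'
  rw [← h3]
  exact ⟨fun h => mumfordTate_iso G Ψ e h, fun h => mumfordTate_iso G Ψ e.symm h⟩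

end main

end Pool.Agent.T2H43.HF
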