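import Pool.Agent.T2H43.HF.GSide
import Pool.Agent.T2H43.HF.Pow
import Pool.Agent.T2H43.HF.HBigP
import Pool.Agent.T2H43.HF.FullP

/-!
# Families of Galois representations of level two
-/

open CategoryTheory AlgebraicGeometry Finset Function

set_option linter.unusedSectionVars false

universe u

namespace Pool.Agent.T2H43.HF

open Pool.Agent.H914 Pool.Agent.H914.VarClass Pool.Agent.H914.VarClass.Obj
  Pool.Agent.H914.WeilCohomology Pool.Agent.H281R3.HT Pool.Agent.W552 Pool.Agent.TH125.Gal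
  Pool.Agent.Y127 Pool.Agent.Y127.G Pool.Agent.Y132.AH Pool.Agent.Y95.ZT Pool.Agent.Y132.AF
  Pool.Agent.TH118.SG

variable {k : Type u} [Field k] {𝒱 : VarClass k} {ops : CycleOps 𝒱}
  {W : WeilCohomology.{u, 0} ops} {Γ : Type} [Group Γ] {D : P.WeightOps W.K Γ}
  {G : GaloisData W Γ}

theorem galType (G : GaloisData W Γ) (X : 𝒱.Obj) : GaloisType G.χ (G.var X) := G.galois X

/-- the two kinds of weights -/
theorem hasWeights_of {A : Type} [Ring A] [Algebra W.K A] [FiniteDimensional W.K A]
    {ρ : Γ →* (A ≃ₐ[W.K] A)} {U : Submodule W.K A} (hU : ∀ g, ∀ x ∈ U, ρ g x ∈ U)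
    {s : Multiset ℤ} (h : P.WeightsOn D (fun g x => ρ g x) U s) :
    HasWeights ((toWP D).Θ (Y95.ZT.subRep ρ U hU)) s := by
  obtain ⟨_, h1⟩ := weightsOnP h
  exact h1

theorem trWeights_of {X : 𝒱.Obj} {w : Multiset ℤ}
    (h : P.WeightsOn D (P.galOp G X) (transcendental W X) w) :
    HasWeights ((toWP D).Θ (trRep (galType G X))) w := by
  obtain ⟨_, h1⟩ := weightsOnP (ρ := G.act X) h
  exact h1

/-- isomorphisms up to functions -/
theorem not_twistIso (G : GaloisData W Γ) {X Y : 𝒱.Obj} (h : ¬P.SameUpTo (P.galOp G X)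
      (transcendental W X) (P.galOp G Y) (transcendental W Y)) :
    ¬TwistIso (G.var X).act (transcendental W (G.var X).X) (G.var Y).act
      (transcendental W (G.var Y).X) := by
  rintro ⟨ψ, ε, h1⟩
  exact h ⟨ψ, ε, fun g x y hxy => h1 g x y hxy.symm⟩

variable [IsAlgClosed W.K]

/-- the conditions on a variety for the Galois group -/
theorem oVarG {X : 𝒱.Obj} (hn : HomEqNum W X) (he : Even X.dim)
    (hmid : transcendental W X ≤ W.gr X X.dim)
    (hpos : 0 < Module.finrank W.K (transcendental W X)) : OVar G.χ (G.var X) where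
  galois := galType G X
  homEqNum := hn
  even := he
  middle := hmid
  pos := hpos

/-- small subspaces -/
theorem smallO_of {X : 𝒱.Obj} (hn : HomEqNum W X) (he : Even X.dim)
    (hmid : transcendental W X ≤ W.gr X X.dim)
    (hpos : 0 < Module.finrank W.K (transcendental W X))
    {A : Type} [Ring A] [Algebra W.K A] [FiniteDimensional W.K A]
    {ρ : Γ →* (A ≃ₐ[W.K] A)} {U : Submodule W.K A} (hU : ∀ g, ∀ x ∈ U, ρ g x ∈ U)
    (h : P.SmallWt D (fun g x => ρ g x) U (P.galOp G X) (transcendental W X)) :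
    SmallO (toWP D) (Y95.ZT.subRep ρ U hU) (trRep (galType G X))
      (rform W X (transcendental W X)) := by
  rcases h with ⟨s, w, z, c, h1, h2, h3, h4⟩ | ⟨h1, h2⟩ | ⟨h1, h2⟩
  · refine Or.inl ⟨s, w, z, c, hasWeights_of hU h1, trWeights_of h2, ?_, ?_⟩
    · obtain ⟨a, ha⟩ := exists_mult (toWP D) (M := trRep (galType G X))
        (B := rform W X (transcendental W X)) (fun g x y => tr_eqv (galType G X) g x y)
      have h5 := mult_eq (fun x y => tr_sy (X := G.var X) hmid he x y) (trans_nondeg hn) hpos ha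
        (trWeights_of h2) h3
      intro x y
      rw [← h5]
      exact ha x y
    · have h5 : wgaps s c < (wsum w (z + c) - wdiag w (z + c)) / 2 := h4
      omega
  · exact Or.inr (Or.inl ⟨hasForm_of_fun hU h1, h2⟩)
  · exact Or.inr (Or.inr ⟨hasForm_of_fun hU h1, h2⟩)

theorem baseG {X Z : 𝒱.Obj} (hn : HomEqNum W X) (he : Even X.dim)
    (hmid : transcendental W X ≤ W.gr X X.dim)
    (hpos : 0 < Module.finrank W.K (transcendental W X)) (h : P.SmallGal D G X Z) :
    BaseGen (fun M => SmallO (toWP D) M (trRep (galType G X))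
      (rform W X (transcendental W X))) (G.var Z) := by
  obtain ⟨𝒰, h𝒰, hg⟩ := h
  obtain ⟨m, U, hU, hgen⟩ := exists_fin_gen hg
  have hst := fun a => (h𝒰 _ (hU a)).1
  refine ⟨m, fun a => Y95.ZT.subRep (G.act Z) (U a) (hst a), fun a => (U a).subtype,
    fun a => smallO_of hn he hmid hpos (hst a) (h𝒰 _ (hU a)).2, fun a g x => rfl, ?_⟩
  rw [← hgen]
  congr 1
  refine Set.iUnion_congr fun a => ?_
  change Set.range ((U a).subtype) = _
  rw [Submodule.coe_subtype, Subtype.range_coe_subtype]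
  rfl

theorem exists_oFam_glv (e : W.K ≃+* ℂ) {ι : Type} {X : ι → 𝒱.Obj} {Z : 𝒱.Obj} {p q : ι → ℕ}
    (hn : ∀ i, HomEqNum W (X i)) (he : ∀ i, Even (X i).dim)
    (hmid : ∀ i, transcendental W (X i) ≤ W.gr (X i) (X i).dim)
    (hX : P.GalLevelTwo D G p q X) (hZ : ∀ i, P.SmallGal D G (X i) Z) :
    Nonempty (OFam (toWP D) G.χ (fun i => G.var (X i)) (G.var Z)) := by
  have hlv : ∀ i, Y95.ZT.LvType (toWP D) G.χ (p i) (q i) (G.var (X i)) := fun i =>
    { galois := galType G (X i)
      homEqNum := hn i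
      even := he i
      middle := hmid i
      irreducible := (hX.lv i).1
      weights := by
        obtain ⟨z, hz⟩ := (hX.lv i).2.1
        exact ⟨z, weightsOnP (ρ := G.act (X i)) hz⟩
      num := (hX.lv i).2.2 }
  have hpos : ∀ i, 0 < Module.finrank W.K (transcendental W (X i)) := by
    intro i
    have h1 := (hlv i).pos
    change 3 ≤ Module.finrank W.K (transcendental W (X i)) at h1
    omega
  choose R hR using fun i => exists_lvRep (hlv i)
  refine ⟨{ var := fun i => oVarG (hn i) (he i) (hmid i) (hpos i)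
            rep := fun i => orep_of_lv e (R i)
            repB := hR
            apart := fun i j hij => Or.inr ⟨not_isoUpTo (not_twistIso G (hX.notIso j i hij.symm)),
              Or.inr ⟨⟨_, _, _, (R i).weights, (R i).num⟩, ⟨_, _, _, (R j).weights, (R j).num⟩⟩⟩
            small := fun i => ?_ }⟩
  obtain ⟨m, M, f, h1, h2, h3⟩ := baseG (hn i) (he i) (hmid i) (hpos i) (hZ i)
  refine ⟨m, M, f, fun a => ?_, h2, h3⟩
  have h4 := h1 a
  rw [← hR i] at h4
  exact h4

end Pool.Agent.T2H43.HF
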