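import Pool.Agent.T2H43.HF.PubG
import Pool.Agent.T2H43.HF.PubL

/-!
# Galois representations of level two: definitions
-/

open CategoryTheory AlgebraicGeometry

universe u

namespace Pool.Agent.T2H43.HF.P

/-- The weights `h + 1`, `h`, `h - 1` with the multiplicities `p`, `q`, `p`. -/
def lvWts (p q : ℕ) (h : ℤ) : Multiset ℤ :=
  Multiset.replicate p (h + 1) + Multiset.replicate q h + Multiset.replicate p (h - 1)

/-- No nonzero proper subspace of `T` is stable under the operators `R g` for all `g` in a subgroup
of finite index, and the space `T` has the weights `h + 1`, `h`, `h - 1` for some `h`, with the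
multiplicities `p`, `q`, `p`, which satisfy `LvNum`. -/
def GalLv {K : Type} [Field K] {A : Type} [Ring A] [Algebra K A] {Γ : Type} [Group Γ]
    (D : WeightOps K Γ) (R : Γ → A → A) (T : Submodule K A) (p q : ℕ) : Prop :=
  (∀ Δ : Subgroup Γ, Δ.FiniteIndex → ∀ U ≤ T, (∀ g ∈ Δ, ∀ x ∈ U, R g x ∈ U) → U = ⊥ ∨ U = T) ∧
  (∃ h, WeightsOn D R T (lvWts p q h)) ∧ LvNum p q

open Pool.Agent.H914 Pool.Agent.H914.VarClass Pool.Agent.H914.VarClass.Obj
  Pool.Agent.H914.WeilCohomology Pool.Agent.Y132.AH

variable {k : Type u} [Field k] {𝒱 : VarClass k} {ops : CycleOps 𝒱}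
  {W : WeilCohomology.{u, 0} ops} {Γ : Type} [Group Γ]

/-- For all `i` the transcendental cohomology of `X i` is irreducible under all subgroups of finite
index of `Γ` and has the weights `h + 1`, `h`, `h - 1` for some `h`, with the multiplicities `p i`,
`q i`, `p i`, which satisfy `LvNum`; for different `i` these representations are not isomorphic up to
a function on `Γ`. -/
structure GalLevelTwo (D : WeightOps W.K Γ) (G : GaloisData W Γ) {ι : Type} (p q : ι → ℕ)
    (X : ι → 𝒱.Obj) : Prop where
  lv : ∀ i, GalLv D (galOp G (X i)) (transcendental W (X i)) (p i) (q i)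
  notIso : ∀ i j, i ≠ j → ¬SameUpTo (galOp G (X i)) (transcendental W (X i)) (galOp G (X j))
    (transcendental W (X j))

end Pool.Agent.T2H43.HF.P
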