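import Pool.Agent.T2H43.HF.HBig
import Pool.Agent.T2H43.HF.PubGL
import Pool.Agent.Y95.ZT.SCnv

/-!
# Weight operators and stable subspaces
-/

open CategoryTheory AlgebraicGeometry

set_option linter.unusedSectionVars false

universe u

namespace Pool.Agent.T2H43.HF

open Module Finset Function Pool.Agent.TH118.SG Pool.Agent.TH125.Gal Pool.Agent.Y127.G
  Pool.Agent.Y127.C Pool.Agent.Y95.ZT

noncomputable section

section rep

variable {K : Type} [Field K] [CharZero K] {Γ : Type} [Group Γ]

/-- linear maps which are equivariant under a subgroup of finite index -/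
theorem theta_lin (D : WeightOp K Γ) {M M' : FRep K Γ} (f : M.V →ₗ[K] M'.V) {Δ : Subgroup Γ}
    (hΔ : Δ.FiniteIndex) (hf : ∀ g ∈ Δ, ∀ x, f (M.ρ g x) = M'.ρ g (f x)) (x : M.V) :
    f (D.Θ M x) = D.Θ M' (f x) := by
  let N : Bool → FRep K Γ := fun β => bif β then M else M'
  exact lin_der (N := N) (a := true) (c := false) f hΔ hf (D.mem N) x

/-- the multiplier of the weight operator -/
theorem exists_mult [IsAlgClosed K] (D : WeightOp K Γ) {M : FRep K Γ} {B : M.V →ₗ[K] M.V →ₗ[K] K}
    {μ : Γ →* Kˣ} (eqv : ∀ g x y, B (M.ρ g x) (M.ρ g y) = (μ g : K) * B x y) :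
    ∃ a : K, ∀ x y, B (D.Θ M x) y + B x (D.Θ M y) = a * B x y := by
  let N : Bool → FRep K Γ := fun β => bif β then M else line μ
  let fr : Frm N true := ⟨B, fun g => (μ g : K), eqv, false, line_finrank _, fun g x => rfl⟩
  exact fr.der (D.mem N)

/-- the multiplier is determined by the weights -/
theorem mult_eq {V : Type} [AddCommGroup V] [Module K V] [FiniteDimensional K V]
    {B : V →ₗ[K] V →ₗ[K] K} (sy : ∀ x y, B x y = B y x) (nd : ∀ x, (∀ y, B x y = 0) → x = 0)
    (hpos : 0 < finrank K V) {J : Module.End K V} {a : K}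
    (ha : ∀ x y, B (J x) y + B x (J y) = a * B x y) {w : Multiset ℤ} (hw : HasWeights J w)
    {z : ℤ} (hz : z * w.card = 2 * w.sum) : a = z := by
  obtain ⟨κ, hκ, b, v, hb, rfl⟩ := hw
  have h1 : Skew B (J - (a / 2) • (1 : Module.End K V)) := by
    intro x y
    have h2 := ha x y
    simp only [LinearMap.sub_apply, LinearMap.smul_apply, Module.End.one_apply, map_sub, map_smul,
      smul_eq_mul]
    linear_combination h2
  have h2 := trace_skew sy nd h1
  rw [map_sub, map_smul, LinearMap.trace_one, trace_diag (b := b) (a := fun k => (v k : K)) hb,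
    finrank_eq_card_basis b, smul_eq_mul] at h2
  rw [Multiset.card_map] at hz
  have h3 : ((univ : Finset κ).val.map v).sum = ∑ k, v k := rfl
  have h4 : (univ : Finset κ).val.card = Fintype.card κ := rfl
  rw [h3, h4] at hz
  have h5 : (z : K) * (Fintype.card κ : K) = 2 * ∑ k, (v k : K) := by
    have := congrArg (fun t : ℤ => (t : K)) hz
    push_cast at this
    exact this
  have h6 : (Fintype.card κ : K) ≠ 0 := by
    rw [← finrank_eq_card_basis b]
    exact Nat.cast_ne_zero.2 hpos.ne'
  apply mul_right_cancel₀ h6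
  rw [h5]
  linear_combination (-2 : K) * h2

section ind

variable (M : FRep K Γ) (N : Subgroup Γ) [N.Normal] (U : Submodule K M.V)

/-- the functions on the cosets -/
def indRho : Γ →* Module.End K (Γ ⧸ N → M.V) where
  toFun g :=
    { toFun := fun f c => M.ρ g (f ((QuotientGroup.mk g)⁻¹ * c))
      map_add' := fun f f' => by
        funext c
        simp only [Pi.add_apply, map_add]
      map_smul' := fun c f => by
        funext c
        simp only [Pi.smul_apply, map_smul, RingHom.id_apply] }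
  map_one' := by
    apply LinearMap.ext
    intro f
    funext c
    simp only [LinearMap.coe_mk, AddHom.coe_mk, map_one, Module.End.one_apply]
    congr 1
    change ((1 : Γ ⧸ N))⁻¹ * c = c
    rw [inv_one, one_mul]
  map_mul' := by
    intro g g'
    apply LinearMap.ext
    intro f
    funext c
    simp only [LinearMap.coe_mk, AddHom.coe_mk, map_mul, Module.End.mul_apply]
    congr 2
    rw [QuotientGroup.mk_mul, mul_inv_rev, mul_assoc]

/-- the functions with values in the translates of `U` -/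
def indSub : Submodule K (Γ ⧸ N → M.V) where
  carrier := {f | ∀ γ : Γ, M.ρ γ⁻¹ (f (QuotientGroup.mk γ)) ∈ U}
  zero_mem' := fun γ => by
    rw [Pi.zero_apply, map_zero]
    exact U.zero_mem
  add_mem' := fun {f f'} h h' γ => by
    rw [Pi.add_apply, map_add]
    exact U.add_mem (h γ) (h' γ)
  smul_mem' := fun c f h γ => by
    rw [Pi.smul_apply, map_smul]
    exact U.smul_mem c (h γ)

theorem indSub_stable (g : Γ) {f : Γ ⧸ N → M.V} (hf : f ∈ indSub M N U) :
    indRho M N g f ∈ indSub M N U := by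
  intro γ
  have h1 := hf (g⁻¹ * γ)
  have h2 : M.ρ γ⁻¹ (M.ρ g (f ((QuotientGroup.mk g)⁻¹ * QuotientGroup.mk γ))) =
      M.ρ (g⁻¹ * γ)⁻¹ (f (QuotientGroup.mk (g⁻¹ * γ))) := by
    rw [← Module.End.mul_apply, ← map_mul, mul_inv_rev, inv_inv]
    rfl
  rw [← h2] at h1
  exact h1

variable [Finite (Γ ⧸ N)]

/-- the induced representation -/
def indRep : FRep K Γ :=
  haveI : FiniteDimensional K (Γ ⧸ N → M.V) := inferInstance
  { V := indSub M N U
    ρ :=
      { toFun := fun g => (indRho M N g).restrict fun _ hf => indSub_stable M N U g hf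
        map_one' := by
          apply LinearMap.ext
          intro f
          apply Subtype.ext
          change indRho M N 1 (f : Γ ⧸ N → M.V) = f
          rw [map_one]
          rfl
        map_mul' := by
          intro g g'
          apply LinearMap.ext
          intro f
          apply Subtype.ext
          change indRho M N (g * g') (f : Γ ⧸ N → M.V) = indRho M N g (indRho M N g' f)
          rw [map_mul]
          rfl } }

end ind

/-- **The weight operator preserves the subspaces which are stable under a normal subgroup of finite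
index.** -/
theorem theta_stable (D : WeightOp K Γ) {M : FRep K Γ} {N : Subgroup Γ} [N.Normal]
    (hN : N.FiniteIndex) {U : Submodule K M.V} (hU : ∀ g ∈ N, ∀ x ∈ U, M.ρ g x ∈ U) {x : M.V}
    (hx : x ∈ U) : D.Θ M x ∈ U := by
  classical
  have hfin : Finite (Γ ⧸ N) := inferInstance
  let f : (indRep M N U).V →ₗ[K] M.V :=
    { toFun := fun s => (s : indSub M N U).1 1
      map_add' := fun s t => rfl
      map_smul' := fun c s => rfl }
  have hf : ∀ g ∈ N, ∀ s, f ((indRep M N U).ρ g s) = M.ρ g (f s) := by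
    intro g hg s
    change M.ρ g ((s : indSub M N U).1 ((QuotientGroup.mk g)⁻¹ * 1)) = M.ρ g _
    congr 2
    have h1 : (QuotientGroup.mk g : Γ ⧸ N) = 1 := (QuotientGroup.eq_one_iff g).2 hg
    rw [h1, inv_one, one_mul]
    rfl
  have hfU : ∀ s, f s ∈ U := by
    intro s
    have h1 := (s : indSub M N U).2 1
    rw [inv_one, map_one] at h1
    exact h1
  let s0 : Γ ⧸ N → M.V := fun c => if c = 1 then x else 0
  have hs0 : s0 ∈ indSub M N U := by
    intro γ
    by_cases h : (QuotientGroup.mk γ : Γ ⧸ N) = 1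
    · have h1 : s0 (QuotientGroup.mk γ) = x := if_pos h
      rw [h1]
      exact hU _ (N.inv_mem ((QuotientGroup.eq_one_iff γ).1 h)) x hx
    · have h1 : s0 (QuotientGroup.mk γ) = 0 := if_neg h
      rw [h1, map_zero]
      exact U.zero_mem
  let s : (indRep M N U).V := (⟨s0, hs0⟩ : indSub M N U)
  have h1 : f s = x := if_pos rfl
  have h2 := theta_lin D f hN hf s
  rw [h1] at h2
  rw [← h2]
  exact hfU _

/-- **Irreducible adjoint representation**: the representation is irreducible under all subgroups of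
finite index. -/
theorem si_of_irr [IsAlgClosed K] (D : WeightOp K Γ) {M : FRep K Γ} {B : M.V →ₗ[K] M.V →ₗ[K] K} {μ : Γ →* Kˣ}
    (eqv : ∀ g x y, B (M.ρ g x) (M.ρ g y) = (μ g : K) * B x y) (sy : ∀ x y, B x y = B y x)
    (nd : ∀ x, (∀ y, B x y = 0) → x = 0) (hdim : 3 ≤ finrank K M.V)
    (irr : ∀ L : Submodule K (Module.End K M.V), (∀ A ∈ L, Skew B A) →
      (∀ γ : Γ, ∀ A ∈ L, (M.ρ γ * A * M.ρ γ⁻¹ : Module.End K M.V) ∈ L) →
      L = ⊥ ∨ ∀ A, Skew B A → A ∈ L) (hns : ∀ c : K, D.Θ M ≠ c • (1 : Module.End K M.V)) :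
    SI M.ρ := by
  intro Δ hΔ U hU
  by_contra hcon
  rw [not_or] at hcon
  obtain ⟨hU0, hU1⟩ := hcon
  let N := Δ.normalCore
  have hN : N.FiniteIndex := inferInstance
  have hle : N ≤ Δ := Δ.normalCore_le
  -- the skew operators which preserve the translates of `U`
  let L : Submodule K (Module.End K M.V) :=
    { carrier := {A | Skew B A ∧ ∀ γ : Γ, ∀ x ∈ U, M.ρ γ⁻¹ (A (M.ρ γ x)) ∈ U}
      zero_mem' := ⟨fun x y => by simp, fun γ x _ => by simp⟩
      add_mem' := fun {a b} ha hb => ⟨fun x y => by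
        have h1 := ha.1 x y
        have h2 := hb.1 x y
        simp only [LinearMap.add_apply, map_add]
        linear_combination h1 + h2, fun γ x hx => by
          rw [LinearMap.add_apply, map_add]
          exact U.add_mem (ha.2 γ x hx) (hb.2 γ x hx)⟩
      smul_mem' := fun c a ha => ⟨fun x y => by
        have h1 := ha.1 x y
        simp only [LinearMap.smul_apply, map_smul, smul_eq_mul]
        linear_combination c * h1, fun γ x hx => by
          rw [LinearMap.smul_apply, map_smul]
          exact U.smul_mem c (ha.2 γ x hx)⟩ }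
  have hconj : ∀ γ : Γ, ∀ A ∈ L, (M.ρ γ * A * M.ρ γ⁻¹ : Module.End K M.V) ∈ L := by
    intro g A hA
    refine ⟨fun x y => ?_, fun γ x hx => ?_⟩
    · have h1 := hA.1 (M.ρ g⁻¹ x) (M.ρ g⁻¹ y)
      have h2 := eqv g (A (M.ρ g⁻¹ x)) (M.ρ g⁻¹ y)
      have h3 := eqv g (M.ρ g⁻¹ x) (A (M.ρ g⁻¹ y))
      rw [FRep.inv_right M] at h2 h3
      refine (congrArg₂ (· + ·) h2 h3).trans ?_
      rw [← mul_add, h1, mul_zero]
    · have h1 := hA.2 (g⁻¹ * γ) x hx
      have h2 : M.ρ γ⁻¹ ((M.ρ g * A * M.ρ g⁻¹ : Module.End K M.V) (M.ρ γ x)) =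
          M.ρ (g⁻¹ * γ)⁻¹ (A (M.ρ (g⁻¹ * γ) x)) := by
        rw [mul_inv_rev, inv_inv, map_mul, map_mul]
        rfl
      rw [h2]
      exact h1
  obtain ⟨a, ha⟩ := exists_mult D eqv
  have hΘ : D.Θ M - (a / 2) • (1 : Module.End K M.V) ∈ L := by
    refine ⟨fun x y => ?_, fun γ x hx => ?_⟩
    · have h2 := ha x y
      simp only [LinearMap.sub_apply, LinearMap.smul_apply, Module.End.one_apply, map_sub, map_smul,
        smul_eq_mul]
      linear_combination h2
    · rw [LinearMap.sub_apply, LinearMap.smul_apply, Module.End.one_apply, map_sub, map_smul,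
        FRep.inv_left M]
      refine U.sub_mem ?_ (U.smul_mem _ hx)
      -- the translate of `U`
      let U' : Submodule K M.V := U.comap (M.ρ γ⁻¹)
      have h1 : D.Θ M (M.ρ γ x) ∈ U' := by
        refine theta_stable D hN (U := U') (fun g hg y hy => ?_) ?_
        · change M.ρ γ⁻¹ (M.ρ g y) ∈ U
          have h2 : M.ρ γ⁻¹ (M.ρ g y) = M.ρ (γ⁻¹ * g * γ) (M.ρ γ⁻¹ y) := by
            rw [← Module.End.mul_apply, ← Module.End.mul_apply, ← map_mul, ← map_mul]
            congr 2
            group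
          rw [h2]
          refine hU _ (hle ?_) _ hy
          have h3 := (inferInstance : N.Normal).conj_mem g hg γ⁻¹
          rwa [inv_inv] at h3
        · change M.ρ γ⁻¹ (M.ρ γ x) ∈ U
          rw [FRep.inv_left M]
          exact hx
      exact h1
  rcases irr L (fun A hA => hA.1) hconj with h1 | h1
  · rw [h1, Submodule.mem_bot] at hΘ
    exact hns _ (sub_eq_zero.1 hΘ)
  · obtain ⟨A, hA, x, hx, hAx⟩ := exists_skew_not (U := U) sy nd hdim hU0 hU1
    apply hAx
    have h2 := (h1 A hA).2 1 x hx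
    rw [inv_one, map_one] at h2
    exact h2

/-- the representation -/
def toRpP (M : FRep K Γ) : P.Rp K Γ := { V := M.V, act := M.ρ }

/-- the weight operator -/
def toWP (D : P.WeightOps K Γ) : WeightOp K Γ where
  Θ M := D.Θ (toRpP M)
  der := by
    intro S _ _ M M' h hh v
    exact D.der S (fun j => toRpP (M j)) (toRpP M') h hh v

/-- a linear equivariant map -/
theorem linP_comm (D : P.WeightOps K Γ) {M M' : P.Rp K Γ} (f : M.V →ₗ[K] M'.V)
    (hf : ∀ g x, f (M.act g x) = M'.act g (f x)) (x : M.V) : f (D.Θ M x) = D.Θ M' (f x) := by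
  let h : MultilinearMap K (fun _ : Unit => M.V) M'.V :=
    { toFun := fun v => f (v ())
      map_update_add' := by
        intro _ v i x y
        cases i
        simp
      map_update_smul' := by
        intro _ v i q x
        cases i
        simp }
  have h1 := D.der Unit (fun _ => M) M' h ⟨⊤, inferInstance, fun g _ v => hf g (v ())⟩ (fun _ => x)
  rw [Fintype.sum_unique] at h1
  refine Eq.trans ?_ h1
  change _ = f (update (fun _ => x) (default : Unit) (D.Θ M x) ())
  rw [show (() : Unit) = default from rfl, update_self]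

/-- weights of subspaces -/
theorem weightsOnP {A : Type} [Ring A] [Algebra K A] [FiniteDimensional K A]
    {D : P.WeightOps K Γ} {ρ : Γ →* (A ≃ₐ[K] A)} {U : Submodule K A} {s : Multiset ℤ}
    (h : P.WeightsOn D (fun g x => ρ g x) U s) : Y95.ZT.WeightsOn (toWP D) ρ U s := by
  obtain ⟨M, f, hf, hk, rfl, κ, hκ, b, w, hb, hw⟩ := h
  have hU : ∀ g, ∀ x ∈ LinearMap.range f, ρ g x ∈ LinearMap.range f := by
    rintro g _ ⟨x, rfl⟩
    exact ⟨M.ap g x, hf g x⟩
  refine ⟨hU, κ, hκ, b.map (LinearEquiv.ofInjective f (LinearMap.ker_eq_bot.1 hk)), w,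
    fun k => ?_, hw⟩
  have h1 := linP_comm D (M := M) (M' := toRpP (Y95.ZT.subRep ρ (LinearMap.range f) hU))
    f.rangeRestrict (fun g x => Subtype.ext (hf g x)) (b k)
  rw [hb] at h1
  refine Eq.trans (Eq.trans ?_ h1.symm) (Eq.trans (map_smul f.rangeRestrict (w k : K) (b k)) ?_)
  · rfl
  · rfl

/-- forms which are invariant up to a function -/
theorem hasForm_of_fun {A : Type} [Ring A] [Algebra K A] [FiniteDimensional K A]
    {ρ : Γ →* (A ≃ₐ[K] A)} {U : Submodule K A} (hU : ∀ g, ∀ x ∈ U, ρ g x ∈ U) {s : K}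
    (h : P.FormOn (fun g x => ρ g x) U s) : HasForm s (Y95.ZT.subRep ρ U hU) := by
  obtain ⟨μ, B, h3, h4, h5'⟩ := h
  have h5 : ∀ g, ∀ x ∈ U, ∀ y ∈ U, B (ρ g x) (ρ g y) = (μ g : K) * B x y := h5'
  have key : ∃ μ' : Γ →* Kˣ, ∀ g, ∀ x ∈ U, ∀ y ∈ U, B (ρ g x) (ρ g y) = (μ' g : K) * B x y := by
    by_cases h0 : ∀ x ∈ U, ∀ y ∈ U, B x y = 0
    · refine ⟨1, fun g x hx y hy => ?_⟩
      rw [h0 x hx y hy, h0 _ (hU g x hx) _ (hU g y hy), mul_zero]
    · push Not at h0
      obtain ⟨x, hx, y, hy, hxy⟩ := h0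
      refine ⟨{ toFun := μ
                map_one' := ?_
                map_mul' := fun g g' => ?_ }, h5⟩
      · have h6 := h5 1 x hx y hy
        rw [map_one] at h6
        change B x y = _ at h6
        exact Units.ext (mul_right_cancel₀ hxy (by rw [← h6, Units.val_one, one_mul]))
      · have h6 := h5 (g * g') x hx y hy
        have h7 : B (ρ (g * g') x) (ρ (g * g') y) = (μ g : K) * ((μ g' : K) * B x y) := by
          rw [← h5 g' x hx y hy, map_mul]
          exact h5 g _ (hU g' x hx) _ (hU g' y hy)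
        refine Units.ext (mul_right_cancel₀ hxy ?_)
        rw [Units.val_mul, mul_assoc, ← h7]
        exact h6.symm
  obtain ⟨μ', h6⟩ := key
  refine ⟨μ', B.domRestrict₁₂ U U, fun (x y : U) => h3 x x.2 y y.2, fun (x : U) hx => ?_,
    fun g (x y : U) => h6 g x x.2 y y.2⟩
  exact Subtype.ext (h4 x x.2 fun y hy => hx ⟨y, hy⟩)

end rep

end

end Pool.Agent.T2H43.HF
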