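import Pool.Agent.T2H43.HF.Full
import Pool.Agent.Y132.AH.MT
import Pool.Agent.Y95.ZT.SCnv

/-!
# Tate classes on products
-/

open CategoryTheory AlgebraicGeometry Finset Function

set_option linter.unusedSectionVars false

universe u

namespace Pool.Agent.T2H43.HF

open Pool.Agent.H914 Pool.Agent.H914.VarClass Pool.Agent.H914.VarClass.Obj
  Pool.Agent.H914.WeilCohomology Pool.Agent.H281R3.HT Pool.Agent.W552 Pool.Agent.TH125.Gal
  Pool.Agent.Y127 Pool.Agent.Y127.G Pool.Agent.Y132.AH Pool.Agent.Y95.ZT

variable {k : Type u} [Field k] {𝒱 : VarClass k} {ops : CycleOps 𝒱}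
  {W : WeilCohomology.{u, 0} ops} {Γ : Type} [Group Γ] (G : GaloisData W Γ)

theorem isPowProdG (X Z : 𝒱.Obj) (n : ℕ) :
    IsPowProd (G.var X) n (G.var Z) (G.var ((power ops X n).prod Z)) :=
  IsPowProd.mk (X := G.var X) (Z := G.var Z) (G.act ((power ops X n).prod Z))
    (fun _ g a => G.map _ g a) fun g a => G.map _ g a

/-- **Products are towers.** -/
theorem exists_towerG {ι : Type} [DecidableEq ι] (X : ι → 𝒱.Obj) (Z : 𝒱.Obj) :
    ∀ (N : ℕ) (L : List ι), L.length ≤ N → ∃ (S T : Set ι) (Y : 𝒱.Obj),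
      LTower (fun i => G.var (X i)) (G.var Z) S T (G.var Y) ∧
      (∀ i ∈ S, i ∈ L) ∧ (∀ i ∈ T, i ∈ L ∧ transRank W (X i) ≤ L.count i) ∧
      Nonempty (Y ≅ prodList X Z L) := by
  intro N
  induction N with
  | zero =>
    intro L hL
    obtain rfl : L = [] := List.length_eq_zero_iff.1 (Nat.le_zero.1 hL)
    exact ⟨∅, ∅, Z, LTower.base, fun i hi => absurd hi (Set.notMem_empty i),
      fun i hi => absurd hi (Set.notMem_empty i), ⟨Iso.refl _⟩⟩
  | succ N ih =>
    intro L hL
    cases L with
    | nil =>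
      exact ⟨∅, ∅, Z, LTower.base, fun i hi => absurd hi (Set.notMem_empty i),
        fun i hi => absurd hi (Set.notMem_empty i), ⟨Iso.refl _⟩⟩
    | cons i L =>
      obtain ⟨S, T, Y, hY, hS, hT, ⟨e⟩⟩ := ih (L.filter fun j => j ≠ i)
        ((List.length_filter_le _ _).trans (by rw [List.length_cons] at hL; omega))
      have hiS : i ∉ S := fun hi => by
        have := (List.mem_filter.1 (hS i hi)).2
        simp at this
      have hcnt : (i :: L).count i = L.count i + 1 := List.count_cons_self
      have hfil : (i :: L).filter (fun j => decide (j ≠ i)) = L.filter fun j => decide (j ≠ i) := by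
        rw [List.filter_cons_of_neg]
        simp
      have hperm : (i :: L).Perm (List.replicate (L.count i + 1) i ++
          L.filter fun j => decide (j ≠ i)) := by
        have h1 := perm_count i (i :: L)
        rwa [hcnt, hfil] at h1
      obtain ⟨e1⟩ := iso_perm X Z hperm
      obtain ⟨e2⟩ := iso_replicate (ops := ops) X Z i (L.filter fun j => decide (j ≠ i)) (L.count i)
      have hiso : Nonempty ((power ops (X i) (L.count i)).prod Y ≅ prodList X Z (i :: L)) :=
        ⟨prodIso (Iso.refl _) e ≪≫ e2.symm ≪≫ e1.symm⟩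
      have hpp := isPowProdG G (X i) Y (L.count i)
      have hmemS : ∀ a ∈ insert i S, a ∈ i :: L := by
        intro a ha
        rcases Set.mem_insert_iff.1 ha with rfl | ha
        · exact List.mem_cons_self
        · exact List.mem_cons_of_mem _ (List.mem_filter.1 (hS a ha)).1
      have hcount : ∀ a ∈ T, a ∈ i :: L ∧ transRank W (X a) ≤ (i :: L).count a := by
        intro a ha
        obtain ⟨h1, h2⟩ := hT a ha
        refine ⟨List.mem_cons_of_mem _ (List.mem_filter.1 h1).1, h2.trans ?_⟩
        exact ((List.filter_sublist).count_le a).trans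
          ((List.sublist_cons_self i L).count_le a)
      by_cases hlt : L.count i + 1 < transRank W (X i)
      · exact ⟨insert i S, T, _, LTower.small i (L.count i) hY hiS (fun _ => hlt) hpp, hmemS,
          hcount, hiso⟩
      · refine ⟨insert i S, insert i T, _, LTower.large i (L.count i) hY hiS hpp, hmemS, ?_, hiso⟩
        intro a ha
        rcases Set.mem_insert_iff.1 ha with rfl | ha
        · exact ⟨List.mem_cons_self, by rw [hcnt]; omega⟩
        · exact hcount a ha


variable [IsAlgClosed W.K] {ι : Type} [DecidableEq ι] {X : ι → 𝒱.Obj} {D : WeightOp W.K Γ}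

/-- **Systems of classes and Tate classes on products.** -/
theorem tateIn_tower {Z : 𝒱.Obj} (F : OFam D G.χ (fun i => G.var (X i)) (G.var Z))
    {𝒞 : ClassSystem W} (hZ : TateIn G 𝒞 Z) (L : List ι)
    (hd : ∀ i ∈ L, trDim W (X i) ≤ L.count i → DetIn 𝒞 (X i)) :
    TateIn G 𝒞 (prodList X Z L) := by
  obtain ⟨S, T, Y, hY, hS, hT, ⟨e⟩⟩ := exists_towerG G X Z L.length L le_rfl
  have h1 : TateIn G 𝒞 Y := by
    rw [← classConj_tate]
    refine F.class ((classConj_tate G 𝒞 Z).2 hZ) hY fun i hi => ?_
    obtain ⟨hiL, hle⟩ := hT i hi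
    exact hd i hiL hle
  intro j c hc
  have h2 := 𝒞.map_mem e.inv (h1 j _ (isTate_map G e.hom hc))
  rwa [← W.map_comp, e.inv_hom_id, W.map_id] at h2

end Pool.Agent.T2H43.HF
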