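import Pool.Agent.T2H43.HF.Rep

/-!
# Skew operators which preserve a subspace
-/

set_option autoImplicit false
set_option linter.unusedSectionVars false

namespace Pool.Agent.T2H43.HF

open Module Finset Function Pool.Agent.TH118.SG Pool.Agent.TH125.Gal Pool.Agent.Y127.G
  Pool.Agent.Y127.C

section

variable {K : Type} [Field K] [CharZero K] {V : Type} [AddCommGroup V] [Module K V]
  [FiniteDimensional K V] {B : V →ₗ[K] V →ₗ[K] K}

theorem exists_indep {W : Submodule K V} (h : 2 ≤ finrank K W) :
    ∃ t ∈ W, ∃ t' ∈ W, t ≠ 0 ∧ t' ∉ Submodule.span K {t} := by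
  have h0 : W ≠ ⊥ := by
    rintro rfl
    rw [finrank_bot] at h
    omega
  obtain ⟨t, htW, ht⟩ := (Submodule.ne_bot_iff _).1 h0
  by_contra hcon
  push Not at hcon
  have h1 : W ≤ Submodule.span K {t} := fun x hx => hcon t htW x hx ht
  have h2 := Submodule.finrank_mono h1
  rw [finrank_span_singleton ht] at h2
  omega

theorem oo_ne_zero (nd : ∀ x, (∀ y, B x y = 0) → x = 0) {t t' : V} (ht : t ≠ 0)
    (ht' : t' ∉ Submodule.span K {t}) : oo B 1 t t' ≠ 0 := by
  intro h
  obtain ⟨z, hz⟩ : ∃ z, B t z ≠ 0 := by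
    by_contra hcon
    push Not at hcon
    exact ht (nd t hcon)
  apply ht'
  rw [eq_smul_of_oo h hz]
  exact Submodule.smul_mem _ _ (Submodule.mem_span_singleton_self t)

/-- the orthogonal complement of a vector is large -/
theorem perp_large (u : V) : finrank K V ≤ finrank K (LinearMap.ker (B u)) + 1 := by
  have h1 := LinearMap.finrank_range_add_finrank_ker (B u)
  have h2 : finrank K (LinearMap.range (B u)) ≤ finrank K K := Submodule.finrank_le _
  rw [finrank_self] at h2
  omega

/-- **Some nonzero skew operator preserves `U`.** -/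
theorem exists_skew_pres (sy : ∀ x y, B x y = B y x) (nd : ∀ x, (∀ y, B x y = 0) → x = 0)
    (hdim : 3 ≤ finrank K V) {U : Submodule K V} :
    ∃ A : Module.End K V, Skew B A ∧ A ≠ 0 ∧ ∀ x ∈ U, A x ∈ U := by
  by_cases h2 : 2 ≤ finrank K U
  · obtain ⟨t, htU, t', htU', ht, ht'⟩ := exists_indep h2
    refine ⟨oo B 1 t t', skew_one sy t t', oo_ne_zero nd ht ht', fun x _ => ?_⟩
    rw [oo_one_apply]
    exact Submodule.sub_mem _ (Submodule.smul_mem _ _ htU) (Submodule.smul_mem _ _ htU')
  · obtain ⟨u, hu⟩ : ∃ u : V, U ≤ Submodule.span K {u} := by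
      by_cases h0 : U = ⊥
      · exact ⟨0, by rw [h0]; exact bot_le⟩
      · obtain ⟨u, huU, hu0⟩ := (Submodule.ne_bot_iff _).1 h0
        refine ⟨u, ?_⟩
        have h3 : Submodule.span K {u} ≤ U := by
          rw [Submodule.span_le, Set.singleton_subset_iff]
          exact huU
        have h4 : finrank K U ≤ finrank K (Submodule.span K {u}) := by
          rw [finrank_span_singleton hu0]
          omega
        exact (Submodule.eq_of_le_of_finrank_le h3 h4).ge
    have h3 := perp_large (B := B) u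
    obtain ⟨t, htU, t', htU', ht, ht'⟩ := exists_indep (W := LinearMap.ker (B u)) (by omega)
    rw [LinearMap.mem_ker] at htU htU'
    refine ⟨oo B 1 t t', skew_one sy t t', oo_ne_zero nd ht ht', fun x hx => ?_⟩
    obtain ⟨c, rfl⟩ := Submodule.mem_span_singleton.1 (hu hx)
    rw [oo_one_apply, map_smul, map_smul, sy t u, sy t' u, htU, htU', smul_zero, zero_smul,
      zero_smul, sub_zero]
    exact Submodule.zero_mem _

/-- **Some skew operator does not preserve `U`.** -/
theorem exists_skew_not (sy : ∀ x y, B x y = B y x) (nd : ∀ x, (∀ y, B x y = 0) → x = 0)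
    (hdim : 3 ≤ finrank K V) {U : Submodule K V} (h0 : U ≠ ⊥) (h1 : U ≠ ⊤) :
    ∃ A : Module.End K V, Skew B A ∧ ∃ x ∈ U, A x ∉ U := by
  by_contra hcon
  push Not at hcon
  have key : ∀ u ∈ U, u ≠ 0 → LinearMap.ker (B u) ≤ U := by
    intro u hu hu0 y hy
    rw [LinearMap.mem_ker] at hy
    obtain ⟨s, hs⟩ : ∃ s, B u s ≠ 0 := by
      by_contra hcon
      push Not at hcon
      exact hu0 (nd u hcon)
    have h2 := hcon (oo B 1 y s) (skew_one sy y s) u hu
    rw [oo_one_apply, sy y u, hy, zero_smul, sub_zero, sy s u] at h2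
    have h3 := Submodule.smul_mem _ (B u s)⁻¹ h2
    rwa [smul_smul, inv_mul_cancel₀ hs, one_smul] at h3
  obtain ⟨w, hw⟩ : ∃ w, w ∉ U := by
    by_contra hcon
    push Not at hcon
    exact h1 (eq_top_iff.2 fun x _ => hcon x)
  obtain ⟨u, huU, hu0⟩ := (Submodule.ne_bot_iff _).1 h0
  have h2 := Submodule.finrank_mono (key u huU hu0)
  have h3 := perp_large (B := B) u
  obtain ⟨t, htU, t', htU', ht, ht'⟩ := exists_indep (W := U) (by omega)
  -- a nonzero element of `U` which is orthogonal to `w`
  by_cases htw : B t w = 0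
  · exact hw (key t htU ht (LinearMap.mem_ker.2 htw))
  · set v := t' - (B t' w / B t w) • t with hv
    have hv0 : v ≠ 0 := by
      intro h
      apply ht'
      rw [sub_eq_zero.1 h]
      exact Submodule.smul_mem _ _ (Submodule.mem_span_singleton_self t)
    refine hw (key v (Submodule.sub_mem _ htU' (Submodule.smul_mem _ _ htU)) hv0
      (LinearMap.mem_ker.2 ?_))
    rw [hv, map_sub, map_smul, LinearMap.sub_apply, LinearMap.smul_apply, smul_eq_mul,
      div_mul_cancel₀ _ htw, sub_self]

end

end Pool.Agent.T2H43.HF
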