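import Pool.Agent.T2H43.HF.HLv
import Pool.Agent.T2H43.HF.Irr

/-!
# Families of varieties with large Mumford-Tate group
-/

open CategoryTheory AlgebraicGeometry Finset Function

set_option linter.unusedSectionVars false

universe u

namespace Pool.Agent.T2H43.HF

open Pool.Agent.H914 Pool.Agent.H914.VarClass Pool.Agent.H914.VarClass.Obj
  Pool.Agent.H914.WeilCohomology Pool.Agent.H281R3.HT Pool.Agent.W552 Pool.Agent.TH125.Gal
  Pool.Agent.Y127 Pool.Agent.Y127.G Pool.Agent.Y132.AH Pool.Agent.Y95.ZT Pool.Agent.Y132.AF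
  Pool.Agent.TH118.SG

/-- The adjoint representation is irreducible, so the representation is. -/
theorem stable_of_irr {K : Type} [Field K] [CharZero K] {Γ G : Type} [Group Γ] (s : G → Γ)
    {M : FRep K Γ} {B : M.V →ₗ[K] M.V →ₗ[K] K} {μ : Γ →* Kˣ}
    (eqv : ∀ g x y, B (M.ρ g x) (M.ρ g y) = (μ g : K) * B x y) (sy : ∀ x y, B x y = B y x)
    (nd : ∀ x, (∀ y, B x y = 0) → x = 0) (hdim : 3 ≤ Module.finrank K M.V)
    (irr : ∀ L : Submodule K (Module.End K M.V), (∀ A ∈ L, Skew B A) →
      (∀ g : G, ∀ A ∈ L, (M.ρ (s g) * A * M.ρ (s g)⁻¹ : Module.End K M.V) ∈ L) →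
      L = ⊥ ∨ ∀ A, Skew B A → A ∈ L) {V : Submodule K M.V} (hV : ∀ g, ∀ x ∈ V, M.ρ g x ∈ V) :
    V = ⊥ ∨ V = ⊤ := by
  by_contra hcon
  rw [not_or] at hcon
  obtain ⟨hV0, hV1⟩ := hcon
  let L : Submodule K (Module.End K M.V) :=
    { carrier := {A | Skew B A ∧ ∀ x ∈ V, A x ∈ V}
      zero_mem' := ⟨fun x y => by simp, fun x _ => V.zero_mem⟩
      add_mem' := fun ha hb => ⟨fun x y => by
        have h1 := ha.1 x y
        have h2 := hb.1 x y
        simp only [LinearMap.add_apply, map_add]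
        linear_combination h1 + h2, fun x hx => V.add_mem (ha.2 x hx) (hb.2 x hx)⟩
      smul_mem' := fun c a ha => ⟨fun x y => by
        have h1 := ha.1 x y
        simp only [LinearMap.smul_apply, map_smul, smul_eq_mul]
        linear_combination c * h1, fun x hx => V.smul_mem c (ha.2 x hx)⟩ }
  have hconj : ∀ g : G, ∀ A ∈ L, (M.ρ (s g) * A * M.ρ (s g)⁻¹ : Module.End K M.V) ∈ L := by
    intro g A hA
    refine ⟨fun x y => ?_, fun x hx => hV _ _ (hA.2 _ (hV _ _ hx))⟩
    have h1 := hA.1 (M.ρ (s g)⁻¹ x) (M.ρ (s g)⁻¹ y)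
    have h2 := eqv (s g) (A (M.ρ (s g)⁻¹ x)) (M.ρ (s g)⁻¹ y)
    have h3 := eqv (s g) (M.ρ (s g)⁻¹ x) (A (M.ρ (s g)⁻¹ y))
    rw [FRep.inv_right M] at h2 h3
    refine (congrArg₂ (· + ·) h2 h3).trans ?_
    rw [← mul_add, h1, mul_zero]
  rcases irr L (fun A hA => hA.1) hconj with h1 | h1
  · obtain ⟨A, hA, hA0, hAV⟩ := exists_skew_pres (U := V) sy nd hdim
    have h2 : A ∈ L := ⟨hA, hAV⟩
    rw [h1, Submodule.mem_bot] at h2
    exact hA0 h2
  · obtain ⟨A, hA, x, hx, hAx⟩ := exists_skew_not (U := V) sy nd hdim hV0 hV1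
    exact hAx ((h1 A hA).2 x hx)

/-- an eigenvector of a scalar operator -/
theorem eig_scalar {K V : Type} [Field K] [AddCommGroup V] [Module K V] {J : Module.End K V}
    {c a : K} (hJ : J = c • (1 : Module.End K V)) {x : V} (hx : J x = a • x) (hx0 : x ≠ 0) :
    a = c := by
  have h1 : (a - c) • x = 0 := by
    rw [sub_smul, ← hx, hJ]
    simp
  rcases smul_eq_zero.1 h1 with h5 | h5
  · exact sub_eq_zero.1 h5
  · exact absurd h5 hx0

variable {k : Type u} [Field k] {𝒱 : VarClass k} {ops : CycleOps 𝒱}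
  {W : WeilCohomology.{u, 0} ops} (Ψ : HodgeData W)

theorem skewOp_iff {X : 𝒱.Obj} {N : transcendental W X →ₗ[W.K] transcendental W X} :
    SkewOp (W.tr X) (transcendental W X) N ↔ Skew (rform W X (transcendental W X)) N := Iff.rfl

/-- an operator on the transcendental cohomology -/
def opr {X : 𝒱.Obj} (N : transcendental W X →ₗ[W.K] transcendental W X) :
    Module.End W.K (trRep (galoisType Ψ X)).V := N

/-- conjugates of skew operators -/
theorem conjBy_iff {X : 𝒱.Obj} (g : RingAut W.K × W.Kˣ)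
    (N N' : skewOps (W.tr X) (transcendental W X)) :
    ConjBy (Ψ.on X) (transcendental W X) g N N' ↔
      opr Ψ N'.1 = (trRep (galoisType Ψ X)).ρ (FreeGroup.of g) * opr Ψ N.1 *
        (trRep (galoisType Ψ X)).ρ (FreeGroup.of g)⁻¹ := by
  constructor
  · intro h
    apply LinearMap.ext
    intro t''
    let t' : transcendental W X := t''
    change opr Ψ N'.1 t' = _
    apply Subtype.ext
    set t : transcendental W X := (trRep (galoisType Ψ X)).ρ (FreeGroup.of g)⁻¹ t' with ht
    have h1 : (t' : W.H X) = conjTorus (Ψ.on X) g t := by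
      rw [← conj_eq]
      have h2 : (trRep (galoisType Ψ X)).ρ (FreeGroup.of g) t = t' := by
        rw [ht]
        exact FRep.inv_right (trRep (galoisType Ψ X)) (FreeGroup.of g) t'
      exact (congrArg Subtype.val h2).symm
    have h3 := h t t' h1
    rw [← conj_eq] at h3
    exact h3
  · intro h t t' ht
    have h2 : (trRep (galoisType Ψ X)).ρ (FreeGroup.of g) t = t' := Subtype.ext (by
      rw [ht, ← conj_eq]
      rfl)
    have h3 : (trRep (galoisType Ψ X)).ρ (FreeGroup.of g)⁻¹ t' = t := by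
      rw [← h2]
      exact FRep.inv_left (trRep (galoisType Ψ X)) (FreeGroup.of g) t
    have h4 := LinearMap.congr_fun h t'
    have h5 : ((trRep (galoisType Ψ X)).ρ (FreeGroup.of g) * opr Ψ N.1 *
        (trRep (galoisType Ψ X)).ρ (FreeGroup.of g)⁻¹ :
          Module.End W.K (trRep (galoisType Ψ X)).V) t' =
        (trRep (galoisType Ψ X)).ρ (FreeGroup.of g) (opr Ψ N.1 t) :=
      congrArg (fun s => (trRep (galoisType Ψ X)).ρ (FreeGroup.of g) (opr Ψ N.1 s)) h3
    rw [← conj_eq]
    exact congrArg Subtype.val (h4.trans h5)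

variable {Ψ}

/-- **Irreducible adjoint representation.** -/
theorem BigMT.irr {X : 𝒱.Obj} (h : BigMT (Ψ.on X) (transcendental W X))
    (L : Submodule W.K (Module.End W.K (trRep (galoisType Ψ X)).V))
    (hsk : ∀ A ∈ L, Skew (rform W X (transcendental W X)) A)
    (hconj : ∀ g : RingAut W.K × W.Kˣ, ∀ A ∈ L, ((trRep (galoisType Ψ X)).ρ (FreeGroup.of g) * A *
      (trRep (galoisType Ψ X)).ρ (FreeGroup.of g)⁻¹ :
        Module.End W.K (trRep (galoisType Ψ X)).V) ∈ L) :
    L = ⊥ ∨ ∀ A : Module.End W.K (trRep (galoisType Ψ X)).V,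
      Skew (rform W X (transcendental W X)) A → A ∈ L := by
  let U : Submodule W.K (skewOps (W.tr X) (transcendental W X)) :=
    Submodule.comap (skewOps (W.tr X) (transcendental W X)).subtype L
  have hU : ∀ g : RingAut W.K × W.Kˣ, ∀ x y, ConjBy (Ψ.on X) (transcendental W X) g x y →
      x ∈ U → y ∈ U := by
    intro g x y hxy hx
    have h2 := (conjBy_iff Ψ g x y).1 hxy
    have h3 : opr Ψ y.1 ∈ L := by
      rw [h2]
      exact hconj g (opr Ψ x.1) hx
    exact h3
  rcases h.irreducible U hU with h1 | h1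
  · left
    refine (Submodule.eq_bot_iff L).2 fun A hA => ?_
    have h2 : (⟨A, hsk A hA⟩ : skewOps (W.tr X) (transcendental W X)) ∈ U := hA
    rw [h1, Submodule.mem_bot] at h2
    exact congrArg Subtype.val h2
  · right
    intro A hA
    have h2 : (⟨A, hA⟩ : skewOps (W.tr X) (transcendental W X)) ∈ U := by
      rw [h1]
      exact Submodule.mem_top
    exact h2

/-- The transcendental cohomology is irreducible. -/
theorem BigMT.mtIrreducible {X : 𝒱.Obj} (he : EvenMiddle W X)
    (h : BigMT (Ψ.on X) (transcendental W X)) :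
    MTIrreducible (Ψ.on X) (transcendental W X) := by
  intro U hUT hU
  let V : Submodule W.K (transcendental W X) := U.comap (transcendental W X).subtype
  have h0 : V = ⊥ ∨ V = ⊤ := stable_of_irr (fun g : RingAut W.K × W.Kˣ => FreeGroup.of g)
    (M := trRep (galoisType Ψ X)) (B := rform W X (transcendental W X)) (V := V)
    (fun g x y => tr_eqv (galoisType Ψ X) g x y)
    (fun x y => tr_sy (X := actv Ψ X) he.middle he.even x y) (trans_nondeg he.homEqNum)
    h.dim.1 h.irr (fun g x hx => stable_all Ψ hU g (x : transcendental W X).1 hx)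
  rcases h0 with h0 | h0
  · left
    rw [eq_bot_iff]
    intro x hx
    have h1 : (⟨x, hUT hx⟩ : transcendental W X) ∈ V := hx
    rw [h0, Submodule.mem_bot] at h1
    exact congrArg Subtype.val h1
  · right
    refine le_antisymm hUT fun x hx => ?_
    have h1 : (⟨x, hx⟩ : transcendental W X) ∈ V := by
      rw [h0]
      exact Submodule.mem_top
    exact h1

variable [IsAlgClosed W.K]

/-- The weight operator is not a scalar. -/
theorem BigMT.not_scalar {X : 𝒱.Obj} (h : BigMT (Ψ.on X) (transcendental W X)) (c : W.K) :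
    (hop W.K).Θ (trRep (galoisType Ψ X)) ≠
      c • (1 : Module.End W.K (trRep (galoisType Ψ X)).V) := by
  obtain ⟨a, b, a', b', ⟨x, hxT, hxH, hx0⟩, ⟨y, hyT, hyH, hy0⟩, hne⟩ := h.types
  intro hc
  have key : ∀ {a b : ℕ} {x : W.H X} (hxT : x ∈ transcendental W X),
      x ∈ Ψ.hodge X (a, b) → x ≠ 0 → (a : W.K) = c := by
    intro a b x hxT hxH hx0
    exact eig_scalar hc (x := (⟨x, hxT⟩ : transcendental W X))
      (hop_sub Ψ (trans_stable Ψ X) hxT hxH) fun h0 => hx0 (congrArg Subtype.val h0)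
  have h1 := key hxT hxH hx0
  have h2 := key hyT hyH hy0
  rw [← h2] at h1
  exact hne (Nat.cast_injective h1)

/-- The orthogonal representation. -/
noncomputable def BigMT.rep {X : 𝒱.Obj} (he : EvenMiddle W X)
    (h : BigMT (Ψ.on X) (transcendental W X)) : ORep (hop W.K) (trRep (galoisType Ψ X)) :=
  orep_of_irr (rform W X (transcendental W X)) (hchar W.K ^ X.dim)
    (fun g x y => tr_eqv (galoisType Ψ X) g x y)
    (fun x y => tr_sy (X := actv Ψ X) he.middle he.even x y) (trans_nondeg he.homEqNum)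
    (SI_rhoT (P := (⟨X, 0⟩ : Polarized 𝒱)) (isGalois (galoisType Ψ X))
      (irredAct_of Ψ (h.mtIrreducible he)))
    (by
      have h1 := h.dim.1
      have h2 := h.dim.2
      change Module.finrank W.K (transcendental W X) = 3 ∨
        5 ≤ Module.finrank W.K (transcendental W X)
      omega)
    (fun L hsk hconj => h.irr L hsk fun g A hA => hconj (FreeGroup.of g) A hA)
    h.not_scalar

theorem inj_of_skew {K V V' : Type} [Field K] [AddCommGroup V] [Module K V] [AddCommGroup V']
    [Module K V'] {B : V →ₗ[K] V →ₗ[K] K} (Φ : Module.End K V →ₗ[K] Module.End K V')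
    (h : ∀ N, Skew B N → Φ N = 0 → N = 0) {N N' : Module.End K V} (hN : Skew B N)
    (hN' : Skew B N') (he : Φ N = Φ N') : N = N' := by
  refine sub_eq_zero.1 (h _ (fun x y => ?_) (by rw [map_sub, he, sub_self]))
  have h1 := hN x y
  have h2 := hN' x y
  simp only [LinearMap.sub_apply, map_sub]
  linear_combination h1 - h2

theorem not_adI {X Y : 𝒱.Obj} (h : ¬SameAdjoint Ψ X Y) :
    ¬AdI (M := trRep (galoisType Ψ Y)) (M' := trRep (galoisType Ψ X))
      (rform W Y (transcendental W Y)) (rform W X (transcendental W X)) := by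
  rintro ⟨Φ, h1, h2, h3, h4⟩
  let f : skewOps (W.tr X) (transcendental W X) →ₗ[W.K] skewOps (W.tr Y) (transcendental W Y) :=
    { toFun := fun N => ⟨Φ (opr Ψ N.1), h1 (opr Ψ N.1) N.2⟩
      map_add' := fun N N' => Subtype.ext (map_add Φ (opr Ψ N.1) (opr Ψ N'.1))
      map_smul' := fun c N => Subtype.ext (map_smul Φ c (opr Ψ N.1)) }
  have hf : Function.Bijective f := by
    constructor
    · intro N N' hN
      have h5 : Φ (opr Ψ N.1) = Φ (opr Ψ N'.1) := congrArg Subtype.val hN
      exact Subtype.ext (inj_of_skew Φ h2 N.2 N'.2 h5)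
    · rintro ⟨N, hN⟩
      obtain ⟨A, hA, hAN⟩ := h3 N hN
      exact ⟨⟨A, hA⟩, Subtype.ext hAN⟩
  refine h ⟨LinearEquiv.ofBijective f hf, fun g x y hxy => ?_⟩
  have h5 := (conjBy_iff Ψ g x y).1 hxy
  refine (conjBy_iff Ψ g _ _).2 ?_
  exact (congrArg Φ h5).trans (h4 (FreeGroup.of g) (opr Ψ x.1) x.2)

theorem exists_oFam_big {ι : Type} {X : ι → 𝒱.Obj} {Z : 𝒱.Obj}
    (hX : OrthogonalFamily Ψ X) (hZ : ∀ i, SmallBase Ψ (X i) Z) :
    Nonempty (OFam (hop W.K) (hchar W.K) (fun i => actv Ψ (X i)) (actv Ψ Z)) := by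
  refine ⟨{ var := fun i => oVar Ψ (hX.middle i) ?_
            rep := fun i => (hX.big i).rep (hX.middle i)
            repB := fun i => rfl
            apart := fun i j hij => ?_
            small := fun i => base_of Ψ (hX.middle i).middle (hZ i) }⟩
  · have h1 := (hX.big i).dim.1
    omega
  · rcases hX.notIso j i hij.symm with h1 | ⟨h1, h2⟩
    · exact Or.inl (not_adI h1)
    · exact Or.inr ⟨not_iso Ψ h2, Or.inl h1⟩

end Pool.Agent.T2H43.HF
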