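import Pool.Agent.T2H43.HF.HSm

/-!
# Families of varieties of level two
-/

open CategoryTheory AlgebraicGeometry Finset Function

set_option linter.unusedSectionVars false

universe u

namespace Pool.Agent.T2H43.HF

open Pool.Agent.H914 Pool.Agent.H914.VarClass Pool.Agent.H914.VarClass.Obj
  Pool.Agent.H914.WeilCohomology Pool.Agent.H281R3.HT Pool.Agent.W552 Pool.Agent.TH125.Gal
  Pool.Agent.Y127 Pool.Agent.Y127.G Pool.Agent.Y132.AH Pool.Agent.Y95.ZT Pool.Agent.Y132.AF
  Pool.Agent.TH118.SG

theorem sum_lvDim (p q h : ℕ) (f : ℕ → ℕ) :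
    ∑ a ∈ Finset.range (2 * h + 2 + 1), lvDim p q h a * f a =
      p * f h + q * f (h + 1) + p * f (h + 2) := by
  classical
  have h1 : ({h, h + 1, h + 2} : Finset ℕ) ⊆ Finset.range (2 * h + 2 + 1) := by
    intro a ha
    simp only [Finset.mem_insert, Finset.mem_singleton] at ha
    rw [Finset.mem_range]
    omega
  rw [← Finset.sum_subset h1 fun a _ ha => ?_]
  · rw [Finset.sum_insert (by simp), Finset.sum_insert (by simp), Finset.sum_singleton]
    have e1 : lvDim p q h h = p := by simp [lvDim]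
    have e2 : lvDim p q h (h + 1) = q := by simp [lvDim]
    have e3 : lvDim p q h (h + 2) = p := by simp [lvDim]
    rw [e1, e2, e3]
    ring
  · simp only [Finset.mem_insert, Finset.mem_singleton, not_or] at ha
    have e1 : lvDim p q h a = 0 := by
      rw [lvDim, if_neg (by omega), if_neg (by omega)]
    rw [e1, zero_mul]

theorem weights_lv {κ : Type} [Fintype κ] {w : κ → ℕ} {p q h : ℕ} {d : ℕ → ℕ}
    (hw : ∀ f : ℕ → ℕ, ∑ k, f (w k) = ∑ a ∈ Finset.range (2 * h + 2 + 1), d a * f a)
    (hd : ∀ a ∈ Finset.range (2 * h + 2 + 1), d a = lvDim p q h a) :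
    (univ : Finset κ).val.map (fun k => (w k : ℤ)) = Y95.ZT.lvW p q ((h : ℤ) + 1) := by
  classical
  have hw' : ∀ f : ℕ → ℕ, ∑ k, f (w k) = p * f h + q * f (h + 1) + p * f (h + 2) := by
    intro f
    rw [hw f, ← sum_lvDim p q h f]
    exact Finset.sum_congr rfl fun a ha => by rw [hd a ha]
  apply Multiset.ext.2
  intro z
  have h1 : ((univ : Finset κ).val.map fun k => (w k : ℤ)).count z =
      ∑ k, if (w k : ℤ) = z then 1 else 0 := by
    rw [Multiset.count_map, ← Finset.card_filter, Finset.card_def, Finset.filter_val]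
    congr 1
    exact Multiset.filter_congr fun x _ => eq_comm
  have h2 := hw' fun a => if (a : ℤ) = z then 1 else 0
  rw [h1]
  refine h2.trans ?_
  rw [Y95.ZT.lvW, Multiset.count_add, Multiset.count_add, Multiset.count_replicate,
    Multiset.count_replicate, Multiset.count_replicate]
  push_cast
  split_ifs <;> omega

variable {k : Type u} [Field k] {𝒱 : VarClass k} {ops : CycleOps 𝒱}
  {W : WeilCohomology.{u, 0} ops} (Ψ : HodgeData W) [IsAlgClosed W.K]

/-- irreducible under the generators, irreducible under all subgroups of finite index -/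
theorem irredAct_of {X : 𝒱.Obj} {T : Submodule W.K (W.H X)} (h : MTIrreducible (Ψ.on X) T) :
    IrredAct (ract Ψ X) T := by
  intro Δ hΔ U hUT hU
  refine h U hUT fun g x hx => ?_
  obtain ⟨σ, z⟩ := g
  have hn : 0 < Δ.index.factorial := Nat.factorial_pos _
  obtain ⟨w, hw⟩ := IsAlgClosed.exists_pow_nat_eq (z : W.K) hn
  have hw0 : w ≠ 0 := by
    rintro rfl
    rw [zero_pow hn.ne'] at hw
    exact z.ne_zero hw.symm
  have hwz : (Units.mk0 w hw0) ^ Δ.index.factorial = z := Units.ext (by
    rw [Units.val_pow_eq_pow_val]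
    exact hw)
  have h1 : FreeGroup.of (σ, Units.mk0 w hw0) ^ Δ.index.factorial ∈ Δ :=
    Subgroup.pow_mem_of_index_ne_zero_of_dvd hΔ.index_ne_zero _ fun m hm0 hm =>
      Nat.dvd_factorial hm0 hm
  have h2 := hU _ h1 x hx
  rw [ract, map_pow, hact_of, ctor_pow, hwz] at h2
  exact h2

theorem oVar {X : 𝒱.Obj} (h : EvenMiddle W X)
    (hpos : 0 < Module.finrank W.K (transcendental W X)) : OVar (hchar W.K) (actv Ψ X) where
  galois := galoisType Ψ X
  homEqNum := h.homEqNum
  even := h.even
  middle := h.middle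
  pos := hpos

/-- Varieties of level two. -/
theorem lvType {X : 𝒱.Obj} {p q : ℕ} (h : EvenMiddle W X)
    (hX : LevelTwo (Ψ.on X) (transcendental W X) p q) :
    Y95.ZT.LvType (hop W.K) (hchar W.K) p q (actv Ψ X) where
  galois := galoisType Ψ X
  homEqNum := h.homEqNum
  even := h.even
  middle := h.middle
  irreducible := irredAct_of Ψ hX.irreducible
  weights := by
    obtain ⟨z, hz, hd⟩ := hX.types
    obtain ⟨κ, hκ, b, w, hb, -, hw⟩ := exists_weights Ψ (trans_stable Ψ X) h.middle
    refine ⟨(z : ℤ) + 1, trans_stable Ψ X, κ, hκ, b, fun k => (w k : ℤ), fun k => ?_, ?_⟩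
    · rw [Int.cast_natCast]
      exact hb k
    · refine weights_lv (h := z)
        (d := fun a => typeDim (Ψ.on X) (transcendental W X) a (X.dim - a)) (fun f => ?_)
        fun a ha => ?_
      · have h1 := hw f
        have h2 : Finset.range (2 * z + 2 + 1) = Finset.range (X.dim + 1) := by rw [hz]
        rw [h2]
        exact h1
      · rw [Finset.mem_range] at ha
        exact hd a _ (by omega)
  num := hX.num

theorem not_iso {X Y : 𝒱.Obj} (h : ¬SameUpTo (Ψ.on X) (transcendental W X) (Ψ.on Y)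
    (transcendental W Y)) : ¬IsoUpTo (trRep (galoisType Ψ X)) (trRep (galoisType Ψ Y)) := by
  rintro ⟨ψ, ε, hψ⟩
  refine h ⟨ψ, fun g => ε (FreeGroup.of g), fun g x y hxy => ?_⟩
  have h1 : (trRep (galoisType Ψ X)).ρ (FreeGroup.of g) x = y := Subtype.ext (by
    rw [hxy, ← conj_eq]
    rfl)
  have h2 := hψ (FreeGroup.of g) x
  rw [h1] at h2
  refine (congrArg Subtype.val h2).trans ?_
  rw [← conj_eq]
  rfl

theorem exists_oFam_lv (e : W.K ≃+* ℂ) {ι : Type} {X : ι → 𝒱.Obj} {Z : 𝒱.Obj} {p q : ι → ℕ}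
    (hX : LevelTwoFamily Ψ p q X) (hZ : ∀ i, SmallBase Ψ (X i) Z) :
    Nonempty (OFam (hop W.K) (hchar W.K) (fun i => actv Ψ (X i)) (actv Ψ Z)) := by
  have hlv := fun i => lvType Ψ (hX.middle i) (hX.lv i)
  choose R hR using fun i => exists_lvRep (hlv i)
  refine ⟨{ var := fun i => oVar Ψ (hX.middle i) ?_
            rep := fun i => orep_of_lv e (R i)
            repB := hR
            apart := fun i j hij => Or.inr ⟨not_iso Ψ (hX.notIso j i hij.symm),
              Or.inr ⟨⟨_, _, _, (R i).weights, (R i).num⟩, ⟨_, _, _, (R j).weights, (R j).num⟩⟩⟩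
            small := fun i => ?_ }⟩
  · have h1 := (hlv i).pos
    change 3 ≤ Module.finrank W.K (transcendental W (X i)) at h1
    omega
  · obtain ⟨m, M, f, h1, h2, h3⟩ := base_of Ψ (hX.middle i).middle (hZ i)
    refine ⟨m, M, f, fun a => ?_, h2, h3⟩
    have h4 := h1 a
    rw [← hR i] at h4
    exact h4

end Pool.Agent.T2H43.HF
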