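import Pool.Agent.T2H43.HF.Twr
import Pool.Agent.Y132.AH.Full

/-!
# Lists and towers
-/

open CategoryTheory AlgebraicGeometry Finset Function

set_option linter.unusedSectionVars false

universe u

namespace Pool.Agent.T2H43.HF

open Pool.Agent.H914 Pool.Agent.H914.VarClass Pool.Agent.H914.VarClass.Obj
  Pool.Agent.H914.WeilCohomology Pool.Agent.H281R3.HT Pool.Agent.W552 Pool.Agent.TH125.Gal
  Pool.Agent.Y127 Pool.Agent.Y127.G Pool.Agent.Y132.AH

variable {k : Type u} [Field k] {𝒱 : VarClass k} {ops : CycleOps 𝒱}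

/-- permutations of the factors -/
theorem iso_perm {ι : Type} (X : ι → 𝒱.Obj) (Z : 𝒱.Obj) {L L' : List ι} (h : L.Perm L') :
    Nonempty (prodList X Z L ≅ prodList X Z L') := by
  induction h with
  | nil => exact ⟨Iso.refl _⟩
  | cons i _ ih =>
    obtain ⟨e⟩ := ih
    exact ⟨prodIso (Iso.refl (X i)) e⟩
  | swap i j L => exact ⟨exchIso (X j) (X i) (prodList X Z L)⟩
  | trans _ _ ih ih' =>
    obtain ⟨e⟩ := ih
    obtain ⟨e'⟩ := ih'
    exact ⟨e ≪≫ e'⟩

/-- a power as a product -/
theorem iso_replicate {ι : Type} (X : ι → 𝒱.Obj) (Z : 𝒱.Obj) (i : ι) (L : List ι) (n : ℕ) :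
    Nonempty (prodList X Z (List.replicate (n + 1) i ++ L) ≅
      (power ops (X i) n).prod (prodList X Z L)) := by
  induction n with
  | zero => exact ⟨Iso.refl _⟩
  | succ n ih =>
    obtain ⟨e⟩ := ih
    exact ⟨prodIso (Iso.refl (X i)) e ≪≫ (assocIso (X i) (power ops (X i) n)
      (prodList X Z L)).symm⟩

theorem perm_count {ι : Type} [DecidableEq ι] (i : ι) (L : List ι) :
    L.Perm (List.replicate (L.count i) i ++ L.filter (fun j => j ≠ i)) := by
  rw [List.perm_iff_count]
  intro j
  rw [List.count_append, List.count_replicate]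
  by_cases hj : i = j
  · subst hj
    have h1 : (L.filter fun j => decide (j ≠ i)).count i = 0 := by
      rw [List.count_eq_zero]
      intro h
      have := (List.mem_filter.1 h).2
      simp at this
    rw [h1, add_zero, if_pos (by simp)]
  · have h1 : (L.filter fun j => decide (j ≠ i)).count j = L.count j := by
      rw [List.count_filter]
      simp [Ne.symm hj]
    rw [h1, if_neg (by simp [hj]), zero_add]

variable {W : WeilCohomology.{u, 0} ops} (Ψ : HodgeData W)

theorem isPowProd (X Z : 𝒱.Obj) (n : ℕ) :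
    IsPowProd (actv Ψ X) n (actv Ψ Z) (actv Ψ ((power ops X n).prod Z)) :=
  IsPowProd.mk (X := actv Ψ X) (Z := actv Ψ Z) (ract Ψ ((power ops X n).prod Z))
    (fun _ g a => hact_map Ψ _ g a) fun g a => hact_map Ψ _ g a

/-- **Products are towers.** -/
theorem exists_tower {ι : Type} [DecidableEq ι] (X : ι → 𝒱.Obj) (Z : 𝒱.Obj) :
    ∀ (N : ℕ) (L : List ι), L.length ≤ N → ∃ (S T : Set ι) (Y : 𝒱.Obj),
      LTower (fun i => actv Ψ (X i)) (actv Ψ Z) S T (actv Ψ Y) ∧
      (∀ i ∈ S, i ∈ L) ∧ (∀ i ∈ T, i ∈ L ∧ transRank W (X i) ≤ L.count i) ∧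
      Nonempty (Y ≅ prodList X Z L) := by
  intro N
  induction N with
  | zero =>
    intro L hL
    obtain rfl : L = [] := List.length_eq_zero_iff.1 (Nat.le_zero.1 hL)
    exact ⟨∅, ∅, Z, LTower.base, fun i hi => absurd hi (Set.notMem_empty i),
      fun i hi => absurd hi (Set.notMem_empty i), ⟨Iso.refl _⟩⟩
  | succ N ih =>
    intro L hL
    cases L with
    | nil =>
      exact ⟨∅, ∅, Z, LTower.base, fun i hi => absurd hi (Set.notMem_empty i),
        fun i hi => absurd hi (Set.notMem_empty i), ⟨Iso.refl _⟩⟩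
    | cons i L =>
      obtain ⟨S, T, Y, hY, hS, hT, ⟨e⟩⟩ := ih (L.filter fun j => j ≠ i)
        ((List.length_filter_le _ _).trans (by rw [List.length_cons] at hL; omega))
      have hiS : i ∉ S := fun hi => by
        have := (List.mem_filter.1 (hS i hi)).2
        simp at this
      have hcnt : (i :: L).count i = L.count i + 1 := List.count_cons_self
      have hfil : (i :: L).filter (fun j => decide (j ≠ i)) = L.filter fun j => decide (j ≠ i) := by
        rw [List.filter_cons_of_neg]
        simp
      have hperm : (i :: L).Perm (List.replicate (L.count i + 1) i ++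
          L.filter fun j => decide (j ≠ i)) := by
        have h1 := perm_count i (i :: L)
        rwa [hcnt, hfil] at h1
      obtain ⟨e1⟩ := iso_perm X Z hperm
      obtain ⟨e2⟩ := iso_replicate (ops := ops) X Z i (L.filter fun j => decide (j ≠ i)) (L.count i)
      have hiso : Nonempty ((power ops (X i) (L.count i)).prod Y ≅ prodList X Z (i :: L)) :=
        ⟨prodIso (Iso.refl _) e ≪≫ e2.symm ≪≫ e1.symm⟩
      have hpp := isPowProd Ψ (X i) Y (L.count i)
      have hmemS : ∀ a ∈ insert i S, a ∈ i :: L := by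
        intro a ha
        rcases Set.mem_insert_iff.1 ha with rfl | ha
        · exact List.mem_cons_self
        · exact List.mem_cons_of_mem _ (List.mem_filter.1 (hS a ha)).1
      have hcount : ∀ a ∈ T, a ∈ i :: L ∧ transRank W (X a) ≤ (i :: L).count a := by
        intro a ha
        obtain ⟨h1, h2⟩ := hT a ha
        refine ⟨List.mem_cons_of_mem _ (List.mem_filter.1 h1).1, h2.trans ?_⟩
        exact ((List.filter_sublist).count_le a).trans
          ((List.sublist_cons_self i L).count_le a)
      by_cases hlt : L.count i + 1 < transRank W (X i)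
      · exact ⟨insert i S, T, _, LTower.small i (L.count i) hY hiS (fun _ => hlt) hpp, hmemS,
          hcount, hiso⟩
      · refine ⟨insert i S, insert i T, _, LTower.large i (L.count i) hY hiS hpp, hmemS, ?_, hiso⟩
        intro a ha
        rcases Set.mem_insert_iff.1 ha with rfl | ha
        · exact ⟨List.mem_cons_self, by rw [hcnt]; omega⟩
        · exact hcount a ha

/-- the power with the two notations -/
theorem iso_powN (X : 𝒱.Obj) (n : ℕ) : Nonempty (power ops X n ≅ powN X n) := by
  induction n with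
  | zero => exact ⟨Iso.refl _⟩
  | succ n ih =>
    obtain ⟨e⟩ := ih
    exact ⟨prodIso (Iso.refl X) e⟩

end Pool.Agent.T2H43.HF
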