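import Pool.Agent.Y132.AH.FDefs

/-!
# Varieties of orthogonal type and small varieties: definitions
-/

open CategoryTheory AlgebraicGeometry

universe u

namespace Pool.Agent.T2H43.HF

open Pool.Agent.Y132.AH Pool.Agent.Y132.AF

section Alg

variable {K : Type} [Field K] {A : Type} [Ring A] [Algebra K A] {gr : ℕ → Submodule K A} {n : ℕ}
  {tr : A →ₗ[K] K} {C : ℕ → Set A}

/-- The dimension of the space of the elements of `U` of type `(a, b)`. -/
noncomputable def typeDim (Ψ : HodgeAlg gr n tr C) (U : Submodule K A) (a b : ℕ) : ℕ :=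
  Module.finrank K ((Ψ.hodge (a, b)).comap U.subtype)

/-- For a space `U` in degree `m` with the numbers `h^(a, m - a)`: the sum of the products
`h^(a, m - a) h^(b, m - b)` for `a = b + c`. (This is the dimension of the space of the operators on
`U` of type `(c, -c)`.) -/
noncomputable def gapDim (Ψ : HodgeAlg gr n tr C) (U : Submodule K A) (m c : ℕ) : ℕ :=
  ∑ a ∈ Finset.range (m + 1), ∑ b ∈ Finset.range (m + 1),
    if a = b + c then typeDim Ψ U a (m - a) * typeDim Ψ U b (m - b) else 0

/-- For a space `T` in degree `m` with the numbers `h^(a, m - a)`: the sum of the products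
`h^(a, m - a) h^(b, m - b)` for `a < b` with `a + b = m + c`, and of `h (h - 1) / 2` for
`h = h^(a, m - a)` if `2 a = m + c`. (This is the dimension of the space of the operators on `T` of
type `(c, -c)` which are skew with respect to a nondegenerate symmetric form.) -/
noncomputable def skewDim (Ψ : HodgeAlg gr n tr C) (T : Submodule K A) (m c : ℕ) : ℕ :=
  ((∑ a ∈ Finset.range (m + 1), ∑ b ∈ Finset.range (m + 1),
    if a + b = m + c then typeDim Ψ T a (m - a) * typeDim Ψ T b (m - b) else 0) -
    ∑ a ∈ Finset.range (m + 1), if 2 * a = m + c then typeDim Ψ T a (m - a) else 0) / 2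

/-- The space `U` carries a nondegenerate form `B` with `B(x, y) = s B(y, x)` which is invariant
under the Mumford-Tate group up to scalars. -/
def HodgeForm (Ψ : HodgeAlg gr n tr C) (U : Submodule K A) (s : K) : Prop :=
  ∃ (μ : RingAut K × Kˣ → Kˣ) (B : A →ₗ[K] A →ₗ[K] K), (∀ x ∈ U, ∀ y ∈ U, B x y = s * B y x) ∧
    (∀ x ∈ U, (∀ y ∈ U, B x y = 0) → x = 0) ∧
    ∀ g, ∀ x ∈ U, ∀ y ∈ U, B (conjTorus Ψ g x) (conjTorus Ψ g y) = (μ g : K) * B x y

variable {A' : Type} [Ring A'] [Algebra K A'] {gr' : ℕ → Submodule K A'} {n' : ℕ}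
  {tr' : A' →ₗ[K] K} {C' : ℕ → Set A'}

/-- The space `U` is small with respect to `T`: it is in one degree `m`, and for some number `c` the
dimension of the space of the operators on `U` of type `(c, -c)` is smaller than the dimension of
the space of the skew operators on `T` of type `(c, -c)`; or `U` carries a symmetric form and
`dim U < dim T`; or `U` carries an alternating form and `dim U + 1 < dim T`. -/
def SmallFor (Ψ : HodgeAlg gr n tr C) (U : Submodule K A) (Ψ' : HodgeAlg gr' n' tr' C')
    (T : Submodule K A') : Prop :=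
  (∃ m c, U ≤ gr m ∧ gapDim Ψ U m c < skewDim Ψ' T n' c) ∨
  (HodgeForm Ψ U 1 ∧ Module.finrank K U < Module.finrank K T) ∨
  (HodgeForm Ψ U (-1) ∧ Module.finrank K U + 1 < Module.finrank K T)

/-- The algebra is generated by subspaces which are stable under the Mumford-Tate group and small
with respect to `T`. -/
def GenSmallFor (Ψ : HodgeAlg gr n tr C) (Ψ' : HodgeAlg gr' n' tr' C') (T : Submodule K A') :
    Prop :=
  ∃ 𝒰 : Set (Submodule K A), StabGen (conjTorus Ψ) 𝒰 ∧ ∀ U ∈ 𝒰, SmallFor Ψ U Ψ' T

/-- No nonzero proper subspace of `T` is stable under the Mumford-Tate group. -/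
def MTIrreducible (Ψ : HodgeAlg gr n tr C) (T : Submodule K A) : Prop :=
  ∀ U ≤ T, (∀ g, ∀ x ∈ U, conjTorus Ψ g x ∈ U) → U = ⊥ ∨ U = T

/-- The numbers `p`, `q`, `p`. -/
def lvDim (p q h a : ℕ) : ℕ := if a = h ∨ a = h + 2 then p else if a = h + 1 then q else 0

/-- Some linear isomorphism `T → T'` is compatible with the Mumford-Tate group up to scalars. -/
def SameUpTo (Ψ : HodgeAlg gr n tr C) (T : Submodule K A) (Ψ' : HodgeAlg gr' n' tr' C')
    (T' : Submodule K A') : Prop :=
  ∃ (f : T ≃ₗ[K] T') (ε : RingAut K × Kˣ → K), ∀ g (x y : T), (y : A) = conjTorus Ψ g x →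
    (f y : A') = ε g • conjTorus Ψ' g (f x)

/-- The space `T` is irreducible and has the Hodge numbers `p`, `q`, `p`, where `p = 1`, `q > 0` and
`q` is not `2`, or `p > 1`, `p` and `q` are coprime and `2 p ^ 2 (p ^ 2 + 1) < (q - 2 p) (q + p)`. -/
structure LevelTwo (Ψ : HodgeAlg gr n tr C) (T : Submodule K A) (p q : ℕ) : Prop where
  irreducible : MTIrreducible Ψ T
  types : ∃ h, n = 2 * h + 2 ∧ ∀ a b, a + b = n → typeDim Ψ T a b = lvDim p q h a
  num : (p = 1 ∧ 0 < q ∧ q ≠ 2) ∨
    (2 ≤ p ∧ Nat.Coprime p q ∧ 2 * p ^ 2 * (p ^ 2 + 1) < (q - 2 * p) * (q + p))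

/-- The Mumford-Tate group acts irreducibly on the skew operators on `T`, which has dimension `3` or
at least `5` and at least two different Hodge types. -/
structure BigMT (Ψ : HodgeAlg gr n tr C) (T : Submodule K A) : Prop where
  irreducible : RelIrr K (ConjBy Ψ T)
  dim : 3 ≤ Module.finrank K T ∧ Module.finrank K T ≠ 4
  types : ∃ a b a' b', TypeOn Ψ T a b ∧ TypeOn Ψ T a' b' ∧ a ≠ a'

end Alg

open Pool.Agent.H914 Pool.Agent.H914.VarClass Pool.Agent.H914.VarClass.Obj
  Pool.Agent.H914.WeilCohomology Pool.Agent.H281R3.HT Pool.Agent.W552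

variable {k : Type u} [Field k] {𝒱 : VarClass k} {ops : CycleOps 𝒱}

/-- `X` is even-dimensional, homological and numerical equivalence coincide on `X` and the
transcendental cohomology is in the middle degree. -/
structure EvenMiddle (W : WeilCohomology.{u, 0} ops) (X : 𝒱.Obj) : Prop where
  even : Even X.dim
  homEqNum : HomEqNum W X
  middle : transcendental W X ≤ W.gr X X.dim

variable {W : WeilCohomology.{u, 0} ops}

/-- The transcendental cohomology of the even-dimensional variety `X i` is an irreducible Hodge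
structure of level two with the Hodge numbers `p i`, `q i`, `p i`, for all `i`, and these Hodge
structures are pairwise not isomorphic up to scalars. -/
structure LevelTwoFamily (Ψ : HodgeData W) {ι : Type} (p q : ι → ℕ) (X : ι → 𝒱.Obj) : Prop where
  middle : ∀ i, EvenMiddle W (X i)
  lv : ∀ i, LevelTwo (Ψ.on (X i)) (transcendental W (X i)) (p i) (q i)
  notIso : ∀ i j, i ≠ j → ¬SameUpTo (Ψ.on (X i)) (transcendental W (X i)) (Ψ.on (X j))
    (transcendental W (X j))

/-- The Mumford-Tate group acts irreducibly on the skew operators on the transcendental cohomology of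
the even-dimensional variety `X i`, for all `i`, and for different `i` and `j` these representations
are not isomorphic, or the transcendental cohomology of `X j` does not have dimension `8` and is not
isomorphic to that of `X i` up to scalars. -/
structure OrthogonalFamily (Ψ : HodgeData W) {ι : Type} (X : ι → 𝒱.Obj) : Prop where
  middle : ∀ i, EvenMiddle W (X i)
  big : ∀ i, BigMT (Ψ.on (X i)) (transcendental W (X i))
  notIso : ∀ i j, i ≠ j → ¬SameAdjoint Ψ (X i) (X j) ∨ (trDim W (X j) ≠ 8 ∧
    ¬SameUpTo (Ψ.on (X i)) (transcendental W (X i)) (Ψ.on (X j)) (transcendental W (X j)))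

/-- The cohomology of `Z` is generated by subspaces which are stable under the Mumford-Tate group and
small with respect to the transcendental cohomology of `X`. -/
def SmallBase (Ψ : HodgeData W) (X Z : 𝒱.Obj) : Prop :=
  GenSmallFor (Ψ.on Z) (Ψ.on X) (transcendental W X)

/-- The varieties isomorphic to a product of a variety in the class `𝒵` and powers of the `X i` with
exponents smaller than half of the dimension of the transcendental cohomology of `X i`. -/
def halfProducts {ι : Type} [DecidableEq ι] (W : WeilCohomology.{u, 0} ops) (𝒵 : Set 𝒱.Obj)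
    (X : ι → 𝒱.Obj) : Set 𝒱.Obj :=
  {Y | ∃ Z ∈ 𝒵, ∃ L : List ι, (∀ i, 2 * L.count i < trDim W (X i)) ∧
    Nonempty (Y ≅ prodList X Z L)}

end Pool.Agent.T2H43.HF
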