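import Pool.Agent.T2H43.HF.Fam
import Pool.Agent.T2H43.HF.Lst
import Pool.Agent.T2H43.HF.PDefs

/-!
# The weight operator of a Hodge structure
-/

open CategoryTheory AlgebraicGeometry Finset Function

set_option linter.unusedSectionVars false

universe u

namespace Pool.Agent.T2H43.HF

open Pool.Agent.H914 Pool.Agent.H914.VarClass Pool.Agent.H914.VarClass.Obj
  Pool.Agent.H914.WeilCohomology Pool.Agent.H281R3.HT Pool.Agent.W552 Pool.Agent.TH125.Gal
  Pool.Agent.Y127 Pool.Agent.Y127.G Pool.Agent.Y132.AH Pool.Agent.Y95.ZT Pool.Agent.Y132.AF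
  Pool.Agent.TH118.SG

section op

variable {K : Type} [Field K] [CharZero K] [IsAlgClosed K] {Γ : Type} [Group Γ]

/-- The weight operator attached to an element and an additive function. -/
noncomputable def wop (θ : Additive Kˣ →+ K) (F : Γ) : WeightOp K Γ where
  Θ M := (exists_op (M.ρ F) (ext0 θ)).choose
  der S _ _ M M' h hh v := by
    obtain ⟨Δ, hΔ, h1⟩ := hh
    obtain ⟨m, hm, -, hFm⟩ := Subgroup.exists_pow_mem_of_index_ne_zero hΔ.index_ne_zero F
    refine deriv_op θ (fun j => (M j).ρ F) (fun j => (M j).injective F) (M'.ρ F)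
      (fun j => (exists_op ((M j).ρ F) (ext0 θ)).choose_spec)
      (exists_op (M'.ρ F) (ext0 θ)).choose_spec hm (fun v => ?_) v
    have h2 := h1 _ hFm v
    simp only [map_pow] at h2
    exact h2

theorem wop_apply (θ : Additive Kˣ →+ K) (F : Γ) (M : FRep K Γ) {β : K} {x : M.V}
    (hx : M.ρ F x = β • x) : (wop θ F).Θ M x = ext0 θ β • x := by
  refine (exists_op (M.ρ F) (ext0 θ)).choose_spec β x ?_
  exact Module.End.mem_maxGenEigenspace _ _ _ |>.2 ⟨1, by
    rw [pow_one, LinearMap.sub_apply, hx]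
    exact sub_self _⟩

/-- a valuation of `2` -/
noncomputable def nu2 (K : Type) [Field K] [CharZero K] : Val K := (exists_val K).choose

theorem nu2_two : val (nu2 K) (Units.mk0 (2 : K) two_ne_zero) = 1 := (exists_val K).choose_spec

theorem ext0_two_pow (a : ℕ) : ext0 (toK (nu2 K)) ((2 : K) ^ a) = (a : K) := by
  rw [ext0_toK]
  have h1 : sl (nu2 K) ((2 : K) ^ a) = (a : ℚ) := by
    rw [sl, dif_neg (pow_ne_zero a two_ne_zero)]
    have h2 : Units.mk0 ((2 : K) ^ a) (pow_ne_zero a two_ne_zero) =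
        (Units.mk0 (2 : K) two_ne_zero) ^ a := Units.ext (by
      rw [Units.val_pow_eq_pow_val]
      rfl)
    rw [h2]
    have h3 := val_pow (nu2 K) (Units.mk0 (2 : K) two_ne_zero) a
    rw [nu2_two, mul_one] at h3
    exact h3
  rw [h1, Rat.cast_natCast]

/-- The operator which multiplies the elements of type `(a, b)` by `a`. -/
noncomputable def hop (K : Type) [Field K] [CharZero K] [IsAlgClosed K] :
    WeightOp K (FreeGroup (RingAut K × Kˣ)) := wop (toK (nu2 K)) (two K)

theorem hop_apply (M : FRep K (FreeGroup (RingAut K × Kˣ))) {a : ℕ} {x : M.V}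
    (hx : M.ρ (two K) x = (2 : K) ^ a • x) : (hop K).Θ M x = (a : K) • x := by
  rw [hop, wop_apply _ _ _ hx, ext0_two_pow]

end op

variable {k : Type u} [Field k] {𝒱 : VarClass k} {ops : CycleOps 𝒱}
  {W : WeilCohomology.{u, 0} ops} (Ψ : HodgeData W) [IsAlgClosed W.K]

theorem hop_sub {X : 𝒱.Obj} {U : Submodule W.K (W.H X)}
    (hU : ∀ g, ∀ x ∈ U, ract Ψ X g x ∈ U) {a b : ℕ} {x : W.H X} (hx : x ∈ U)
    (hxH : x ∈ Ψ.hodge X (a, b)) :
    (hop W.K).Θ (Y95.ZT.subRep (ract Ψ X) U hU) ⟨x, hx⟩ = (a : W.K) • (⟨x, hx⟩ : U) := by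
  refine hop_apply (Y95.ZT.subRep (ract Ψ X) U hU) ?_
  apply Subtype.ext
  exact act_type Ψ hxH

/-- eigenvectors in one degree are pure -/
theorem pure_of_eigen {X : 𝒱.Obj} {m : ℕ} {x : W.H X} (hx : x ∈ W.gr X m) (hx0 : x ≠ 0) {c : W.K}
    (hc : ract Ψ X (two W.K) x = c • x) :
    ∃ a, a ≤ m ∧ x ∈ Ψ.hodge X (a, m - a) ∧ c = 2 ^ a := by
  obtain ⟨i, hi, hci⟩ := exists_type Ψ hx0 hc
  have h1 := type_sum Ψ hx hi
  refine ⟨i.1, by omega, mem_of_prj (Ψ.isHodgeDec X).isInternal fun j hj => ?_, hci⟩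
  by_contra hcon
  have h2 := type_sum Ψ hx hcon
  have h3 : c = 2 ^ j.1 := by
    rw [act_two] at hc
    exact tor_eigen (Ψ.isHodgeDec X) hc hcon
  rw [hci] at h3
  have h4 : i.1 = j.1 := by
    by_contra h5
    exact two_pow_ne h5 h3
  apply hj
  refine Prod.ext h4.symm ?_
  change j.2 = m - i.1
  omega

theorem two_restrict_top {X : 𝒱.Obj} :
    ⨆ μ, Module.End.eigenspace (ract Ψ X (two W.K)).toLinearMap μ = ⊤ := by
  rw [eq_top_iff]
  intro x _
  refine int_ind (p := fun x => x ∈ ⨆ μ, Module.End.eigenspace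
    (ract Ψ X (two W.K)).toLinearMap μ) (Ψ.isHodgeDec X).isInternal x (fun i x hx => ?_)
    (Submodule.zero_mem _) fun x y hx hy => Submodule.add_mem _ hx hy
  refine Submodule.mem_iSup_of_mem ((2 : W.K) ^ i.1) ?_
  rw [Module.End.mem_eigenspace_iff]
  exact act_type Ψ (p := i.1) (q := i.2) hx

/-- the parts of a subspace -/
noncomputable def part {X : 𝒱.Obj} (U : Submodule W.K (W.H X)) (m : ℕ) (a : Fin (m + 1)) :
    Submodule W.K U := (Ψ.hodge X ((a : ℕ), m - a)).comap U.subtype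

theorem part_internal {X : 𝒱.Obj} {U : Submodule W.K (W.H X)}
    (hU : ∀ g, ∀ x ∈ U, ract Ψ X g x ∈ U) {m : ℕ} (hm : U ≤ W.gr X m) :
    DirectSum.IsInternal (part Ψ U m) := by
  set f : Module.End W.K U := (ract Ψ X (two W.K)).toLinearMap.restrict
    (fun x hx => hU (two W.K) x hx) with hf
  rw [DirectSum.isInternal_submodule_iff_iSupIndep_and_iSup_eq_top]
  constructor
  · have h1 : iSupIndep fun a : Fin (m + 1) => Module.End.eigenspace f ((2 : W.K) ^ (a : ℕ)) := by
      refine (Module.End.eigenspaces_iSupIndep f).comp ?_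
      intro a b hab
      by_contra hcon
      exact two_pow_ne (K := W.K) (fun h => hcon (Fin.ext h)) hab
    refine h1.mono fun a x hx => ?_
    rw [Module.End.mem_eigenspace_iff]
    apply Subtype.ext
    exact act_type Ψ (p := (a : ℕ)) (q := m - a) hx
  · have h1 : ⨆ μ, Module.End.eigenspace f μ = ⊤ :=
      Module.End.genEigenspace_restrict_eq_top (k := 1) _ (two_restrict_top Ψ)
    rw [eq_top_iff, ← h1]
    refine iSup_le fun μ x hx => ?_
    by_cases hx0 : x = 0
    · rw [hx0]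
      exact Submodule.zero_mem _
    · rw [Module.End.mem_eigenspace_iff] at hx
      obtain ⟨a, ha, hxa, -⟩ := pure_of_eigen Ψ (hm x.2) (fun h => hx0 (Subtype.ext h))
        (congrArg Subtype.val hx)
      exact Submodule.mem_iSup_of_mem (⟨a, by omega⟩ : Fin (m + 1)) hxa

/-- **The weights of a stable subspace.** -/
theorem exists_weights {X : 𝒱.Obj} {U : Submodule W.K (W.H X)}
    (hU : ∀ g, ∀ x ∈ U, ract Ψ X g x ∈ U) {m : ℕ} (hm : U ≤ W.gr X m) :
    ∃ (κ : Type) (_ : Fintype κ) (b : Module.Basis κ W.K U) (w : κ → ℕ),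
      (∀ k, (hop W.K).Θ (Y95.ZT.subRep (ract Ψ X) U hU) (b k) = (w k : W.K) • b k) ∧
      (∀ k, w k ≤ m) ∧
      ∀ f : ℕ → ℕ, ∑ k, f (w k) =
        ∑ a ∈ Finset.range (m + 1), typeDim (Ψ.on X) U a (m - a) * f a := by
  classical
  have hfree : ∀ a : Fin (m + 1), Module.Free W.K (part Ψ U m a) := fun a =>
    Module.Free.of_divisionRing W.K (part Ψ U m a)
  let b0 : ∀ a : Fin (m + 1), Module.Basis (Fin (Module.finrank W.K (part Ψ U m a))) W.K
    (part Ψ U m a) := fun a => Module.finBasis W.K _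
  let b := (part_internal Ψ hU hm).collectedBasis b0
  refine ⟨_, inferInstance, b, fun k => (k.1 : ℕ), fun k => ?_, fun k => ?_, fun f => ?_⟩
  · have h1 := (part_internal Ψ hU hm).collectedBasis_mem b0 k
    exact hop_sub Ψ hU (b k).2 (a := (k.1 : ℕ)) (b := m - k.1) h1
  · have := k.1.2
    change (k.1 : ℕ) ≤ m
    omega
  · rw [Fintype.sum_sigma, Finset.sum_range]
    refine Finset.sum_congr rfl fun a _ => ?_
    change ∑ _y : Fin (Module.finrank W.K (part Ψ U m a)), f (a : ℕ) = _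
    rw [Finset.sum_const, Finset.card_univ, Fintype.card_fin, smul_eq_mul]
    rfl

end Pool.Agent.T2H43.HF
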