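import Pool.Agent.T2H43.HF.HOp

/-!
# Small subspaces
-/

open CategoryTheory AlgebraicGeometry Finset Function

set_option linter.unusedSectionVars false

universe u

namespace Pool.Agent.T2H43.HF

open Pool.Agent.H914 Pool.Agent.H914.VarClass Pool.Agent.H914.VarClass.Obj
  Pool.Agent.H914.WeilCohomology Pool.Agent.H281R3.HT Pool.Agent.W552 Pool.Agent.TH125.Gal
  Pool.Agent.Y127 Pool.Agent.Y127.G Pool.Agent.Y132.AH Pool.Agent.Y95.ZT Pool.Agent.Y132.AF
  Pool.Agent.TH118.SG

section count

theorem wgaps_card {κ : Type} [Fintype κ] {g : κ → ℤ} {s : Multiset ℤ}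
    (hg : (univ : Finset κ).val.map g = s) (z : ℤ) :
    ((univ : Finset (κ × κ)).filter fun x => g x.1 = g x.2 + z).card = wgaps s z := by
  classical
  rw [← hg, wgaps, Finset.card_def, Finset.filter_val, ← Finset.univ_product_univ,
    Finset.product_val, map_product, Multiset.countP_map]
  rfl

variable {κ : Type} [Fintype κ] {w : κ → ℕ} {m : ℕ} {d : ℕ → ℕ}

theorem card_pairs (hw : ∀ f : ℕ → ℕ, ∑ k, f (w k) = ∑ a ∈ Finset.range (m + 1), d a * f a)
    (P : ℕ → ℕ → Prop) [∀ a b, Decidable (P a b)] :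
    ((univ : Finset (κ × κ)).filter fun x => P (w x.1) (w x.2)).card =
      ∑ a ∈ Finset.range (m + 1), ∑ b ∈ Finset.range (m + 1), if P a b then d a * d b else 0 := by
  rw [Finset.card_filter, Fintype.sum_prod_type]
  have h1 : ∀ a : ℕ, (∑ l : κ, if P a (w l) then 1 else 0) =
      ∑ b ∈ Finset.range (m + 1), d b * if P a b then 1 else 0 :=
    fun a => hw fun b => if P a b then 1 else 0
  have h2 := hw fun a => ∑ b ∈ Finset.range (m + 1), d b * if P a b then 1 else 0
  refine (Finset.sum_congr rfl fun k _ => h1 (w k)).trans (h2.trans ?_)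
  refine Finset.sum_congr rfl fun a _ => ?_
  rw [Finset.mul_sum]
  refine Finset.sum_congr rfl fun b _ => ?_
  split_ifs
  · rw [mul_one]
  · rw [mul_zero, mul_zero]

theorem card_diag (hw : ∀ f : ℕ → ℕ, ∑ k, f (w k) = ∑ a ∈ Finset.range (m + 1), d a * f a)
    (P : ℕ → Prop) [∀ a, Decidable (P a)] :
    ((univ : Finset κ).filter fun x => P (w x)).card =
      ∑ a ∈ Finset.range (m + 1), if P a then d a else 0 := by
  rw [Finset.card_filter, hw fun a => if P a then 1 else 0]
  refine Finset.sum_congr rfl fun a _ => ?_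
  split_ifs
  · rw [mul_one]
  · rw [mul_zero]

end count

section gen

variable {K A : Type} [Field K] [Ring A] [Algebra K A] [FiniteDimensional K A]

/-- finitely many of the subspaces generate the algebra -/
theorem exists_fin_gen {𝒰 : Set (Submodule K A)}
    (h : Algebra.adjoin K (⋃ U ∈ 𝒰, (U : Set A)) = ⊤) :
    ∃ (m : ℕ) (U : Fin m → Submodule K A), (∀ a, U a ∈ 𝒰) ∧
      Algebra.adjoin K (⋃ a, (U a : Set A)) = ⊤ := by
  classical
  let ad : Finset (Submodule K A) → Subalgebra K A := fun F =>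
    Algebra.adjoin K (⋃ U ∈ F, (U : Set A))
  let S : Set ℕ := {d | ∃ F : Finset (Submodule K A), (F : Set (Submodule K A)) ⊆ 𝒰 ∧
    Module.finrank K (Subalgebra.toSubmodule (ad F)) = d}
  have hne : S.Nonempty := ⟨_, ∅, by simp, rfl⟩
  have hbd : BddAbove S := by
    refine ⟨Module.finrank K A, ?_⟩
    rintro _ ⟨F, -, rfl⟩
    exact Submodule.finrank_le _
  obtain ⟨F, hF, hFd⟩ := Nat.sSup_mem hne hbd
  have hmono : ∀ {F F' : Finset (Submodule K A)}, F ⊆ F' → ad F ≤ ad F' := by
    intro F F' hFF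
    refine Algebra.adjoin_mono ?_
    refine Set.iUnion₂_mono' fun U hU => ⟨U, hFF hU, subset_rfl⟩
  have htop : ad F = ⊤ := by
    rw [eq_top_iff, ← h, Algebra.adjoin_le_iff]
    intro x hx
    obtain ⟨U, hU, hxU⟩ := Set.mem_iUnion₂.1 hx
    have h1 : Module.finrank K (Subalgebra.toSubmodule (ad (insert U F))) ≤
        Module.finrank K (Subalgebra.toSubmodule (ad F)) := by
      rw [hFd]
      refine le_csSup hbd ⟨insert U F, ?_, rfl⟩
      rw [Finset.coe_insert]
      exact Set.insert_subset hU hF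
    have h2 : Subalgebra.toSubmodule (ad F) ≤ Subalgebra.toSubmodule (ad (insert U F)) :=
      Subalgebra.toSubmodule.monotone (hmono (Finset.subset_insert U F))
    have h3 := Submodule.eq_of_le_of_finrank_le h2 h1
    have h4 : x ∈ Subalgebra.toSubmodule (ad (insert U F)) :=
      Algebra.subset_adjoin (Set.mem_iUnion₂.2 ⟨U, Finset.mem_insert_self U F, hxU⟩)
    rw [← h3] at h4
    exact h4
  refine ⟨F.card, fun a => (F.equivFin.symm a : Submodule K A),
    fun a => hF (F.equivFin.symm a).2, ?_⟩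
  rw [eq_top_iff, ← htop]
  refine Algebra.adjoin_mono ?_
  intro x hx
  obtain ⟨U, hU, hxU⟩ := Set.mem_iUnion₂.1 hx
  refine Set.mem_iUnion.2 ⟨F.equivFin ⟨U, hU⟩, ?_⟩
  change x ∈ ((F.equivFin.symm (F.equivFin ⟨U, hU⟩) : Submodule K A) : Set A)
  rw [Equiv.symm_apply_apply]
  exact hxU

end gen

variable {k : Type u} [Field k] {𝒱 : VarClass k} {ops : CycleOps 𝒱}
  {W : WeilCohomology.{u, 0} ops} (Ψ : HodgeData W)

theorem conj_eq (X : 𝒱.Obj) (g : RingAut W.K × W.Kˣ) (x : W.H X) :
    ract Ψ X (FreeGroup.of g) x = conjTorus (Ψ.on X) g x := ract_of Ψ X g x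

/-- stable under the generators, stable under the group -/
theorem stable_all {X : 𝒱.Obj} {U : Submodule W.K (W.H X)}
    (h : ∀ g, ∀ x ∈ U, conjTorus (Ψ.on X) g x ∈ U) (g : FreeGroup (RingAut W.K × W.Kˣ)) :
    ∀ x ∈ U, ract Ψ X g x ∈ U := by
  refine hact_ind (Ψ.isHodgeDec X) (Ψ.isCoeffAct X) (p := fun ρ _ => ∀ x ∈ U, ρ x ∈ U)
    (fun x hx => hx) (fun g x hx => h g x hx)
    (fun a b _ _ ha hb x hx => ha _ (hb _ hx)) g

/-- invariant forms -/
theorem hasForm_of {X : 𝒱.Obj} {U : Submodule W.K (W.H X)}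
    (hU : ∀ g, ∀ x ∈ U, ract Ψ X g x ∈ U) {s : W.K} (h : HodgeForm (Ψ.on X) U s) :
    HasForm s (Y95.ZT.subRep (ract Ψ X) U hU) := by
  obtain ⟨μ, B, h1, h2, h3⟩ := h
  have key : ∀ (g : FreeGroup (RingAut W.K × W.Kˣ)), ∀ x ∈ U, ∀ y ∈ U,
      B (ract Ψ X g x) (ract Ψ X g y) = ((FreeGroup.lift μ g : W.Kˣ) : W.K) * B x y := by
    intro g
    induction g using FreeGroup.induction_on with
    | C1 =>
      intro x _ y _
      rw [map_one, map_one, Units.val_one, one_mul]
      rfl
    | of g =>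
      intro x hx y hy
      rw [conj_eq, conj_eq, FreeGroup.lift_apply_of]
      exact h3 g x hx y hy
    | inv_of g _ =>
      intro x hx y hy
      have h4 : ∀ x, ract Ψ X (FreeGroup.of g) (ract Ψ X (FreeGroup.of g)⁻¹ x) = x := by
        intro x
        rw [← AlgEquiv.mul_apply, ← map_mul, mul_inv_cancel, map_one]
        rfl
      have h5 := h3 g _ (hU (FreeGroup.of g)⁻¹ x hx) _ (hU (FreeGroup.of g)⁻¹ y hy)
      rw [← conj_eq, ← conj_eq, h4, h4] at h5
      rw [map_inv (FreeGroup.lift μ), FreeGroup.lift_apply_of, h5, ← mul_assoc, Units.inv_mul,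
        one_mul]
    | mul a b ha hb =>
      intro x hx y hy
      rw [map_mul, map_mul, AlgEquiv.mul_apply, AlgEquiv.mul_apply,
        ha _ (hU b x hx) _ (hU b y hy), hb x hx y hy, Units.val_mul, mul_assoc]
  refine ⟨FreeGroup.lift μ, B.domRestrict₁₂ U U, fun (x y : U) => h1 x x.2 y y.2,
    fun (x : U) hx => ?_, fun g (x y : U) => key g x x.2 y y.2⟩
  exact Subtype.ext (h2 x x.2 fun y hy => hx ⟨y, hy⟩)

theorem galoisType (X : 𝒱.Obj) : GaloisType (hchar W.K) (actv Ψ X) := actv_galois Ψ X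

variable [IsAlgClosed W.K]

/-- the weight operator is a derivation of the intersection form -/
theorem hop_form (X : 𝒱.Obj) (x y : transcendental W X) :
    rform W X (transcendental W X) ((hop W.K).Θ (trRep (galoisType Ψ X)) x) y +
      rform W X (transcendental W X) x ((hop W.K).Θ (trRep (galoisType Ψ X)) y) =
      ((X.dim : ℤ) : W.K) * rform W X (transcendental W X) x y := by
  let N : Bool → FRep W.K (FreeGroup (RingAut W.K × W.Kˣ)) := fun β =>
    bif β then trRep (galoisType Ψ X) else line (hchar W.K ^ X.dim)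
  have h1 := bil_der (N := N) (a := true) (b := true) (c := false)
    (rform W X (transcendental W X)) (Δ := ⊤) inferInstance
    (fun g _ x y => tr_eqv (galoisType Ψ X) g x y) ((hop W.K).mem N) x y
  refine h1.trans ?_
  have h2 : (hop W.K).Θ (line (hchar W.K ^ X.dim)) (rform W X (transcendental W X) x y) =
      (X.dim : W.K) • (rform W X (transcendental W X) x y : W.K) := by
    refine hop_apply (line (hchar W.K ^ X.dim)) ?_
    rw [line_apply, MonoidHom.pow_apply, Units.val_pow_eq_pow_val, hchar_two]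
    rfl
  refine h2.trans ?_
  rw [Int.cast_natCast, smul_eq_mul]

theorem trans_stable (X : 𝒱.Obj) (g : FreeGroup (RingAut W.K × W.Kˣ)) :
    ∀ x ∈ transcendental W X, ract Ψ X g x ∈ transcendental W X := fun x hx =>
  act_trans (isGalois (galoisType Ψ X)) g hx

/-- **Small subspaces.** -/
theorem small_of {X Z : 𝒱.Obj} (hmid : transcendental W X ≤ W.gr X X.dim)
    {U : Submodule W.K (W.H Z)} (hU : ∀ g, ∀ x ∈ U, ract Ψ Z g x ∈ U)
    (h : SmallFor (Ψ.on Z) U (Ψ.on X) (transcendental W X)) :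
    SmallO (hop W.K) (Y95.ZT.subRep (ract Ψ Z) U hU) (trRep (galoisType Ψ X))
      (rform W X (transcendental W X)) := by
  classical
  rcases h with ⟨m, c, hm, h1⟩ | ⟨h1, h2⟩ | ⟨h1, h2⟩
  · left
    obtain ⟨κ, hκ, b, w, hb, -, hw⟩ := exists_weights Ψ hU hm
    obtain ⟨κ', hκ', b', w', hb', -, hw'⟩ := exists_weights Ψ (trans_stable Ψ X) hmid
    refine ⟨(univ : Finset κ).val.map fun k => (w k : ℤ),
      (univ : Finset κ').val.map fun k => (w' k : ℤ), (X.dim : ℤ), (c : ℤ),
      ⟨κ, hκ, b, fun k => (w k : ℤ), fun k => ?_, rfl⟩,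
      ⟨κ', hκ', b', fun k => (w' k : ℤ), fun k => ?_, rfl⟩, hop_form Ψ X, ?_⟩
    · rw [Int.cast_natCast]
      exact hb k
    · rw [Int.cast_natCast]
      exact hb' k
    · rw [← wgaps_card rfl, ← wsum_eq rfl, ← wdiag_eq rfl]
      have e1 : ((univ : Finset (κ × κ)).filter fun x => (w x.1 : ℤ) = (w x.2 : ℤ) + (c : ℤ)).card
          = gapDim (Ψ.on Z) U m c := by
        rw [gapDim, ← card_pairs hw (fun a b => a = b + c)]
        congr 1
        refine Finset.filter_congr fun x _ => ?_
        constructor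
        · intro h
          exact_mod_cast h
        · intro h
          exact_mod_cast h
      have e2 : ((univ : Finset (κ' × κ')).filter fun x => (w' x.1 : ℤ) + (w' x.2 : ℤ) =
          (X.dim : ℤ) + (c : ℤ)).card = ∑ a ∈ Finset.range (X.dim + 1),
          ∑ b ∈ Finset.range (X.dim + 1), if a + b = X.dim + c then
            typeDim (Ψ.on X) (transcendental W X) a (X.dim - a) *
              typeDim (Ψ.on X) (transcendental W X) b (X.dim - b) else 0 := by
        rw [← card_pairs hw' (fun a b => a + b = X.dim + c)]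
        congr 1
        refine Finset.filter_congr fun x _ => ?_
        constructor
        · intro h
          exact_mod_cast h
        · intro h
          exact_mod_cast h
      have e3 : ((univ : Finset κ').filter fun x => 2 * (w' x : ℤ) =
          (X.dim : ℤ) + (c : ℤ)).card = ∑ a ∈ Finset.range (X.dim + 1),
          if 2 * a = X.dim + c then
            typeDim (Ψ.on X) (transcendental W X) a (X.dim - a) else 0 := by
        rw [← card_diag hw' (fun a => 2 * a = X.dim + c)]
        congr 1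
        refine Finset.filter_congr fun x _ => ?_
        constructor
        · intro h
          exact_mod_cast h
        · intro h
          exact_mod_cast h
      rw [e1, e2, e3]
      unfold skewDim at h1
      omega
  · exact Or.inr (Or.inl ⟨hasForm_of Ψ hU h1, h2⟩)
  · exact Or.inr (Or.inr ⟨hasForm_of Ψ hU h1, h2⟩)

/-- **The base.** -/
theorem base_of {X Z : 𝒱.Obj} (hmid : transcendental W X ≤ W.gr X X.dim)
    (h : SmallBase Ψ X Z) :
    ∃ (m : ℕ) (M : Fin m → FRep W.K (FreeGroup (RingAut W.K × W.Kˣ)))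
      (f : ∀ a, (M a).V →ₗ[W.K] W.H Z),
      (∀ a, SmallO (hop W.K) (M a) (trRep (galoisType Ψ X)) (rform W X (transcendental W X))) ∧
      (∀ a g x, f a ((M a).ρ g x) = ract Ψ Z g (f a x)) ∧
      Algebra.adjoin W.K (⋃ a, Set.range (f a)) = ⊤ := by
  obtain ⟨𝒰, h𝒰, hs⟩ := h
  obtain ⟨m, U, hU, hgen⟩ := exists_fin_gen h𝒰.gen
  have hst := fun a => stable_all Ψ (h𝒰.stable (U a) (hU a))
  refine ⟨m, fun a => Y95.ZT.subRep (ract Ψ Z) (U a) (hst a), fun a => (U a).subtype,
    fun a => small_of Ψ hmid (hst a) (hs _ (hU a)), fun a g x => rfl, ?_⟩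
  rw [← hgen]
  congr 1
  refine Set.iUnion_congr fun a => ?_
  change Set.range ((U a).subtype) = _
  rw [Submodule.coe_subtype, Subtype.range_coe_subtype]
  rfl

end Pool.Agent.T2H43.HF
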