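import Pool.Agent.Y95.ZT.App

/-!
# Families of orthogonal representations: the Lie algebra kills the equivariant maps

The arguments follow the file `Y95.ZT.App`, for general weights.
-/

set_option autoImplicit false
set_option linter.unusedSectionVars false

namespace Pool.Agent.T2H43.HF

open Module Finset Function Pool.Agent.TH118.SG Pool.Agent.TH125.Gal Pool.Agent.Y127.G
  Pool.Agent.Y127.C Pool.Agent.Y95.ZT

noncomputable section

/-- The number of ordered pairs of weights, counted with multiplicities, with the sum `z`. -/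
def wsum (s : Multiset ℤ) (z : ℤ) : ℕ := (s ×ˢ s).countP fun x => x.1 + x.2 = z

/-- The number of weights `w`, counted with multiplicities, with `2 w = z`. -/
def wdiag (s : Multiset ℤ) (z : ℤ) : ℕ := s.countP fun x => 2 * x = z

theorem map_product {κ : Type} (g : κ → ℤ) (x y : Multiset κ) :
    x.map g ×ˢ y.map g = (x ×ˢ y).map (Prod.map g g) := by
  induction x using Multiset.induction_on with
  | empty => rw [Multiset.map_zero, Multiset.zero_product, Multiset.zero_product,
      Multiset.map_zero]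
  | cons a x ih =>
    rw [Multiset.map_cons, Multiset.cons_product, Multiset.cons_product, Multiset.map_add, ih,
      Multiset.map_map, Multiset.map_map]
    rfl

theorem wsum_eq {κ : Type} [Fintype κ] {g : κ → ℤ} {s : Multiset ℤ}
    (hg : (univ : Finset κ).val.map g = s) (z : ℤ) :
    ((univ : Finset (κ × κ)).filter fun x => g x.1 + g x.2 = z).card = wsum s z := by
  classical
  rw [← hg, wsum, Finset.card_def, Finset.filter_val, ← Finset.univ_product_univ,
    Finset.product_val, map_product, Multiset.countP_map]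
  rfl

theorem wdiag_eq {κ : Type} [Fintype κ] {g : κ → ℤ} {s : Multiset ℤ}
    (hg : (univ : Finset κ).val.map g = s) (z : ℤ) :
    ((univ : Finset κ).filter fun x => 2 * g x = z).card = wdiag s z := by
  classical
  rw [← hg, wdiag, Finset.card_def, Finset.filter_val, Multiset.countP_map]

/-- the number of unordered pairs -/
theorem two_card {N : ℕ} (w : Fin N → ℤ) (z : ℤ) :
    ((univ : Finset (Fin N × Fin N)).filter fun x => w x.1 + w x.2 = z).card =
      2 * ((univ : Finset (Fin N × Fin N)).filter fun x => x.1 < x.2 ∧ w x.1 + w x.2 = z).card +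
        ((univ : Finset (Fin N)).filter fun x => 2 * w x = z).card := by
  classical
  have h1 : ((univ : Finset (Fin N × Fin N)).filter fun x => w x.1 + w x.2 = z) =
      (((univ : Finset (Fin N × Fin N)).filter fun x => x.1 < x.2 ∧ w x.1 + w x.2 = z) ∪
        ((univ : Finset (Fin N × Fin N)).filter fun x => x.2 < x.1 ∧ w x.1 + w x.2 = z)) ∪
        ((univ : Finset (Fin N)).filter fun x => 2 * w x = z).image fun x => (x, x) := by
    ext ⟨a, b⟩
    simp only [Finset.mem_filter, Finset.mem_univ, true_and, Finset.mem_union, Finset.mem_image,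
      Prod.mk.injEq]
    constructor
    · intro h
      rcases lt_trichotomy a b with h2 | h2 | h2
      · exact Or.inl (Or.inl ⟨h2, h⟩)
      · subst h2
        exact Or.inr ⟨a, by rw [two_mul]; exact h, rfl, rfl⟩
      · exact Or.inl (Or.inr ⟨h2, h⟩)
    · rintro ((⟨-, h⟩ | ⟨-, h⟩) | ⟨c, h, rfl, rfl⟩)
      · exact h
      · exact h
      · rw [two_mul] at h
        exact h
  have h2 : ((univ : Finset (Fin N × Fin N)).filter fun x =>
      x.2 < x.1 ∧ w x.1 + w x.2 = z).card =
      ((univ : Finset (Fin N × Fin N)).filter fun x => x.1 < x.2 ∧ w x.1 + w x.2 = z).card := by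
    refine Finset.card_bij (fun x _ => x.swap) ?_ ?_ ?_
    · rintro ⟨a, b⟩ h
      simp only [Finset.mem_filter, Finset.mem_univ, true_and, Prod.swap_prod_mk] at h ⊢
      exact ⟨h.1, by rw [add_comm]; exact h.2⟩
    · intro x _ y _ h
      exact Prod.swap_injective h
    · rintro ⟨a, b⟩ h
      simp only [Finset.mem_filter, Finset.mem_univ, true_and] at h
      refine ⟨(b, a), ?_, rfl⟩
      simp only [Finset.mem_filter, Finset.mem_univ, true_and]
      exact ⟨h.1, by rw [add_comm]; exact h.2⟩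
  rw [h1, Finset.card_union_of_disjoint, Finset.card_union_of_disjoint, h2,
    Finset.card_image_of_injective _ (fun x y h => (Prod.mk.inj h).1)]
  · ring
  · rw [Finset.disjoint_left]
    rintro ⟨a, b⟩ h h'
    simp only [Finset.mem_filter, Finset.mem_univ, true_and] at h h'
    exact lt_asymm h.1 h'.1
  · rw [Finset.disjoint_left]
    rintro ⟨a, b⟩ h h'
    simp only [Finset.mem_union, Finset.mem_filter, Finset.mem_univ, true_and, Finset.mem_image,
      Prod.mk.injEq] at h h'
    obtain ⟨c, -, rfl, rfl⟩ := h'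
    rcases h with h | h
    · exact lt_irrefl _ h.1
    · exact lt_irrefl _ h.1

variable {K : Type} [Field K] [CharZero K] {Γ : Type} [Group Γ]

/-- diagonalizable operators with a basis indexed by `Fin N` -/
theorem HasWeights.fin {V : Type} [AddCommGroup V] [Module K V] {A : Module.End K V}
    {s : Multiset ℤ} (h : HasWeights A s) : ∃ (N : ℕ) (b : Basis (Fin N) K V) (w : Fin N → ℤ),
      (∀ k, A (b k) = (w k : K) • b k) ∧ (univ : Finset (Fin N)).val.map w = s := by
  classical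
  obtain ⟨κ, hκ, b, w, h1, h2⟩ := h
  let e := Fintype.equivFin κ
  refine ⟨Fintype.card κ, b.reindex e, w ∘ e.symm, fun k => ?_, ?_⟩
  · rw [Basis.reindex_apply]
    exact h1 _
  · rw [← h2, ← Multiset.map_map]
    congr 1
    have h3 : (univ : Finset (Fin (Fintype.card κ))).map e.symm.toEmbedding = univ :=
      Finset.map_univ_equiv e.symm
    rw [← h3]
    rfl

section good

variable {ι : Type} {N : ι → FRep K Γ} {t t' : ι}

/-- **The gap criterion.** -/
theorem good_of_pairs (o : Ful N t) {J : ∀ i, (N i).V →ₗ[K] (N i).V} (hJG : J ∈ GG N)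
    {wT : Multiset ℤ} (hW : HasWeights (J t) wT) {z : ℤ}
    (hz : ∀ x y, o.B (J t x) y + o.B x (J t y) = (z : K) * o.B x y) {a : ι} {s : Multiset ℤ}
    (hs : HasWeights (J a) s) {c : ℤ}
    (hg : 2 * wgaps s c + wdiag wT (z + c) < wsum wT (z + c)) : Good N t a := by
  classical
  obtain ⟨M, b, w, hJ, hw⟩ := HasWeights.fin hW
  obtain ⟨κ', hκ', b', w', hJ', hw'⟩ := hs
  have hsk : Skew o.B (J t - ((z : K) / 2) • (1 : Module.End K (N t).V)) := by
    intro x y
    have h1 := hz x y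
    simp only [LinearMap.sub_apply, LinearMap.smul_apply, Module.End.one_apply, map_sub, map_smul,
      smul_eq_mul]
    linear_combination h1
  have hb1 : ∀ k, (J t - ((z : K) / 2) • (1 : Module.End K (N t).V)) (b k) =
      ((w k : K) - (z : K) / 2) • b k := by
    intro k
    rw [LinearMap.sub_apply, LinearMap.smul_apply, Module.End.one_apply, hJ, sub_smul]
  have hJt : J t = (J t - ((z : K) / 2) • (1 : Module.End K (N t).V)) + ((z : K) / 2) • 1 := by
    rw [sub_add_cancel]
  have heig : ∀ i j : Fin M, br (J t) (oo o.B 1 (b i) (b j)) =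
      ((w i : K) + w j - z) • oo o.B 1 (b i) (b j) := by
    intro i j
    rw [hJt, br_scalar_left, br_oo hsk, hb1, hb1, oo_smul_left, oo_smul_right, ← add_smul]
    congr 1
    ring
  let f : {x : Fin M × Fin M // x.1 < x.2 ∧ w x.1 + w x.2 = z + c} → Fin M × Fin M :=
    fun x => x.1
  have hf : Function.Injective f := Subtype.val_injective
  have hsw : ∀ x y, f y ≠ (f x).swap := by
    intro x y hxy
    have h1 := x.2.1
    have h2 := y.2.1
    have h3 : y.1 = x.1.swap := hxy
    rw [h3] at h2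
    exact lt_asymm h1 h2
  refine good_of_eig o hJG b' (fun k => (w' k : K)) hJ' ((c : ℤ) : K)
    (li_oo (b := b) o.nd hf hsw) (fun x => skew_one o.sy _ _) (fun x => ?_) ?_
  · rw [heig]
    congr 1
    have h1 : ((w (f x).1 + w (f x).2 : ℤ) : K) = ((z + c : ℤ) : K) := by rw [x.2.2]
    push_cast at h1
    linear_combination h1
  · rw [wgaps_eq (K := K) hw' c, Fintype.card_subtype]
    have h1 := two_card w (z + c)
    rw [wsum_eq hw, wdiag_eq hw] at h1
    omega

/-- The adjoint representations are isomorphic. -/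
def AdE (B : (N t).V →ₗ[K] (N t).V →ₗ[K] K) (B' : (N t').V →ₗ[K] (N t').V →ₗ[K] K) : Prop :=
  ∃ Φ : Module.End K (N t').V →ₗ[K] Module.End K (N t).V,
    (∀ X, Skew B' X → Skew B (Φ X)) ∧ (∀ X, Skew B' X → Φ X = 0 → X = 0) ∧
    (∀ Y, Skew B Y → ∃ X, Skew B' X ∧ Φ X = Y) ∧
    ∀ γ X, Skew B' X → Φ ((N t').ρ γ * X * (N t').ρ γ⁻¹) = (N t).ρ γ * Φ X * (N t).ρ γ⁻¹

/-- **Members with different adjoint representations.** -/
theorem good_of_ad (o : Ful N t) (o' : Ful N t') (h : ¬AdE o.B o'.B) : Good N t t' := by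
  by_contra hng
  have h0 : ∀ D ∈ GG1 N, D t' = 0 → D t = 0 := by
    intro D hD ha
    by_contra ht
    exact hng ⟨D, hD, ha, ht⟩
  have hlift : ∀ X : Module.End K (N t').V, Skew o'.B X → ∃ D ∈ GG1 N, D t' = X := fun X hX =>
    skew_mem (a := res (GG1 N) t') o'.sy o'.nd (fun x y => o'.full x y) hX
  have hlift' : ∀ X : Module.End K (N t).V, Skew o.B X → ∃ D ∈ GG1 N, D t = X := fun X hX =>
    skew_mem (a := res (GG1 N) t) o.sy o.nd (fun x y => o.full x y) hX
  have h0' : ∀ D ∈ GG1 N, D t = 0 → D t' = 0 := by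
    intro D hD ha
    by_contra ht
    exact hng (o.good_symm o' ⟨D, hD, ha, ht⟩)
  let f : GG1 N →ₗ[K] Module.End K (N t').V :=
    (LinearMap.proj t' : (∀ i, (N i).V →ₗ[K] (N i).V) →ₗ[K] _) ∘ₗ (GG1 N).subtype
  let g : GG1 N →ₗ[K] Module.End K (N t).V :=
    (LinearMap.proj t : (∀ i, (N i).V →ₗ[K] (N i).V) →ₗ[K] _) ∘ₗ (GG1 N).subtype
  obtain ⟨Φ, hΦ⟩ := exists_factor f g fun x hx => h0 x.1 x.2 hx
  have hΦ' : ∀ D ∈ GG1 N, Φ (D t') = D t := fun D hD => hΦ ⟨D, hD⟩
  refine h ⟨Φ, fun X hX => ?_, fun X hX hX0 => ?_, fun Y hY => ?_, fun γ X hX => ?_⟩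
  · obtain ⟨D, hD, rfl⟩ := hlift X hX
    rw [hΦ' D hD]
    exact o.skew hD
  · obtain ⟨D, hD, rfl⟩ := hlift X hX
    rw [hΦ' D hD] at hX0
    exact h0' D hD hX0
  · obtain ⟨D, hD, hDt⟩ := hlift' Y hY
    exact ⟨D t', o'.skew hD, by rw [hΦ' D hD, hDt]⟩
  · obtain ⟨D, hD, rfl⟩ := hlift X hX
    rw [hΦ' D hD]
    exact hΦ' (cnj γ D) (GG1_cnj hD γ)

end good

/-- An orthogonal representation: a symmetric form which is invariant up to a character, strongly
irreducible, and such that the conjugates of the centred weight operator generate the Lie algebra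
of all skew operators. -/
structure ORep (D : WeightOp K Γ) (M : FRep K Γ) where
  B : M.V →ₗ[K] M.V →ₗ[K] K
  μ : Γ →* Kˣ
  eqv : ∀ g x y, B (M.ρ g x) (M.ρ g y) = (μ g : K) * B x y
  sy : ∀ x y, B x y = B y x
  nd : ∀ x, (∀ y, B x y = 0) → x = 0
  si : SI M.ρ
  dim : finrank K M.V = 3 ∨ 5 ≤ finrank K M.V
  full : ∀ L : Submodule K (Module.End K M.V), (∀ A ∈ L, Skew B A) →
    (∀ A ∈ L, ∀ A' ∈ L, br A A' ∈ L) →
    (∀ γ : Γ, ∀ A ∈ L, (M.ρ γ * A * M.ρ γ⁻¹ : Module.End K M.V) ∈ L) →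
    ∀ c : K, D.Θ M - c • (1 : Module.End K M.V) ∈ L → ∀ x y, oo B 1 x y ∈ L

/-- a hyperbolic pair -/
theorem exists_hyp_pair [IsAlgClosed K] {V : Type} [AddCommGroup V] [Module K V]
    [FiniteDimensional K V] {B : V →ₗ[K] V →ₗ[K] K} (sy : ∀ x y, B x y = B y x)
    (nd : ∀ x, (∀ y, B x y = 0) → x = 0) (hdim : 2 ≤ finrank K V) :
    ∃ p q, B p p = 0 ∧ B q q = 0 ∧ B q p = 1 := by
  obtain ⟨p, hp0, hpp⟩ : ∃ p : V, p ≠ 0 ∧ B p p = 0 := by
    have hnt : Nontrivial V := Module.nontrivial_of_finrank_pos (R := K) (by omega)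
    obtain ⟨y, hy⟩ := exists_ne (0 : V)
    by_cases hyy : B y y = 0
    · exact ⟨y, hy, hyy⟩
    · obtain ⟨x, hx⟩ : ∃ x : V, x ∉ Submodule.span K {y} := by
        by_contra hcon
        push Not at hcon
        have h1 : (Submodule.span K {y} : Submodule K V) = ⊤ := by
          rw [eq_top_iff]
          exact fun x _ => hcon x
        have h2 := finrank_span_le_card (R := K) ({y} : Set V)
        rw [h1, finrank_top, Set.toFinset_singleton, Finset.card_singleton] at h2
        omega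
      obtain ⟨c, hc⟩ := IsAlgClosed.exists_root
        (Polynomial.C (B y y) * Polynomial.X ^ 2 + Polynomial.C (2 * B x y) * Polynomial.X +
          Polynomial.C (B x x)) (by
            rw [Polynomial.degree_quadratic hyy]
            decide)
      refine ⟨x + c • y, fun h => hx ?_, ?_⟩
      · rw [add_eq_zero_iff_eq_neg] at h
        rw [h]
        exact Submodule.neg_mem _ (Submodule.smul_mem _ _ (Submodule.mem_span_singleton_self y))
      · simp only [Polynomial.IsRoot, Polynomial.eval_add, Polynomial.eval_mul,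
          Polynomial.eval_C, Polynomial.eval_pow, Polynomial.eval_X] at hc
        simp only [map_add, map_smul, LinearMap.add_apply, LinearMap.smul_apply, smul_eq_mul]
        rw [sy y x]
        linear_combination hc
  obtain ⟨y, hy⟩ : ∃ y, B p y ≠ 0 := by
    by_contra hcon
    push Not at hcon
    exact hp0 (nd p hcon)
  set y' := (B p y)⁻¹ • y with hy'
  have h1 : B p y' = 1 := by rw [hy', map_smul, smul_eq_mul, inv_mul_cancel₀ hy]
  refine ⟨p, y' - (B y' y' / 2) • p, hpp, ?_, ?_⟩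
  · simp only [map_sub, map_smul, LinearMap.sub_apply, LinearMap.smul_apply, smul_eq_mul]
    rw [hpp, sy y' p, h1]
    ring
  · simp only [map_sub, map_smul, LinearMap.sub_apply, LinearMap.smul_apply, smul_eq_mul]
    rw [hpp, sy y' p, h1]
    ring

/-- the full member -/
theorem exists_Ful_gen [IsAlgClosed K] {ι : Type} {N : ι → FRep K Γ} {t : ι} {D : WeightOp K Γ}
    (R : ORep D (N t)) (fr : Frm N t) (hB : fr.B = R.B) : ∃ o : Ful N t, o.toFrm = fr := by
  have hJG := D.mem N
  obtain ⟨a, ha⟩ := fr.der hJG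
  have sy : ∀ x y, fr.B x y = fr.B y x := by rw [hB]; exact R.sy
  have nd : ∀ x, (∀ y, fr.B x y = 0) → x = 0 := by rw [hB]; exact R.nd
  have h1 : D.Θ (N t) - (a / 2 : K) • (1 : Module.End K (N t).V) ∈ frL fr := by
    refine ⟨fun x y => ?_, _, hJG, (a / 2 : K), ?_⟩
    · have h2 := ha x y
      simp only [LinearMap.sub_apply, LinearMap.smul_apply, Module.End.one_apply, map_sub,
        map_smul, smul_eq_mul]
      linear_combination h2
    · rw [sub_add_cancel]
  have hall : ∀ x y, oo fr.B 1 x y ∈ frL fr := by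
    rw [hB]
    exact R.full (frL fr) (fun A hA => hB ▸ hA.1) (fun A hA A' hA' => frL_br fr A hA A' hA')
      (fun γ A hA => frL_conj fr γ A hA) _ h1
  obtain ⟨p, q, hpp, hqq, hqp⟩ := exists_hyp_pair sy nd (by have := R.dim; omega)
  exact ⟨⟨fr, sy, nd, R.si, R.dim, p, q, hpp, hqq, hqp, fun x y => (hall x y).2⟩, rfl⟩

/-- The adjoint representations are isomorphic. -/
def AdI {M M' : FRep K Γ} (B : M.V →ₗ[K] M.V →ₗ[K] K) (B' : M'.V →ₗ[K] M'.V →ₗ[K] K) : Prop :=
  ∃ Φ : Module.End K M'.V →ₗ[K] Module.End K M.V,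
    (∀ X, Skew B' X → Skew B (Φ X)) ∧ (∀ X, Skew B' X → Φ X = 0 → X = 0) ∧
    (∀ Y, Skew B Y → ∃ X, Skew B' X ∧ Φ X = Y) ∧
    ∀ γ X, Skew B' X → Φ (M'.ρ γ * X * M'.ρ γ⁻¹) = M.ρ γ * Φ X * M.ρ γ⁻¹

/-- The representations `M` and `M'` are not related. -/
def Apart (D : WeightOp K Γ) (M M' : FRep K Γ) (B : M.V →ₗ[K] M.V →ₗ[K] K)
    (B' : M'.V →ₗ[K] M'.V →ₗ[K] K) : Prop :=
  ¬AdI B B' ∨ (¬IsoUpTo M' M ∧ (finrank K M.V ≠ 8 ∨ (∃ p q h, HasWeights (D.Θ M) (lvW p q h) ∧
    LvNum p q) ∧ ∃ p q h, HasWeights (D.Θ M') (lvW p q h) ∧ LvNum p q))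

/-- The representation `M` is small with respect to the orthogonal representation `M'`. -/
def SmallO (D : WeightOp K Γ) (M M' : FRep K Γ) (B' : M'.V →ₗ[K] M'.V →ₗ[K] K) : Prop :=
  (∃ (s w : Multiset ℤ) (z c : ℤ), HasWeights (D.Θ M) s ∧ HasWeights (D.Θ M') w ∧
    (∀ x y, B' (D.Θ M' x) y + B' x (D.Θ M' y) = (z : K) * B' x y) ∧
    2 * wgaps s c + wdiag w (z + c) < wsum w (z + c)) ∨
  (HasForm 1 M ∧ finrank K M.V < finrank K M'.V) ∨
  (HasForm (-1) M ∧ finrank K M.V + 1 < finrank K M'.V)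

variable {A : Type} [Ring A] [Algebra K A] [FiniteDimensional K A] [IsAlgClosed K]

/-- **The main application.** -/
theorem kill_gen {ι : Type} {m : ℕ} {T : ι → FRep K Γ} {M : Fin m → FRep K Γ}
    {χ : Γ →* Kˣ} {τ : Γ →* (A ≃ₐ[K] A)} {S : Set ι} (hS : S.Finite) (hgen : GenBy T M χ τ S)
    {Dw : WeightOp K Γ} (hT : ∀ j, ORep Dw (T j))
    (hiso : ∀ i j, i ≠ j → Apart Dw (T i) (T j) (hT i).B (hT j).B) {i : ι} (hi : i ∉ S)
    (hM : ∀ a, SmallO Dw (M a) (T i) (hT i).B) (lam : Γ →* Kˣ)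
    {R : Type} [Fintype R] [DecidableEq R]
    {h : MultilinearMap K (fun _ : R => (T i).V) A} (hh : Eqv (T i).ρ (algRep lam τ).ρ h)
    (x y : (T i).V) : Kill (oo (hT i).B 1 x y) h := by
  classical
  -- the characters of the forms
  have hκ : ∀ a, ∃ κ : Γ →* Kˣ, (∃ (s w : Multiset ℤ) (z c : ℤ), HasWeights (Dw.Θ (M a)) s ∧
        HasWeights (Dw.Θ (T i)) w ∧
        (∀ x y, (hT i).B (Dw.Θ (T i) x) y + (hT i).B x (Dw.Θ (T i) y) =
          (z : K) * (hT i).B x y) ∧
        2 * wgaps s c + wdiag w (z + c) < wsum w (z + c)) ∨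
      (∃ B : (M a).V →ₗ[K] (M a).V →ₗ[K] K, (∀ x y, B x y = (1 : K) * B y x) ∧
        (∀ x, (∀ y, B x y = 0) → x = 0) ∧
        (∀ g x y, B ((M a).ρ g x) ((M a).ρ g y) = (κ g : K) * B x y) ∧
        finrank K (M a).V < finrank K (T i).V) ∨
      (∃ B : (M a).V →ₗ[K] (M a).V →ₗ[K] K, (∀ x y, B x y = (-1 : K) * B y x) ∧
        (∀ x, (∀ y, B x y = 0) → x = 0) ∧
        (∀ g x y, B ((M a).ρ g x) ((M a).ρ g y) = (κ g : K) * B x y) ∧
        finrank K (M a).V + 1 < finrank K (T i).V) := by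
    intro a
    rcases hM a with h1 | ⟨⟨μ, B, h1, h2, h3⟩, h4⟩ | ⟨⟨μ, B, h1, h2, h3⟩, h4⟩
    · exact ⟨1, Or.inl h1⟩
    · exact ⟨μ, Or.inr (Or.inl ⟨B, h1, h2, h3, h4⟩)⟩
    · exact ⟨μ, Or.inr (Or.inr ⟨B, h1, h2, h3, h4⟩)⟩
  choose κ hκ using hκ
  let N : Ix ι m → FRep K Γ := fam T M (fun j => (hT j).μ) κ χ lam τ
  have hJG := Dw.mem N
  -- the members of orthogonal type
  have hfr : ∀ j, ∃ o : Ful N (Ix.t j), o.B = (hT j).B := by
    intro j
    let fr : Frm N (Ix.t j) := ⟨(hT j).B, fun g => ((hT j).μ g : K), (hT j).eqv, Ix.mu j,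
      line_finrank _, fun g x => rfl⟩
    obtain ⟨o, ho1⟩ := exists_Ful_gen (N := N) (t := Ix.t j) (hT j) fr rfl
    exact ⟨o, by rw [ho1]⟩
  choose o hoB using hfr
  have hgoodT : ∀ j, j ≠ i → Good N (Ix.t i) (Ix.t j) := by
    intro j hj
    rcases hiso i j (Ne.symm hj) with h1 | ⟨h1, h2⟩
    · refine good_of_ad (o i) (o j) fun h3 => h1 ?_
      rw [hoB, hoB] at h3
      exact h3
    · by_cases h8 : finrank K (T i).V = 8
      · obtain ⟨⟨p, q, z, hw, hn⟩, ⟨p', q', z', hw', hn'⟩⟩ := h2.resolve_left (not_not.2 h8)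
        obtain ⟨κ1, hκ1, b1, w1, -, hb1⟩ := id hw
        obtain ⟨κ2, hκ2, b2, w2, -, hb2⟩ := id hw'
        have e1 := finrank_lv b1 hb1
        have e2 := finrank_lv b2 hb2
        have e3 := hn.lt
        have e4 := hn'.lt
        rcases lt_trichotomy (finrank K (T j).V) (finrank K (T i).V) with h3 | h3 | h3
        · exact (o i).good_of_sym (o j).toFrm (o j).sy (o j).nd h3
        · have h4 : p = 1 := by omega
          have h5 : p' = 1 := by omega
          rw [h4] at hw
          rw [h5] at hw'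
          obtain ⟨u, v, c, e1, e2, e3, e4⟩ := hyp_of_lv (o i).toFrm (o i).sy (o i).nd hJG hw
          obtain ⟨u', v', c', e1', e2', e3', e4'⟩ :=
            hyp_of_lv (o j).toFrm (o j).sy (o j).nd hJG hw'
          exact good_hyp (o i) (o j) hJG e1 e2 e3 e1' e2' e3' e4 e4' h1
        · exact (o i).good_symm (o j) ((o j).good_of_sym (o i).toFrm (o i).sy (o i).nd h3)
      · exact (o i).good_of_not_iso (o j) h8 h1
  have hgoodM : ∀ a, Good N (Ix.t i) (Ix.pc a) := by
    intro a
    rcases hκ a with ⟨s, w, z, c, h1, h2, h3, h4⟩ | ⟨B, h1, h2, h3, h4⟩ | ⟨B, h1, h2, h3, h4⟩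
    · refine good_of_pairs (o i) hJG h2 (z := z) (c := c) (fun x y => ?_) (a := Ix.pc a) h1 h4
      rw [hoB]
      exact h3 x y
    · refine (o i).good_of_sym (a := Ix.pc a) ⟨B, fun g => (κ a g : K), h3, Ix.cf a,
        line_finrank _, fun g x => rfl⟩ (fun x y => (h1 x y).trans (one_mul _)) h2 h4
    · refine (o i).good_of_alt (a := Ix.pc a) ⟨B, fun g => (κ a g : K), h3, Ix.cf a,
        line_finrank _, fun g x => rfl⟩ (fun x y => (h1 x y).trans (neg_one_mul _)) h2 h4
  -- an operator which kills the other members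
  obtain ⟨D, hD, hD0, hDt⟩ := (o i).good_finset
    (hS.toFinset.image Ix.t ∪ (univ : Finset (Fin m)).image Ix.pc) (by
      intro a ha
      rcases Finset.mem_union.1 ha with ha | ha
      · obtain ⟨j, hj, rfl⟩ := Finset.mem_image.1 ha
        exact hgoodT j fun h => hi (h ▸ (hS.mem_toFinset.1 hj))
      · obtain ⟨a, -, rfl⟩ := Finset.mem_image.1 ha
        exact hgoodM a) x y
  have hDG := GG1_le hD
  have hDT : ∀ j ∈ S, D (Ix.t j) = 0 := fun j hj => hD0 _ (Finset.mem_union_left _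
    (Finset.mem_image.2 ⟨j, hS.mem_toFinset.2 hj, rfl⟩))
  have hDM : ∀ a, D (Ix.pc a) = 0 := fun a => hD0 _ (Finset.mem_union_right _
    (Finset.mem_image.2 ⟨a, Finset.mem_univ _, rfl⟩))
  have hDl : D Ix.lam = 0 := GG1_line hD (line_finrank _).le
  have hDc : ∀ n, D (Ix.chi n) = 0 := fun n => GG1_line hD (line_finrank _).le
  -- the derivation of the algebra
  let E : A →ₗ[K] A := D Ix.alg
  have hE : ∀ a b : A, E (a * b) = E a * b + a * E b := by
    intro a b
    have h1 : ∀ (g : Γ) (x y : A), (((1 : Γ →* Kˣ) g : K) • τ g x) *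
        (((1 : Γ →* Kˣ) g : K) • τ g y) = ((1 : Γ →* Kˣ) g : K) • τ g (x * y) := by
      intro g x y
      simp
    exact (bil_der (N := N) (a := Ix.alg) (b := Ix.alg) (c := Ix.alg) (LinearMap.mul K A)
      (Δ := ⊤) inferInstance (fun g _ x y => h1 g x y) hDG a b).symm
  have hE1 : E 1 = 0 := by
    have h1 := hE 1 1
    rw [mul_one, mul_one, one_mul] at h1
    exact left_eq_add.1 h1
  have hE0 : ∀ a : A, E a = 0 := by
    intro a
    have ha : a ∈ Algebra.adjoin K (SemiInv χ τ ∪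
      ({x | ∃ j ∈ S, ∃ f : (T j).V →ₗ[K] A, (∀ g y, f ((T j).ρ g y) = τ g (f y)) ∧ ∃ y, f y = x} ∪
       {x | ∃ a, ∃ f : (M a).V →ₗ[K] A, (∀ g y, f ((M a).ρ g y) = τ g (f y)) ∧ ∃ y, f y = x})) := by
      rw [hgen]
      exact Algebra.mem_top
    induction ha using Algebra.adjoin_induction with
    | mem a ha =>
      rcases ha with ⟨n, Δ, hΔ, h1⟩ | ⟨j, hj, f, hf, z, rfl⟩ | ⟨b, f, hf, z, rfl⟩
      · have h4 : ∀ g ∈ Δ, ∀ z : K, (((χ ^ n) g : K) • z) • a =
            ((1 : Γ →* Kˣ) g : K) • τ g (z • a) := by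
          intro g hg z
          rw [map_smul, h1 g hg, MonoidHom.one_apply, Units.val_one, one_smul,
            MonoidHom.pow_apply, Units.val_pow_eq_pow_val, smul_comm z, smul_assoc]
        have h2 := lin_der (N := N) (a := Ix.chi n) (c := Ix.alg)
          (LinearMap.toSpanSingleton K A a) hΔ (fun g hg z => h4 g hg z) hDG (1 : K)
        rw [hDc] at h2
        have h3 : E ((1 : K) • a) = 0 := by
          refine Eq.trans h2.symm ?_
          exact map_zero _
        rwa [one_smul] at h3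
      · have h4 : ∀ (g : Γ) (y : (T j).V), f ((T j).ρ g y) =
            ((1 : Γ →* Kˣ) g : K) • τ g (f y) := by
          intro g y
          rw [hf, MonoidHom.one_apply, Units.val_one, one_smul]
        have h2 := lin_der (N := N) (a := Ix.t j) (c := Ix.alg) f (Δ := ⊤) inferInstance
          (fun g _ y => h4 g y) hDG z
        rw [hDT j hj] at h2
        exact h2.symm.trans (map_zero f)
      · have h4 : ∀ (g : Γ) (y : (M b).V), f ((M b).ρ g y) =
            ((1 : Γ →* Kˣ) g : K) • τ g (f y) := by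
          intro g y
          rw [hf, MonoidHom.one_apply, Units.val_one, one_smul]
        have h2 := lin_der (N := N) (a := Ix.pc b) (c := Ix.alg) f (Δ := ⊤) inferInstance
          (fun g _ y => h4 g y) hDG z
        rw [hDM b] at h2
        exact h2.symm.trans (map_zero f)
    | algebraMap r => rw [Algebra.algebraMap_eq_smul_one, map_smul, hE1, smul_zero]
    | add a b _ _ ha hb => rw [map_add, ha, hb, add_zero]
    | mul a b _ _ ha hb => rw [hE, ha, hb, zero_mul, mul_zero, add_zero]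
  -- the target
  have htgt : ∀ a : A, D Ix.tgt a = 0 := by
    intro a
    have h4 : ∀ (g : Γ) (x : K) (y : A), ((lam g : K) • x) • (((1 : Γ →* Kˣ) g : K) • τ g y) =
        (lam g : K) • τ g (x • y) := by
      intro g x y
      rw [map_smul, MonoidHom.one_apply, Units.val_one, one_smul, smul_assoc]
    have h1 := bil_der (N := N) (a := Ix.lam) (b := Ix.alg) (c := Ix.tgt)
      (LinearMap.lsmul K A) (Δ := ⊤) inferInstance (fun g _ x y => h4 g x y) hDG (1 : K) a
    rw [hDl] at h1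
    have h2 : D Ix.tgt ((1 : K) • a) = 0 := by
      refine Eq.trans h1.symm ?_
      change (0 : K) • a + (1 : K) • E a = 0
      rw [hE0, smul_zero, zero_smul, add_zero]
    rwa [one_smul] at h2
  intro w
  obtain ⟨Δ, hΔ, hΔh⟩ := hh
  have h1 := hDG R (fun _ => Ix.t i) Ix.tgt h ⟨Δ, hΔ, hΔh⟩ w
  have h2 : D Ix.tgt (h w) = 0 := htgt (h w)
  have h3 : D (Ix.t i) = oo (hT i).B 1 x y := by
    rw [hDt, hoB]
    rfl
  refine Eq.trans (Finset.sum_congr rfl fun j _ => ?_) (h1.trans h2)
  exact congrArg (fun Y : Module.End K (T i).V => h (update w j (Y (w j)))) h3.symm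

end

end Pool.Agent.T2H43.HF
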