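import Pool.Agent.T2H43.HF.GBig

/-!
# The Mumford-Tate conjecture for products: the theorems
-/

open CategoryTheory AlgebraicGeometry Finset Function

set_option linter.unusedSectionVars false

universe u

namespace Pool.Agent.T2H43.HF

open Pool.Agent.H914 Pool.Agent.H914.VarClass Pool.Agent.H914.VarClass.Obj
  Pool.Agent.H914.WeilCohomology Pool.Agent.H281R3.HT Pool.Agent.W552 Pool.Agent.TH125.Gal
  Pool.Agent.Y127 Pool.Agent.Y127.G Pool.Agent.Y132.AH Pool.Agent.Y95.ZT Pool.Agent.Y132.AF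
  Pool.Agent.TH118.SG

variable {k : Type u} [Field k] {𝒱 : VarClass k} {ops : CycleOps 𝒱}
  {W : WeilCohomology.{u, 0} ops} {Γ : Type} [Group Γ] (D : P.WeightOps W.K Γ)
  (G : GaloisData W Γ) (Ψ : HodgeData W) [IsAlgClosed W.K] {ι : Type} [DecidableEq ι]
  {X : ι → 𝒱.Obj} {Z : 𝒱.Obj}

/-- **Level two.** -/
theorem lv_MT (e : W.K ≃+* ℂ) {p q p' q' : ι → ℕ} (hX : P.LevelTwoFamily Ψ p q X)
    (hG : P.GalLevelTwo D G p' q' X)
    (hsm : ∀ i, P.SmallBase Ψ (X i) Z ∨ (2 ≤ p i ∧ GeneratedIn W Z {1}))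
    (hsm' : ∀ i, P.SmallGal D G (X i) Z) (L : List ι) :
    MumfordTateAll Ψ G (prodList X Z L) ↔ MumfordTateAll Ψ G Z := by
  have hX' := lvFamily_of hX
  obtain ⟨FH⟩ := exists_oFam_lv Ψ e hX' (Z := Z) fun i => by
    rcases hsm i with h | h
    · exact smallBase_of h
    · exact smallBase_one Ψ h.1 (hX'.lv i) h.2
  obtain ⟨FG⟩ := exists_oFam_glv (D := D) (G := G) e hX.homEqNum
    (fun i => (hX.middle i).1) (fun i => (hX.middle i).2) hG hsm'
  refine mt_tower_all Ψ G FH FG (fun i => ?_) L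
  have h1 := (lvType Ψ (hX'.middle i) (hX'.lv i)).pos
  exact lt_of_lt_of_le (by norm_num) h1

/-- the family of orthogonal type -/
theorem orthFamily_of (hE : P.EvenFamily W X) (hX : P.BigFor (P.hodgeOp Ψ) X)
    (hT : ∀ i, P.TwoTypes (Ψ.on (X i)).hodge (transcendental W (X i))) :
    P.OrthogonalFamily Ψ X where
  homEqNum := hE.homEqNum
  middle := hE.middle
  big i := ⟨hX.irreducible i, hE.dim i, hT i⟩
  notIso := hX.notIso

/-- **Orthogonal type.** -/
theorem orth_MT (hE : P.EvenFamily W X) (hX : P.BigFor (P.hodgeOp Ψ) X)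
    (hG : P.BigFor (P.galOp G) X) (hT : P.TwoFor Ψ D G X) (hsm : ∀ i, P.SmallBase Ψ (X i) Z)
    (hsm' : ∀ i, P.SmallGal D G (X i) Z) (L : List ι) :
    MumfordTateAll Ψ G (prodList X Z L) ↔ MumfordTateAll Ψ G Z := by
  have hX' := orthFamily_of Ψ hE hX hT.types
  obtain ⟨FH⟩ := exists_oFam_bigP (Z := Z) hX' fun i => smallBase_of (hsm i)
  obtain ⟨FG⟩ := exists_oFam_gbig (D := D) (G := G) hE.homEqNum (fun i => (hE.middle i).1)
    (fun i => (hE.middle i).2) hE.dim hG hT.weights hsm'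
  refine mt_tower_all Ψ G FH FG (fun i => ?_) L
  have h1 := (hE.dim i).1
  exact lt_of_lt_of_le (by norm_num) h1

end Pool.Agent.T2H43.HF
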