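import Pool.Agent.Y132.AH.FDefs

/-!
# Motives of orthogonal type: definitions
-/

open CategoryTheory AlgebraicGeometry

universe u

namespace Pool.Agent.T2H43.HF.P

section Num

/-- The sum of the products `h a * h b` for `a = b + c`, `a, b ≤ m`. -/
def gapNum (h : ℕ → ℕ) (m c : ℕ) : ℕ :=
  ∑ a ∈ Finset.range (m + 1), ∑ b ∈ Finset.range (m + 1), if a = b + c then h a * h b else 0

/-- The sum of the products `h a * h b` for `a < b`, `a + b = m + c`, `a, b ≤ m`, and of
`h a * (h a - 1) / 2` for `2 a = m + c`. -/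
def skewNum (h : ℕ → ℕ) (m c : ℕ) : ℕ :=
  ((∑ a ∈ Finset.range (m + 1), ∑ b ∈ Finset.range (m + 1),
    if a + b = m + c then h a * h b else 0) -
    ∑ a ∈ Finset.range (m + 1), if 2 * a = m + c then h a else 0) / 2

end Num

section Alg

variable {K : Type} [Field K] {A : Type} [Ring A] [Algebra K A] {B : Type} [Ring B] [Algebra K B]
  {G : Type}

/-- The dimension of the space of the elements of `U` in `H (a, b)`. -/
noncomputable def typeDim (H : ℕ × ℕ → Submodule K A) (U : Submodule K A) (a b : ℕ) : ℕ :=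
  Module.finrank K ((H (a, b)).comap U.subtype)

/-- The space `U` carries a nondegenerate form `B` with `B(x, y) = s B(y, x)` which is invariant
under the operators `R g` up to scalars. -/
def FormOn (R : G → A → A) (U : Submodule K A) (s : K) : Prop :=
  ∃ (μ : G → Kˣ) (B : A →ₗ[K] A →ₗ[K] K), (∀ x ∈ U, ∀ y ∈ U, B x y = s * B y x) ∧
    (∀ x ∈ U, (∀ y ∈ U, B x y = 0) → x = 0) ∧
    ∀ g, ∀ x ∈ U, ∀ y ∈ U, B (R g x) (R g y) = (μ g : K) * B x y

/-- The space `U` is small with respect to the space `T` in degree `n`: it is in one degree `m`, and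
for some number `c` the dimension of the space of the operators on `U` of type `(c, -c)` is smaller
than the dimension of the space of the skew operators on `T` of type `(c, -c)`; or `U` carries a
symmetric form and `dim U < dim T`; or `U` carries an alternating form and `dim U + 1 < dim T`. -/
def SmallFor (gr : ℕ → Submodule K A) (R : G → A → A) (H : ℕ × ℕ → Submodule K A)
    (U : Submodule K A) (n : ℕ) (H' : ℕ × ℕ → Submodule K B) (T : Submodule K B) : Prop :=
  (∃ m c, U ≤ gr m ∧ gapNum (fun a => typeDim H U a (m - a)) m c <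
    skewNum (fun a => typeDim H' T a (n - a)) n c) ∨
  (FormOn R U 1 ∧ Module.finrank K U < Module.finrank K T) ∨
  (FormOn R U (-1) ∧ Module.finrank K U + 1 < Module.finrank K T)

/-- The algebra is generated by subspaces which are stable under the operators `R g` and small with
respect to `T`. -/
def GenSmallFor (gr : ℕ → Submodule K A) (R : G → A → A) (H : ℕ × ℕ → Submodule K A) (n : ℕ)
    (H' : ℕ × ℕ → Submodule K B) (T : Submodule K B) : Prop :=
  ∃ 𝒰 : Set (Submodule K A), (∀ U ∈ 𝒰, (∀ g, ∀ x ∈ U, R g x ∈ U) ∧ SmallFor gr R H U n H' T) ∧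
    Algebra.adjoin K (⋃ U ∈ 𝒰, (U : Set A)) = ⊤

/-- Some linear isomorphism `T → T'` is compatible with the operators `R g`, `R' g` up to
scalars. -/
def SameUpTo (R : G → A → A) (T : Submodule K A) (R' : G → B → B) (T' : Submodule K B) : Prop :=
  ∃ (f : T ≃ₗ[K] T') (ε : G → K), ∀ g (x y : T), (y : A) = R g x → (f y : B) = ε g • R' g (f x)

/-- `n` is even and `T` is in degree `n`. -/
def EvenMiddle (gr : ℕ → Submodule K A) (n : ℕ) (T : Submodule K A) : Prop := Even n ∧ T ≤ gr n

/-- The alternating sum of the products of `f 0 (x (σ 0))`, …, `f (n - 1) (x (σ (n - 1)))` over all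
permutations `σ`. -/
def altProd {n : ℕ} (f : Fin n → A →ₐ[K] B) (x : Fin n → A) : B :=
  ∑ σ : Equiv.Perm (Fin n), (Equiv.Perm.sign σ : ℤ) • (List.ofFn fun t => f t (x (σ t))).prod

/-- The span of the elements `altProd f x` with all `x t` in `T`. -/
def altSpan {n : ℕ} (f : Fin n → A →ₐ[K] B) (T : Submodule K A) : Submodule K B :=
  Submodule.span K {c | ∃ x : Fin n → A, (∀ t, x t ∈ T) ∧ c = altProd f x}

end Alg

open Pool.Agent.H914 Pool.Agent.H914.VarClass Pool.Agent.H914.VarClass.Obj
  Pool.Agent.H914.WeilCohomology Pool.Agent.Y132.AH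

variable {k : Type u} [Field k] {𝒱 : VarClass k} {ops : CycleOps 𝒱}
  {W : WeilCohomology.{u, 0} ops}

/-- The dimension of the transcendental cohomology. -/
noncomputable def dimT (W : WeilCohomology.{u, 0} ops) (X : 𝒱.Obj) : ℕ :=
  Module.finrank W.K (transcendental W X)

/-- The cohomology of `Z` is generated by subspaces which are stable under the Mumford-Tate group and
small with respect to the transcendental cohomology of `X`. -/
def SmallBase (Ψ : HodgeData W) (X Z : 𝒱.Obj) : Prop :=
  GenSmallFor (W.gr Z) (conjTorus (Ψ.on Z)) (Ψ.on Z).hodge X.dim (Ψ.on X).hodge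
    (transcendental W X)

/-- `Y` with the projections `π t` is a product of copies of `X`. -/
def IsPower {X Y : 𝒱.Obj} {n : ℕ} (π : Fin n → (Y ⟶ X)) : Prop :=
  ∀ (V : 𝒱.Obj) (ρ : Fin n → (V ⟶ X)), ∃ f : V ⟶ Y, ∀ t, f ≫ π t = ρ t

/-- Let `N` be the dimension of the transcendental cohomology `T` of `X`. The Hodge classes in the
exterior power of degree `N` of `T`, in the cohomology of the product of `N` copies of `X`, are
absolute Hodge classes. (The exterior power is one-dimensional.) -/
def DetAbsolute (Ψ : HodgeData W) (E : Embeddings W) (X : 𝒱.Obj) : Prop :=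
  ∀ (Y : 𝒱.Obj) (π : Fin (dimT W X) → (Y ⟶ X)), IsPower π → ∀ j,
    ∀ c ∈ altSpan (fun t => W.map (π t)) (transcendental W X), IsHodge Ψ Y j c →
      IsAbsHodge Ψ E Y j c

/-- The varieties isomorphic to a product of a variety in the class `𝒵` and powers of the `X i`; the
exponents for the `i` outside `I` are smaller than half of the dimension of the transcendental
cohomology of `X i`, the exponents for the `i` in `I` are arbitrary. -/
def productsOff {ι : Type} [DecidableEq ι] (W : WeilCohomology.{u, 0} ops) (𝒵 : Set 𝒱.Obj)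
    (X : ι → 𝒱.Obj) (I : Set ι) : Set 𝒱.Obj :=
  {Y | ∃ Z ∈ 𝒵, ∃ L : List ι, (∀ i, i ∉ I → 2 * L.count i < dimT W (X i)) ∧
    Nonempty (Y ≅ prodList X Z L)}

end Pool.Agent.T2H43.HF.P
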