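import Pool.Agent.Y132.AH.GDefs
import Pool.Agent.T2H43.HF.PubA

/-!
# Galois representations of orthogonal type: definitions
-/

open CategoryTheory AlgebraicGeometry

universe u

namespace Pool.Agent.T2H43.HF.P

/-- A finite-dimensional representation of `Γ` over `K`. -/
structure Rp (K : Type) [Field K] (Γ : Type) [Group Γ] where
  /-- the space -/
  V : Type
  [ac : AddCommGroup V]
  [md : Module K V]
  [fd : FiniteDimensional K V]
  /-- the action -/
  act : Γ →* Module.End K V

attribute [instance] Rp.ac Rp.md Rp.fd

section Rep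

variable {K : Type} [Field K] {Γ : Type} [Group Γ]

/-- The action of an element `g` on a vector `x`. -/
def Rp.ap (M : Rp K Γ) (g : Γ) (x : M.V) : M.V := M.act g x

/-- The multilinear maps from the product of the `M j` to `M'`. -/
def MMap {S : Type} (M : S → Rp K Γ) (M' : Rp K Γ) : Type :=
  MultilinearMap K (fun j => (M j).V) M'.V

/-- The values of a multilinear map. -/
def MMap.ev {S : Type} {M : S → Rp K Γ} {M' : Rp K Γ} (h : MMap M M') : (∀ j, (M j).V) → M'.V :=
  MultilinearMap.toFun h

/-- The map `h` is equivariant under a subgroup of finite index. -/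
def MMap.PotEqv {S : Type} {M : S → Rp K Γ} {M' : Rp K Γ} (h : MMap M M') : Prop :=
  ∃ Δ : Subgroup Γ, Δ.FiniteIndex ∧
    ∀ g ∈ Δ, ∀ v, h.ev (fun j => (M j).ap g (v j)) = M'.ap g (h.ev v)

end Rep

/-- A linear operator on every finite-dimensional representation of `Γ` over `K`, compatible with
all multilinear maps that are equivariant under a subgroup of finite index (a derivation of the
category of representations). -/
structure WeightOps (K : Type) [Field K] (Γ : Type) [Group Γ] where
  /-- the operators -/
  Θ : ∀ M : Rp K Γ, Module.End K M.V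
  der : ∀ (S : Type) [Fintype S] [DecidableEq S] (M : S → Rp K Γ) (M' : Rp K Γ)
    (h : MMap M M'), h.PotEqv →
    ∀ v, ∑ j, h.ev (Function.update v j (Θ (M j) (v j))) = Θ M' (h.ev v)

/-- The operator `A` is diagonalizable with the weights `s` (with multiplicities). -/
def HasWts {K : Type} [Field K] {V : Type} [AddCommGroup V] [Module K V] (A : Module.End K V)
    (s : Multiset ℤ) : Prop :=
  ∃ (κ : Type) (_ : Fintype κ) (b : Module.Basis κ K V) (w : κ → ℤ),
    (∀ k, A (b k) = (w k : K) • b k) ∧ (Finset.univ : Finset κ).val.map w = s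

/-- The number of pairs of weights, counted with multiplicities, with difference `c`. -/
def wgaps (s : Multiset ℤ) (c : ℤ) : ℕ := (s ×ˢ s).countP fun x => x.1 = x.2 + c

/-- The multiplicity of the weight `z` in the second exterior power of a space with the weights
`s`. -/
def wpairs (s : Multiset ℤ) (z : ℤ) : ℕ :=
  ((s ×ˢ s).countP (fun x => x.1 + x.2 = z) - s.countP fun x => 2 * x = z) / 2

section Alg

variable {K : Type} [Field K] {A : Type} [Ring A] [Algebra K A] {B : Type} [Ring B] [Algebra K B]
  {Γ : Type} [Group Γ]

/-- The operator `ρ g`. -/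
def opOf (ρ : Γ →* (A ≃ₐ[K] A)) (g : Γ) (x : A) : A := ρ g x

/-- The space `U` with the operators `R g` is isomorphic to a representation `M` whose operator is
diagonalizable with the weights `s`. -/
def WeightsOn (D : WeightOps K Γ) (R : Γ → A → A) (U : Submodule K A) (s : Multiset ℤ) : Prop :=
  ∃ (M : Rp K Γ) (f : M.V →ₗ[K] A), (∀ g x, f (M.ap g x) = R g (f x)) ∧ LinearMap.ker f = ⊥ ∧
    LinearMap.range f = U ∧ HasWts (D.Θ M) s

/-- The space `U` is small with respect to the space `T`: for some number `c` the multiplicity of the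
weight `c` in the space of the operators on `U` is smaller than its multiplicity in the space of the
skew operators on `T`, where `z / 2` is the mean of the weights `w` of `T`; or `U` carries a symmetric
form and `dim U < dim T`; or `U` carries an alternating form and `dim U + 1 < dim T`. -/
def SmallWt (D : WeightOps K Γ) (R : Γ → A → A) (U : Submodule K A) (R' : Γ → B → B)
    (T : Submodule K B) : Prop :=
  (∃ s w z c, WeightsOn D R U s ∧ WeightsOn D R' T w ∧ z * w.card = 2 * w.sum ∧
    wgaps s c < wpairs w (z + c)) ∨
  (FormOn R U 1 ∧ Module.finrank K U < Module.finrank K T) ∨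
  (FormOn R U (-1) ∧ Module.finrank K U + 1 < Module.finrank K T)

/-- The algebra is generated by subspaces which are stable under the operators `R g` and small with
respect to `T`. -/
def GenSmallWt (D : WeightOps K Γ) (R : Γ → A → A) (R' : Γ → B → B) (T : Submodule K B) : Prop :=
  ∃ 𝒰 : Set (Submodule K A), (∀ U ∈ 𝒰, (∀ g, ∀ x ∈ U, R g x ∈ U) ∧ SmallWt D R U R' T) ∧
    Algebra.adjoin K (⋃ U ∈ 𝒰, (U : Set A)) = ⊤

end Alg

open Pool.Agent.H914 Pool.Agent.H914.VarClass Pool.Agent.H914.VarClass.Obj
  Pool.Agent.H914.WeilCohomology Pool.Agent.Y132.AH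

variable {k : Type u} [Field k] {𝒱 : VarClass k} {ops : CycleOps 𝒱}
  {W : WeilCohomology.{u, 0} ops} {Γ : Type} [Group Γ]

/-- The operators of the elements of `Γ` on the cohomology of `X`. -/
def galOp (G : GaloisData W Γ) (X : 𝒱.Obj) : Γ → W.H X → W.H X := opOf (G.on X).act

/-- The cohomology of `Z` is generated by subspaces which are stable under `Γ` and small with respect
to the transcendental cohomology of `X`. -/
def SmallGal (D : WeightOps W.K Γ) (G : GaloisData W Γ) (X Z : 𝒱.Obj) : Prop :=
  GenSmallWt D (galOp G Z) (galOp G X) (transcendental W X)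

end Pool.Agent.T2H43.HF.P
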