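import Pool.Agent.T2H43.HF.Kil

/-!
# Orthogonal representations
-/

set_option autoImplicit false
set_option linter.unusedSectionVars false

namespace Pool.Agent.T2H43.HF

open Module Finset Function Pool.Agent.TH118.SG Pool.Agent.TH125.Gal Pool.Agent.Y127.G
  Pool.Agent.Y127.C Pool.Agent.Y95.ZT

noncomputable section

variable {K : Type} [Field K] [CharZero K] [IsAlgClosed K] {Γ : Type} [Group Γ]

/-- two skew shifts of an operator agree -/
theorem skew_shift {V : Type} [AddCommGroup V] [Module K V] [FiniteDimensional K V]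
    {B : V →ₗ[K] V →ₗ[K] K} (nd : ∀ x, (∀ y, B x y = 0) → x = 0) (hpos : 0 < finrank K V)
    {J : Module.End K V} {a b : K} (ha : Skew B (J - a • 1)) (hb : Skew B (J - b • 1)) :
    a = b := by
  have hnt : Nontrivial V := Module.nontrivial_of_finrank_pos (R := K) hpos
  obtain ⟨x, hx⟩ := exists_ne (0 : V)
  obtain ⟨y, hy⟩ : ∃ y, B x y ≠ 0 := by
    by_contra hcon
    push Not at hcon
    exact hx (nd x hcon)
  have h1 := ha x y
  have h2 := hb x y
  simp only [LinearMap.sub_apply, LinearMap.smul_apply, Module.End.one_apply, map_sub, map_smul,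
    smul_eq_mul] at h1 h2
  have h3 : (a - b) * (2 * B x y) = 0 := by linear_combination h2 - h1
  rcases mul_eq_zero.1 h3 with h4 | h4
  · exact sub_eq_zero.1 h4
  · rcases mul_eq_zero.1 h4 with h5 | h5
    · exact absurd h5 two_ne_zero
    · exact absurd h5 hy

/-- Representations of level two. -/
def orep_of_lv (e : K ≃+* ℂ) {D : WeightOp K Γ} {p q : ℕ} {M : FRep K Γ} (R : LvRep D p q M) :
    ORep D M where
  B := R.B
  μ := R.μ
  eqv := R.eqv
  sy := R.sy
  nd := R.nd
  si := R.si
  dim := by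
    have h1 := R.dim
    have h2 := R.num.lt
    omega
  full := by
    intro L hsk hbr hconj c hc x y
    obtain ⟨κ, hκ, b, w, hJ, hw⟩ := R.weights
    have hlt := R.num.lt
    have hcond : p = 1 ∨ 2 * p ^ 2 * (p ^ 2 + 1) < (q - 2 * p) * (q + p) := by
      rcases R.num with h | h
      · exact Or.inl h.1
      · exact Or.inr h.2.2
    have hcop : Nat.Coprime p q := by
      rcases R.num with h | h
      · rw [h.1]
        exact Nat.coprime_one_left q
      · exact h.2.1
    let N : Bool → FRep K Γ := fun β => bif β then M else line R.μ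
    let fr : Frm N true := ⟨R.B, fun g => (R.μ g : K), R.eqv, false, line_finrank _,
      fun g x => rfl⟩
    have h1 : Skew R.B (D.Θ M - (R.h : K) • (1 : Module.End K M.V)) :=
      lv_skew (N := N) (t := true) fr R.sy R.nd (D.mem N) (by omega) hJ hw
    have hn : finrank K M.V = q + 2 * p := finrank_lv b hw
    have h2 : c = (R.h : K) := skew_shift R.nd (by omega) (hsk _ hc) h1
    rw [h2] at hc
    exact core_End (ρ := M.ρ) e R.si R.sy R.nd hn (by omega) (by omega) hcond hcop
      (L := L) hsk hbr hconj (cube_lv hJ hw) (trace_lv hJ hw) hc (skew_one R.sy x y)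

/-- Representations with irreducible adjoint representation. -/
def orep_of_irr {D : WeightOp K Γ} {M : FRep K Γ} (B : M.V →ₗ[K] M.V →ₗ[K] K) (μ : Γ →* Kˣ)
    (eqv : ∀ g x y, B (M.ρ g x) (M.ρ g y) = (μ g : K) * B x y) (sy : ∀ x y, B x y = B y x)
    (nd : ∀ x, (∀ y, B x y = 0) → x = 0) (si : SI M.ρ)
    (dim : finrank K M.V = 3 ∨ 5 ≤ finrank K M.V)
    (irr : ∀ L : Submodule K (Module.End K M.V), (∀ A ∈ L, Skew B A) →
      (∀ γ : Γ, ∀ A ∈ L, (M.ρ γ * A * M.ρ γ⁻¹ : Module.End K M.V) ∈ L) →
      L = ⊥ ∨ ∀ A, Skew B A → A ∈ L) (hns : ∀ c : K, D.Θ M ≠ c • (1 : Module.End K M.V)) :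
    ORep D M where
  B := B
  μ := μ
  eqv := eqv
  sy := sy
  nd := nd
  si := si
  dim := dim
  full := by
    intro L hsk hbr hconj c hc x y
    rcases irr L hsk hconj with h | h
    · rw [h, Submodule.mem_bot] at hc
      exact absurd (sub_eq_zero.1 hc) (hns c)
    · exact h _ (skew_one sy x y)

end

end Pool.Agent.T2H43.HF
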