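import Pool.Agent.TH125.Gal.Rec

/-!
# Sums of monomials with pairs of variables and a remaining block of variables
-/

set_option linter.unusedSectionVars false

open Finset Function

namespace Pool.Agent.T2H43.HF

open Pool.Agent.TH125.Gal

section pattern

variable {JC JT : Type} {N : ℕ}

/-- the list of the positions in pairs -/
def pList {c : Fin N → Option JC} {m τ : ℕ} (e : (Fin m × Fin 2) ⊕ Fin τ ≃ Free c) :
    List (Fin N) :=
  (List.finRange m).flatMap fun l => [(e (Sum.inl (l, 0))).1, (e (Sum.inl (l, 1))).1]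

/-- the list of the remaining free positions -/
def rList {c : Fin N → Option JC} {m τ : ℕ} (e : (Fin m × Fin 2) ⊕ Fin τ ≃ Free c) :
    List (Fin N) :=
  (List.finRange τ).map fun t => (e (Sum.inr t)).1

theorem mem_pList {c : Fin N → Option JC} {m τ : ℕ} (e : (Fin m × Fin 2) ⊕ Fin τ ≃ Free c)
    (p : Fin N) : p ∈ pList e ↔ ∃ x, p = (e (Sum.inl x)).1 := by
  rw [pList, List.mem_flatMap]
  constructor
  · rintro ⟨l, -, h⟩
    simp only [List.mem_cons, List.not_mem_nil, or_false] at h
    rcases h with h | h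
    · exact ⟨_, h⟩
    · exact ⟨_, h⟩
  · rintro ⟨⟨l, i⟩, rfl⟩
    refine ⟨l, List.mem_finRange l, ?_⟩
    simp only [List.mem_cons, List.not_mem_nil, or_false]
    fin_cases i
    · exact Or.inl rfl
    · exact Or.inr rfl

theorem mem_rList {c : Fin N → Option JC} {m τ : ℕ} (e : (Fin m × Fin 2) ⊕ Fin τ ≃ Free c)
    (p : Fin N) : p ∈ rList e ↔ ∃ t, p = (e (Sum.inr t)).1 := by
  rw [rList, List.mem_map]
  constructor
  · rintro ⟨t, -, h⟩
    exact ⟨t, h.symm⟩
  · rintro ⟨t, h⟩
    exact ⟨t, List.mem_finRange t, h.symm⟩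

theorem nodup_pList {c : Fin N → Option JC} {m τ : ℕ}
    (e : (Fin m × Fin 2) ⊕ Fin τ ≃ Free c) : (pList e).Nodup := by
  rw [pList, List.nodup_flatMap]
  refine ⟨fun l _ => ?_, ?_⟩
  · rw [List.nodup_cons]
    refine ⟨?_, List.nodup_singleton _⟩
    rw [List.mem_singleton]
    intro h
    have h1 := Sum.inl_injective (e.injective (Subtype.ext h))
    have h2 := (Prod.mk.inj h1).2
    exact absurd h2 (by decide)
  · refine (List.nodup_finRange m).imp_of_mem ?_
    intro l l' _ _ hll
    simp only [Function.onFun]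
    intro p hp hp'
    simp only [List.mem_cons, List.not_mem_nil, or_false] at hp hp'
    have key : ∀ i i', (e (Sum.inl (l, i))).1 ≠ (e (Sum.inl (l', i'))).1 := by
      intro i i' h
      exact hll (Prod.mk.inj (Sum.inl_injective (e.injective (Subtype.ext h)))).1
    rcases hp with h | h <;> rcases hp' with h' | h' <;> exact key _ _ (h.symm.trans h')

theorem nodup_rList {c : Fin N → Option JC} {m τ : ℕ}
    (e : (Fin m × Fin 2) ⊕ Fin τ ≃ Free c) : (rList e).Nodup := by
  rw [rList]
  refine (List.nodup_finRange τ).map fun t t' h => ?_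
  exact Sum.inr_injective (e.injective (Subtype.ext h))

theorem perm_prf {c : Fin N → Option JC} {m τ : ℕ} (e : (Fin m × Fin 2) ⊕ Fin τ ≃ Free c) :
    (List.finRange N).Perm (pList e ++ (rList e ++ fixList c)) := by
  have hfr : ∀ p : Fin N, p ∈ pList e ++ (rList e ++ fixList c) := by
    intro p
    rw [List.mem_append, List.mem_append, mem_pList, mem_rList, mem_fixList]
    by_cases h : c p = none
    · obtain ⟨x, hx⟩ := e.surjective ⟨p, h⟩
      rcases x with x | t
      · exact Or.inl ⟨x, (congrArg Subtype.val hx).symm⟩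
      · exact Or.inr (Or.inl ⟨t, (congrArg Subtype.val hx).symm⟩)
    · exact Or.inr (Or.inr h)
  refine (List.perm_ext_iff_of_nodup (List.nodup_finRange N) ?_).2 fun p => ?_
  · rw [List.nodup_append]
    refine ⟨nodup_pList e, ?_, ?_⟩
    · rw [List.nodup_append]
      refine ⟨nodup_rList e, (List.nodup_finRange N).filter _, ?_⟩
      intro p hp q hq h
      rw [mem_rList] at hp
      rw [mem_fixList] at hq
      obtain ⟨t, rfl⟩ := hp
      exact hq (h ▸ (e (Sum.inr t)).2)
    · intro p hp q hq h
      rw [mem_pList] at hp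
      rw [List.mem_append, mem_rList, mem_fixList] at hq
      obtain ⟨x, rfl⟩ := hp
      rcases hq with ⟨t, rfl⟩ | hq
      · exact absurd (e.injective (Subtype.ext h)) Sum.inl_ne_inr
      · exact hq (h ▸ (e (Sum.inl x)).2)
  · exact ⟨fun _ => hfr p, fun _ => List.mem_finRange p⟩

variable {K A : Type*} [Field K] [Ring A] [Algebra K A]

/-- **Sums of monomials.** -/
theorem sum_free [Fintype JT] [DecidableEq JT] {E : Fin N → JC ⊕ JT → A}
    (hE : ∀ p q i j, E p i * E q j = E q j * E p i)
    {c : Fin N → Option JC} {m τ : ℕ} (e : (Fin m × Fin 2) ⊕ Fin τ ≃ Free c) (Q : JT → JT → K)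
    (d : (Fin τ → JT) → K) :
    ∑ r : Free c → JT, ((∏ l, Q (r (e (Sum.inl (l, 0)))) (r (e (Sum.inl (l, 1))))) *
        d fun t => r (e (Sum.inr t))) • (List.ofFn fun p => E p (comb c r p)).prod =
      (List.ofFn fun l : Fin m => ∑ a : Fin 2 → JT, Q (a 0) (a 1) •
        (E (e (Sum.inl (l, 0))).1 (Sum.inr (a 0)) *
          E (e (Sum.inl (l, 1))).1 (Sum.inr (a 1)))).prod *
        ((∑ y : Fin τ → JT, d y • (List.ofFn fun t => E (e (Sum.inr t)).1 (Sum.inr (y t))).prod) *
          ((fixList c).map fun p => (c p).elim 1 fun i => E p (Sum.inl i)).prod) := by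
  classical
  have h3 : ∀ r : Free c → JT, (List.ofFn fun p => E p (comb c r p)).prod =
      (List.ofFn fun l : Fin m => E (e (Sum.inl (l, 0))).1 (Sum.inr (r (e (Sum.inl (l, 0))))) *
        E (e (Sum.inl (l, 1))).1 (Sum.inr (r (e (Sum.inl (l, 1)))))).prod *
        ((List.ofFn fun t : Fin τ => E (e (Sum.inr t)).1 (Sum.inr (r (e (Sum.inr t))))).prod *
        ((fixList c).map fun p => (c p).elim 1 fun i => E p (Sum.inl i)).prod) := by
    intro r
    have h4 : ((List.finRange N).map fun p => E p (comb c r p)).prod =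
        ((pList e ++ (rList e ++ fixList c)).map fun p => E p (comb c r p)).prod := by
      refine List.Perm.prod_eq' ((perm_prf e).map _) ?_
      rw [List.pairwise_map]
      exact List.pairwise_of_forall fun p q => hE p q _ _
    have h5 : ((pList e).map fun p => E p (comb c r p)).prod = (List.ofFn fun l : Fin m =>
        E (e (Sum.inl (l, 0))).1 (Sum.inr (r (e (Sum.inl (l, 0))))) *
          E (e (Sum.inl (l, 1))).1 (Sum.inr (r (e (Sum.inl (l, 1)))))).prod := by
      rw [pList, List.map_flatMap, List.ofFn_eq_map]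
      generalize List.finRange m = L
      induction L with
      | nil => rfl
      | cons l L ih =>
        rw [List.flatMap_cons, List.prod_append, ih, List.map_cons, List.prod_cons]
        congr 1
        simp only [List.map_cons, List.map_nil, List.prod_cons, List.prod_nil, mul_one]
        rw [comb_none, comb_none]
    have h6 : ((fixList c).map fun p => E p (comb c r p)) =
        ((fixList c).map fun p => (c p).elim 1 fun i => E p (Sum.inl i)) := by
      refine List.map_congr_left fun p hp => ?_
      rw [mem_fixList] at hp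
      cases h : c p with
      | none => exact absurd h hp
      | some i => rw [comb_some r h]; rfl
    have h7 : ((rList e).map fun p => E p (comb c r p)) =
        List.ofFn fun t : Fin τ => E (e (Sum.inr t)).1 (Sum.inr (r (e (Sum.inr t)))) := by
      rw [rList, List.map_map, List.ofFn_eq_map]
      refine List.map_congr_left fun t _ => ?_
      rw [Function.comp_apply, comb_none]
    rw [List.ofFn_eq_map, h4, List.map_append, List.prod_append, List.map_append,
      List.prod_append, h5, h6, h7]
  rw [← sum_prod (K := K) (fun (_ : Fin m) (a : Fin 2 → JT) => Q (a 0) (a 1))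
    (fun l a => E (e (Sum.inl (l, 0))).1 (Sum.inr (a 0)) *
      E (e (Sum.inl (l, 1))).1 (Sum.inr (a 1)))]
  rw [Finset.sum_mul, Finset.sum_mul]
  simp only [Finset.mul_sum]
  rw [← Fintype.sum_prod_type']
  let Φ : (Free c → JT) ≃ (Fin m → Fin 2 → JT) × (Fin τ → JT) :=
    (Equiv.arrowCongr e.symm (Equiv.refl JT)).trans
      ((Equiv.sumArrowEquivProdArrow _ _ _).trans
        (Equiv.prodCongr (Equiv.curry _ _ _) (Equiv.refl _)))
  refine Fintype.sum_equiv Φ _ _ fun r => ?_
  have e1 : ∀ l i, (Φ r).1 l i = r (e (Sum.inl (l, i))) := fun l i => rfl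
  have e2 : ∀ t, (Φ r).2 t = r (e (Sum.inr t)) := fun t => rfl
  have e2' : (Φ r).2 = fun t => r (e (Sum.inr t)) := rfl
  rw [h3]
  simp only [e1, e2', smul_mul_assoc, mul_smul_comm, smul_smul]
  congr 1
  exact mul_comm _ _

end pattern

end Pool.Agent.T2H43.HF
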